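import Pool.Agent.RSCovers.Loops

set_option autoImplicit false

namespace Pool.Agent.RSCovers

/-- The weight of the word `x :: t`: the product of `P y z` over its adjacent pairs `(y, z)`. -/
def wt {G : Type} [Monoid G] (P : ℕ → ℕ → G) : ℕ → List ℕ → G
  | _, [] => 1
  | x, y :: t => P x y * wt P y t

@[simp] theorem wt_nil {G : Type} [Monoid G] (P : ℕ → ℕ → G) (x : ℕ) : wt P x [] = 1 := rfl

@[simp] theorem wt_cons {G : Type} [Monoid G] (P : ℕ → ℕ → G) (x y : ℕ) (t : List ℕ) :
    wt P x (y :: t) = P x y * wt P y t := rfl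

@[simp] theorem wt_append {G : Type} [Monoid G] (P : ℕ → ℕ → G) (x : ℕ) (s t : List ℕ) :
    wt P x (s ++ t) = wt P x s * wt P (lst x s) t := by
  induction s generalizing x with
  | nil => simp
  | cons a s ih => simp [ih, mul_assoc]

/-- The monoid of loops at `x` in the graph `E`. -/
def Lp (x : ℕ) (E : Set (ℕ × ℕ)) : Submonoid (FreeMonoid ℕ) where
  carrier := {l | lst x l.toList = x ∧ edges x l.toList ⊆ E}
  one_mem' := by simp
  mul_mem' := by
    rintro a b ⟨ha, ha'⟩ ⟨hb, hb'⟩
    refine ⟨by rw [FreeMonoid.toList_mul, lst_append, ha, hb], ?_⟩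
    rw [FreeMonoid.toList_mul, edges_append, ha]
    exact Set.union_subset ha' hb'

section

variable {S : Type} [Semigroup S] (f : ℕ → S) {n : ℕ} (hS : Sys n S) (hn : 1 ≤ n)
  {x : ℕ} {a : List ℕ} (ha : lst x a = x)

include hS hn ha in
theorem shift {b : List ℕ} (hb : lst x b = x) :
    ∃ P : WithOne S, (f x : WithOne S) * ev f a ^ n * ev f b = P * (f x * ev f a ^ n) := by
  obtain ⟨P, hP⟩ := end_mul (loop_mem f hb)
  refine ⟨P, ?_⟩
  rw [mul_assoc, ← T5 hS hn (loop_mem f ha) (loop_mem f hb), ← mul_assoc, hP, mul_assoc]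

/-- The congruence on loops. -/
def conG : Con (Lp x (edges x a)) where
  r l l' := (f x : WithOne S) * ev f a ^ n * ev f l.1.toList =
    f x * ev f a ^ n * ev f l'.1.toList
  iseqv := ⟨fun _ => rfl, fun h => h.symm, fun h h' => h.trans h'⟩
  mul' := by
    intro b c d e hbc hde
    show (f x : WithOne S) * ev f a ^ n * ev f (b * d : Lp x (edges x a)).1.toList =
      f x * ev f a ^ n * ev f (c * e : Lp x (edges x a)).1.toList
    rw [Submonoid.coe_mul, Submonoid.coe_mul, FreeMonoid.toList_mul, FreeMonoid.toList_mul,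
      ev_append, ev_append, ← mul_assoc, ← mul_assoc, hbc]
    obtain ⟨P, hP⟩ := shift f hS hn ha c.2.1
    rw [hP, mul_assoc P, mul_assoc P, hde]

/-- The group of classes of loops. -/
abbrev Gq : Type := (conG f hS hn ha).Quotient

theorem Gq_eq {l l' : Lp x (edges x a)} :
    (l : Gq f hS hn ha) = l' ↔ (f x : WithOne S) * ev f a ^ n * ev f l.1.toList =
    f x * ev f a ^ n * ev f l'.1.toList :=
  (conG f hS hn ha).eq

theorem toList_pow' (l : FreeMonoid ℕ) (k : ℕ) : ev f (l ^ k).toList = ev f l.toList ^ k := by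
  induction k with
  | zero => simp
  | succ k ih => rw [pow_succ, FreeMonoid.toList_mul, ev_append, ih, pow_succ]

theorem Gq_pow (g : Gq f hS hn ha) : g ^ n = 1 := by
  induction g using Con.induction_on with
  | _ l =>
  have h1 : ((l ^ n : Lp x (edges x a)) : Gq f hS hn ha) = (l : Gq f hS hn ha) ^ n :=
    map_pow (conG f hS hn ha).mk' l n
  rw [← h1, ← Con.coe_one, Gq_eq]
  rw [SubmonoidClass.coe_pow, toList_pow', lemC f hS hn ha l.2.1 l.2.2]
  simp

instance : Group (Gq f hS hn ha) :=
  { (inferInstance : Monoid (Gq f hS hn ha)) with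
    inv := fun g => g ^ (n - 1)
    inv_mul_cancel := fun g => by
      have h := Gq_pow f hS hn ha g
      show g ^ (n - 1) * g = 1
      rw [← pow_succ, Nat.sub_add_cancel hn, h] }

end

variable {S : Type} [Semigroup S] (f : ℕ → S) {n : ℕ} (hS : Sys n S) (hn : 1 ≤ n)
include hS hn

open Classical in
theorem base {x : ℕ} {t t' : List ℕ} (ht : Irred x t) (ht' : Irred x t')
    (hE : edges x t = edges x t') (hl : lst x t = lst x t')
    (hw : ∀ (G : Type) [Group G], (∀ g : G, g ^ n = 1) → ∀ P : ℕ → ℕ → G,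
      wt P x t = wt P x t') :
    (f x : WithOne S) * ev f t = f x * ev f t' := by
  obtain ⟨a, ha, haE, hat⟩ := cover f hS hn ht
  obtain ⟨a', ha', haE', hat'⟩ := cover f hS hn ht'
  have hr : (f x : WithOne S) * ev f a' ^ n = f x * ev f a ^ n := by
    have h1 := lemC f hS hn ha ha' (by rw [haE, haE', hE])
    have h2 := lemC f hS hn ha' ha (by rw [haE, haE', hE])
    have h3 := T5 hS hn (loop_mem f ha) (Submonoid.pow_mem _ (loop_mem f ha') n)
    rw [← h2, mul_assoc, h3, ← mul_assoc, h1]
  rw [hr] at hat'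
  set r0 : WithOne S := f x * ev f a ^ n with hr0
  -- the walks from `x`
  have hA : ∀ y, ∃ w : List ℕ, (y = x → w = []) ∧
      ((∃ w', edges x w' ⊆ edges x a ∧ lst x w' = y) → edges x w ⊆ edges x a ∧ lst x w = y) := by
    intro y
    by_cases hy : y = x
    · exact ⟨[], fun _ => rfl, fun _ => ⟨by simp, by simp [hy]⟩⟩
    · by_cases h : ∃ w', edges x w' ⊆ edges x a ∧ lst x w' = y
      · obtain ⟨w', h1, h2⟩ := h
        exact ⟨w', fun h => absurd h hy, fun _ => ⟨h1, h2⟩⟩
      · exact ⟨[], fun _ => rfl, fun h' => absurd h' h⟩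
  choose tt htx hty using hA
  have hB : ∀ y, ∃ s : List ℕ, (∃ w', edges x w' ⊆ edges x a ∧ lst x w' = y) →
      edges y s ⊆ edges x a ∧ lst y s = x ∧ r0 * ev f (tt y) * ev f s = r0 := by
    intro y
    by_cases h : ∃ w', edges x w' ⊆ edges x a ∧ lst x w' = y
    · obtain ⟨h1, h2⟩ := hty y h
      obtain ⟨s, hs1, hs2, hs3⟩ := C1 f hS hn ha (tt y) h1
      rw [h2] at hs1 hs2
      exact ⟨s, fun _ => ⟨hs1, hs2, hs3⟩⟩
    · exact ⟨[], fun h' => absurd h' h⟩
  choose ss hss using hB
  -- Lemma D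
  have hD : ∀ w, edges x w ⊆ edges x a →
      r0 * ev f w * ev f (ss (lst x w)) * ev f (tt (lst x w)) = r0 * ev f w := by
    intro w hw'
    have hex : ∃ w', edges x w' ⊆ edges x a ∧ lst x w' = lst x w := ⟨w, hw', rfl⟩
    obtain ⟨h1, h2, h3⟩ := hss _ hex
    obtain ⟨h4, h5⟩ := hty _ hex
    have hloop : lst (lst x w) (ss (lst x w) ++ tt (lst x w)) = lst x w := by
      rw [lst_append, h2, h5]
    have h6 := lemC2 f hS hn ha hw' hloop (by
      rw [edges_append, h2]; exact Set.union_subset h1 h4)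
    have h7 : ev f (ss (lst x w) ++ tt (lst x w)) ^ n =
        ev f (ss (lst x w)) * (ev f (tt (lst x w)) * ev f (ss (lst x w))) ^ (n - 1) *
          ev f (tt (lst x w)) := by
      have : n = (n - 1) + 1 := by omega
      conv_lhs => rw [this, ev_append, rot_pow]
    have h8 : ∀ k : ℕ, r0 * (ev f (tt (lst x w)) * ev f (ss (lst x w))) ^ k = r0 := by
      intro k
      induction k with
      | zero => simp
      | succ k ih => rw [pow_succ, ← mul_assoc, ih, ← mul_assoc, h3]
    obtain ⟨P, hP⟩ := shift f hS hn ha (b := w ++ ss (lst x w)) (by rw [lst_append, h2])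
    rw [ev_append, ← hr0, ← mul_assoc] at hP
    rw [← hr0, h7] at h6
    calc _ = P * (r0 * (ev f (tt (lst x w)) * ev f (ss (lst x w))) ^ (n - 1)) *
          ev f (tt (lst x w)) := by rw [h8, hP]
      _ = r0 * ev f w * ev f (ss (lst x w)) *
          (ev f (tt (lst x w)) * ev f (ss (lst x w))) ^ (n - 1) * ev f (tt (lst x w)) := by
          rw [hP]; simp only [mul_assoc]
      _ = r0 * ev f w := by
          conv_rhs => rw [← h6]
          simp only [mul_assoc]
  -- the weights
  let P : ℕ → ℕ → Gq f hS hn ha := fun y z =>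
    if h : FreeMonoid.ofList (tt y ++ z :: ss z) ∈ Lp x (edges x a) then
      ((⟨_, h⟩ : Lp x (edges x a)) : Gq f hS hn ha) else 1
  have key : ∀ w, edges x w ⊆ edges x a → ∃ ℓ : Lp x (edges x a),
      (ℓ : Gq f hS hn ha) = wt P x w ∧
      r0 * ev f w = r0 * ev f ℓ.1.toList * ev f (tt (lst x w)) := by
    intro w
    induction w using List.reverseRecOn with
    | nil =>
      intro _
      refine ⟨1, by simp, ?_⟩
      rw [lst_nil, htx x rfl]
      simp
    | append_singleton w z ih =>
      intro hwz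
      rw [edges_append] at hwz
      have hw' : edges x w ⊆ edges x a := Set.subset_union_left.trans hwz
      obtain ⟨ℓ, h1, h2⟩ := ih hw'
      have hexy : ∃ w', edges x w' ⊆ edges x a ∧ lst x w' = lst x w := ⟨w, hw', rfl⟩
      have hexz : ∃ w', edges x w' ⊆ edges x a ∧ lst x w' = z :=
        ⟨w ++ [z], by rw [edges_append]; exact hwz, by simp⟩
      obtain ⟨h3, h4, h5⟩ := hss _ hexz
      obtain ⟨h6, h7⟩ := hty _ hexy
      have hmem : FreeMonoid.ofList (tt (lst x w) ++ z :: ss z) ∈ Lp x (edges x a) := by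
        refine ⟨?_, ?_⟩
        · rw [FreeMonoid.toList_ofList, lst_append, lst_cons, h4]
        · rw [FreeMonoid.toList_ofList, edges_append, h7, edges_cons]
          refine Set.union_subset h6 (Set.insert_subset ?_ h3)
          exact hwz (Or.inr (by simp))
      refine ⟨ℓ * ⟨_, hmem⟩, ?_, ?_⟩
      · rw [Con.coe_mul, h1, wt_append, wt_cons, wt_nil, mul_one]
        simp only [P, dif_pos hmem]
      · have h8 := hD (w ++ [z]) (by rw [edges_append]; exact hwz)
        rw [← h8]
        rw [Submonoid.coe_mul, FreeMonoid.toList_mul, FreeMonoid.toList_ofList]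
        simp only [ev_append, lst_append, lst_cons, lst_nil, ev_cons, ev_nil, mul_one]
        rw [← mul_assoc r0 (ev f w), h2]
        simp only [mul_assoc]
  obtain ⟨ℓ, h1, h2⟩ := key t (by rw [haE])
  obtain ⟨ℓ', h1', h2'⟩ := key t' (by rw [haE, hE])
  have h3 := hw (Gq f hS hn ha) (Gq_pow f hS hn ha) P
  rw [← h1, ← h1', Gq_eq] at h3
  rw [← hat, ← hat', h2, h2', hl, h3]

end Pool.Agent.RSCovers
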