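import Pool.Agent.RSCovers.Base

set_option autoImplicit false

namespace Pool.Agent.RSCovers

/-- The invariants of a word (with given first letter): last letter, adjacent pairs and weights in
groups of exponent `n`. -/
structure Inv (n : ℕ) (x : ℕ) (t t' : List ℕ) : Prop where
  last : lst x t = lst x t'
  edg : edges x t = edges x t'
  wts : ∀ (G : Type) [Group G], (∀ g : G, g ^ n = 1) → ∀ P : ℕ → ℕ → G, wt P x t = wt P x t'

theorem Inv.symm {n : ℕ} {x : ℕ} {t t' : List ℕ} (h : Inv n x t t') : Inv n x t' t :=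
  ⟨h.last.symm, h.edg.symm, fun G _ hG P => (h.wts G hG P).symm⟩

theorem wt_congr {G : Type} [Monoid G] {P P' : ℕ → ℕ → G} {x : ℕ} {t : List ℕ}
    (h : ∀ a b, (a, b) ∈ edges x t → P a b = P' a b) : wt P x t = wt P' x t := by
  induction t generalizing x with
  | nil => rfl
  | cons c t ih =>
    rw [wt_cons, wt_cons, h x c (by simp), ih (fun a b hab => h a b (by simp [hab]))]

theorem wt_one {G : Type} [Monoid G] {P : ℕ → ℕ → G} {x : ℕ} {t : List ℕ}
    (h : ∀ a b, (a, b) ∈ edges x t → P a b = 1) : wt P x t = 1 := by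
  induction t generalizing x with
  | nil => rfl
  | cons c t ih =>
    rw [wt_cons, h x c (by simp), ih (fun a b hab => h a b (by simp [hab])), one_mul]

/-- A walk that starts in the second block stays there. -/
theorem stay {x y : ℕ} {t1 t2 : List ℕ} (hdis : ∀ q ∈ x :: t1, q ∉ y :: t2) (v : ℕ)
    (hv : v ∈ y :: t2) (s : List ℕ)
    (hs : edges v s ⊆ edges x t1 ∪ insert (lst x t1, y) (edges y t2)) :
    edges v s ⊆ edges y t2 := by
  induction s generalizing v with
  | nil => simp
  | cons c s ih =>
    rw [edges_cons] at hs ⊢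
    have h1 : (v, c) ∈ edges y t2 := by
      rcases hs (Set.mem_insert _ _) with h | h
      · exact absurd hv (hdis v (edges_mem h).1)
      · rcases Set.mem_insert_iff.1 h with h | h
        · rw [Prod.mk.injEq] at h
          exact absurd hv (hdis v (h.1 ▸ lst_mem x t1))
        · exact h
    exact Set.insert_subset h1 (ih c (List.mem_cons_of_mem _ (edges_mem h1).2)
      ((Set.subset_insert _ _).trans hs))

/-- A walk from the first block to the second block splits at the only bridge. -/
theorem splits {x y : ℕ} {t1 t2 : List ℕ} (hdis : ∀ q ∈ x :: t1, q ∉ y :: t2) (v : ℕ)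
    (hv : v ∈ x :: t1) (s : List ℕ)
    (hs : edges v s ⊆ edges x t1 ∪ insert (lst x t1, y) (edges y t2))
    (hl : lst v s ∈ y :: t2) :
    ∃ s1 s2, s = s1 ++ y :: s2 ∧ lst v s1 = lst x t1 ∧ edges v s1 ⊆ edges x t1 ∧
      edges y s2 ⊆ edges y t2 := by
  induction s generalizing v with
  | nil => exact absurd hl (hdis v hv)
  | cons c s ih =>
    rw [edges_cons] at hs
    have hs' := (Set.subset_insert _ _).trans hs
    rcases hs (Set.mem_insert _ _) with h | h
    · obtain ⟨s1, s2, h1, h2, h3, h4⟩ := ih c (List.mem_cons_of_mem _ (edges_mem h).2) hs' hl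
      exact ⟨c :: s1, s2, by rw [h1]; rfl, h2, Set.insert_subset h h3, h4⟩
    · rcases Set.mem_insert_iff.1 h with h | h
      · rw [Prod.mk.injEq] at h
        obtain ⟨h1, rfl⟩ := h
        exact ⟨[], s, rfl, h1, by simp, stay hdis c List.mem_cons_self s hs'⟩
      · exact absurd (edges_mem h).1 (hdis v hv)

open Classical in
theorem red {S : Type} [Semigroup S] (f : ℕ → S) {n : ℕ} {x : ℕ} {t t' : List ℕ}
    (hirr : ¬ Irred x t) (h : Inv n x t t')
    (IH : ∀ (y : ℕ) (s s' : List ℕ), s.length + s'.length < t.length + t'.length →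
      Inv n y s s' → (f y : WithOne S) * ev f s = f y * ev f s') :
    (f x : WithOne S) * ev f t = f x * ev f t' := by
  unfold Irred at hirr
  push Not at hirr
  obtain ⟨t1, t2, rfl, hne, hdis⟩ := hirr
  obtain ⟨y, t2, rfl⟩ := List.exists_cons_of_ne_nil hne
  have hdis' : ∀ q, q ∈ y :: t2 → q ∉ x :: t1 := fun q h1 h2 => hdis q h2 h1
  have hE : edges x (t1 ++ y :: t2) = edges x t1 ∪ insert (lst x t1, y) (edges y t2) := by
    simp
  have hl : lst x t' ∈ y :: t2 := by
    rw [← h.last, lst_append, lst_cons]; exact lst_mem y t2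
  have hsub : edges x t' ⊆ edges x t1 ∪ insert (lst x t1, y) (edges y t2) := by
    rw [← hE, h.edg]
  obtain ⟨s1, s2, rfl, h1, h2, h3⟩ := splits hdis x List.mem_cons_self t' hsub hl
  have hE' : edges x (s1 ++ y :: s2) = edges x s1 ∪ insert (lst x t1, y) (edges y s2) := by
    simp [h1]
  have hEE := h.edg
  rw [hE, hE'] at hEE
  have e1 : edges x t1 = edges x s1 := by
    refine Set.Subset.antisymm ?_ h2
    rintro ⟨a, b⟩ he
    rcases (hEE ▸ Or.inl he : (a, b) ∈ edges x s1 ∪ insert (lst x t1, y) (edges y s2)) with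
      h | h
    · exact h
    · rcases Set.mem_insert_iff.1 h with h | h
      · rw [Prod.mk.injEq] at h
        have := (edges_mem he).2
        rw [h.2] at this
        exact absurd List.mem_cons_self (hdis y (List.mem_cons_of_mem _ this))
      · exact absurd (edges_mem (h3 h)).1 (hdis a (edges_mem he).1)
  have e2 : edges y t2 = edges y s2 := by
    refine Set.Subset.antisymm ?_ h3
    rintro ⟨a, b⟩ he
    rcases (hEE ▸ Or.inr (Or.inr he) : (a, b) ∈ edges x s1 ∪
      insert (lst x t1, y) (edges y s2)) with h | h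
    · exact absurd (edges_mem he).1 (hdis a (edges_mem (h2 h)).1)
    · rcases Set.mem_insert_iff.1 h with h | h
      · rw [Prod.mk.injEq] at h
        have := (edges_mem he).1
        rw [h.1] at this
        exact absurd this (hdis _ (lst_mem x t1))
      · exact h
  have e3 : lst y t2 = lst y s2 := by
    have := h.last
    simpa using this
  have i1 : Inv n x t1 s1 := by
    refine ⟨h1.symm, e1, fun G _ hG P => ?_⟩
    have hw := h.wts G hG (fun a b => if a ∈ x :: t1 ∧ b ∈ x :: t1 then P a b else 1)
    have c1 : ∀ s, edges x s ⊆ edges x t1 →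
        wt (fun a b => if a ∈ x :: t1 ∧ b ∈ x :: t1 then P a b else 1) x s = wt P x s := by
      intro s hs
      refine wt_congr fun a b hab => ?_
      have := edges_mem (hs hab)
      exact if_pos ⟨this.1, List.mem_cons_of_mem _ this.2⟩
    have c2 : ∀ s, edges y s ⊆ edges y t2 →
        wt (fun a b => if a ∈ x :: t1 ∧ b ∈ x :: t1 then P a b else 1) y s = 1 := by
      intro s hs
      refine wt_one fun a b hab => ?_
      have := edges_mem (hs hab)
      exact if_neg fun h => hdis' a this.1 h.1
    rw [wt_append, wt_append, wt_cons, wt_cons, c1 _ (le_refl _), c1 _ h2, c2 _ (le_refl _),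
      c2 _ h3, h1] at hw
    have c3 : ¬ (lst x t1 ∈ x :: t1 ∧ y ∈ x :: t1) := fun h => hdis y h.2 List.mem_cons_self
    simp only [if_neg c3, mul_one] at hw
    exact hw
  have i2 : Inv n y t2 s2 := by
    refine ⟨e3, e2, fun G _ hG P => ?_⟩
    have hw := h.wts G hG (fun a b => if a ∈ y :: t2 ∧ b ∈ y :: t2 then P a b else 1)
    have c1 : ∀ s, edges x s ⊆ edges x t1 →
        wt (fun a b => if a ∈ y :: t2 ∧ b ∈ y :: t2 then P a b else 1) x s = 1 := by
      intro s hs
      refine wt_one fun a b hab => ?_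
      have := edges_mem (hs hab)
      exact if_neg fun h => hdis a this.1 h.1
    have c2 : ∀ s, edges y s ⊆ edges y t2 →
        wt (fun a b => if a ∈ y :: t2 ∧ b ∈ y :: t2 then P a b else 1) y s = wt P y s := by
      intro s hs
      refine wt_congr fun a b hab => ?_
      have := edges_mem (hs hab)
      exact if_pos ⟨this.1, List.mem_cons_of_mem _ this.2⟩
    rw [wt_append, wt_append, wt_cons, wt_cons, c1 _ (le_refl _), c1 _ h2, c2 _ (le_refl _),
      c2 _ h3, h1] at hw
    have c3 : ¬ (lst x t1 ∈ y :: t2 ∧ y ∈ y :: t2) := fun h => hdis _ (lst_mem x t1) h.1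
    simp only [if_neg c3, one_mul] at hw
    exact hw
  have j1 := IH x t1 s1 (by simp; omega) i1
  have j2 := IH y t2 s2 (by simp; omega) i2
  rw [ev_append, ev_append, ev_cons, ev_cons, ← mul_assoc, j1, j2, mul_assoc]

theorem basis {S : Type} [Semigroup S] (f : ℕ → S) {n : ℕ} (hS : Sys n S) (hn : 1 ≤ n)
    (N : ℕ) : ∀ (x : ℕ) (t t' : List ℕ), t.length + t'.length < N → Inv n x t t' →
    (f x : WithOne S) * ev f t = f x * ev f t' := by
  induction N with
  | zero => intro x t t' h; omega
  | succ N ih =>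
    intro x t t' hlen h
    by_cases h1 : Irred x t
    · by_cases h2 : Irred x t'
      · exact base f hS hn h1 h2 h.edg h.last h.wts
      · exact (red f h2 h.symm (fun y s s' hs => ih y s s' (by omega))).symm
    · exact red f h1 h (fun y s s' hs => ih y s s' (by omega))

theorem holds_of_inv {S : Type} [Semigroup S] {n : ℕ} (hS : Sys n S) (hn : 1 ≤ n)
    (u v : Word) (hh : u.head = v.head) (h : Inv n u.head u.tail v.tail) : Holds S u v := by
  rw [holds_iff]
  intro f
  rw [ev_cons, ev_cons, ← hh]
  exact basis f hS hn _ _ _ _ (Nat.lt_succ_self _) h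

end Pool.Agent.RSCovers
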