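import Pool.Agent.RSCovers.Words

set_option autoImplicit false

namespace Pool.Agent.RSCovers

/-! ## Monoids with `a ^ (n+1) = a` and central `n`-th powers -/

/-- A monoid with `a ^ (n+1) = a` and central `n`-th powers. -/
structure Cliff (n : ℕ) (Q : Type) [Monoid Q] : Prop where
  pw : ∀ a : Q, a ^ (n + 1) = a
  cen : ∀ a b : Q, a * b ^ n = b ^ n * a

namespace Cliff

variable {n : ℕ} {Q : Type} [Monoid Q] (C : Cliff n Q) (hn : 1 ≤ n)
include C

theorem mul_pow_n (a : Q) : a * a ^ n = a := by rw [← pow_succ', C.pw]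

theorem pow_n_mul (a : Q) : a ^ n * a = a := by rw [← pow_succ, C.pw]

theorem pow_mul_pow_n (a : Q) (k : ℕ) (hk : 1 ≤ k) : a ^ k * a ^ n = a ^ k := by
  obtain ⟨k, rfl⟩ := Nat.exists_eq_add_of_le' hk
  rw [pow_succ, mul_assoc, C.mul_pow_n]

include hn in
theorem idem (a : Q) : a ^ n * a ^ n = a ^ n := C.pow_mul_pow_n a n hn

include hn in
theorem idem_pow (a : Q) (k : ℕ) (hk : 1 ≤ k) : (a ^ n) ^ k = a ^ n := by
  obtain ⟨k, rfl⟩ := Nat.exists_eq_add_of_le' hk
  induction k with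
  | zero => simp
  | succ k ih => rw [pow_succ, ih (by omega), C.idem hn]

include hn in
theorem mul_pow_eq (a b : Q) : (a * b) ^ n = a ^ n * b ^ n := by
  have h1 : (a * b) ^ n * (a ^ n * b ^ n) = (a * b) ^ n := by
    obtain ⟨m, rfl⟩ := Nat.exists_eq_add_of_le' hn
    have : a * b * (a ^ (m + 1) * b ^ (m + 1)) = a * b := by
      calc a * b * (a ^ (m + 1) * b ^ (m + 1)) = a * (b * a ^ (m + 1)) * b ^ (m + 1) := by
            simp only [mul_assoc]
        _ = (a * a ^ (m + 1)) * (b * b ^ (m + 1)) := by rw [C.cen b a]; simp only [mul_assoc]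
        _ = a * b := by rw [C.mul_pow_n, C.mul_pow_n]
    rw [pow_succ (a * b), mul_assoc, this]
  have h2 : (a * b) ^ n * (a ^ n * b ^ n) = a ^ n * b ^ n := by
    obtain ⟨m, rfl⟩ := Nat.exists_eq_add_of_le' hn
    have e1 : a ^ (m + 1) * b ^ (m + 1) = a ^ m * ((a * b) * b ^ m) := by
      rw [pow_succ a, pow_succ' b]; simp only [mul_assoc]
    rw [e1, ← mul_assoc, ← C.cen, mul_assoc, ← mul_assoc ((a * b) ^ (m + 1)), C.pow_n_mul]
  rw [← h1, h2]

include hn in
/-- (F1) -/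
theorem F1 (l r l' : Q) (k : ℕ) (hk : 1 ≤ k) : l * r ^ k * l' * r ^ n = l * r ^ k * l' := by
  rw [mul_assoc (l * r ^ k), C.cen l' r, ← mul_assoc, mul_assoc l, C.pow_mul_pow_n r k hk]

/-- (F2) -/
theorem F2 (a l s : Q) (h : a ^ n * l * s = a ^ n) : a ^ n * l ^ n = a ^ n := by
  calc a ^ n * l ^ n = a ^ n * l * s * l ^ n := by rw [h]
    _ = a ^ n * (l * l ^ n) * s := by rw [mul_assoc _ s, C.cen s l]; simp only [mul_assoc]
    _ = a ^ n := by rw [C.mul_pow_n, h]

include hn in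
/-- (F3) -/
theorem F3 (l s : Q) : (l * s) ^ n * l ^ n = (l * s) ^ n := by
  rw [C.mul_pow_eq hn, mul_assoc, C.cen (s ^ n) l, ← mul_assoc, C.idem hn]

include hn in
/-- (F4) -/
theorem F4 (r l m : Q) (k : ℕ) (hk : 1 ≤ k) :
    (r * l) ^ n * l ^ k * m * r = l ^ k * m * r := by
  calc (r * l) ^ n * l ^ k * m * r = r ^ n * (l ^ n * l ^ k) * m * r := by
        rw [C.mul_pow_eq hn]; simp only [mul_assoc]
    _ = r ^ n * l ^ k * m * r := by rw [← C.cen (l ^ k) l, C.pow_mul_pow_n l k hk]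
    _ = l ^ k * m * (r ^ n * r) := by
        rw [← C.cen (l ^ k) r, mul_assoc (l ^ k), ← C.cen m r]; simp only [mul_assoc]
    _ = l ^ k * m * r := by rw [C.pow_n_mul]

end Cliff

/-! ## The identities -/

variable {S : Type} [Semigroup S]

/-- The identities (2) and (3) (and so also (1)) in a form in which `y` and `z` may be empty. -/
structure Sys (n : ℕ) (S : Type) [Semigroup S] : Prop where
  h2 : ∀ (x : S) (y : WithOne S), (x : WithOne S) * (y * x) ^ (n + 1) = x * (y * x)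
  h3 : ∀ (x : S) (y z : WithOne S),
    (x : WithOne S) * (y * x) * (z * x) ^ n = x * (z * x) ^ n * (y * x)

/-- The elements of `WithOne S` which are `1` or end in `x`. -/
def Np (x : S) : Submonoid (WithOne S) where
  carrier := {a | a = 1 ∨ ∃ m, a = m * x}
  one_mem' := Or.inl rfl
  mul_mem' := by
    rintro a b (rfl | ⟨m, rfl⟩) (rfl | ⟨m', rfl⟩)
    · left; simp
    · right; exact ⟨m', by simp⟩
    · right; exact ⟨m, by simp⟩
    · right; exact ⟨m * x * m', by simp only [mul_assoc]⟩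

theorem mem_Np {x : S} {a : WithOne S} : a ∈ Np x ↔ a = 1 ∨ ∃ m, a = m * x := Iff.rfl

/-- Moving a prefix that ends in `x` over an element of `Np x`. -/
theorem end_mul {x : S} {c : WithOne S} (hc : c ∈ Np x) :
    ∃ P : WithOne S, (x : WithOne S) * c = P * x := by
  rcases hc with rfl | ⟨m, rfl⟩
  · exact ⟨1, by simp⟩
  · exact ⟨x * m, by simp only [mul_assoc]⟩

/-- The congruence `x * a = x * b` on `Np x`. -/
def cong (x : S) : Con (Np x) where
  r a b := (x : WithOne S) * a = x * b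
  iseqv := ⟨fun _ => rfl, fun h => h.symm, fun h h' => h.trans h'⟩
  mul' := by
    intro a b c d hab hcd
    show (x : WithOne S) * (a * c) = x * (b * d)
    rw [← mul_assoc, hab, mul_assoc]
    rcases b.2 with hb | ⟨m, hb⟩
    · rw [hb]; simpa using hcd
    · rw [hb]
      calc (x : WithOne S) * (m * x * c) = x * m * (x * c) := by simp only [mul_assoc]
        _ = x * m * (x * d) := by rw [hcd]
        _ = x * (m * x * d) := by simp only [mul_assoc]

/-- The quotient monoid. -/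
abbrev Qx (x : S) : Type := (cong x).Quotient

theorem Qx_eq {x : S} {a b : Np x} : (a : Qx x) = b ↔ (x : WithOne S) * a = x * b :=
  (cong x).eq

theorem Qx_pow {x : S} (a : Np x) (k : ℕ) : ((a ^ k : Np x) : Qx x) = (a : Qx x) ^ k :=
  map_pow (cong x).mk' a k

theorem cliff_Qx {n : ℕ} (hS : Sys n S) (hn : 1 ≤ n) (x : S) : Cliff n (Qx x) where
  pw a := by
    induction a using Con.induction_on with
    | _ a =>
    rw [← Qx_pow, Qx_eq, SubmonoidClass.coe_pow]
    rcases a.2 with ha | ⟨m, ha⟩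
    · rw [ha]; simp
    · rw [ha, hS.h2]
  cen a b := by
    induction a using Con.induction_on with
    | _ a =>
    induction b using Con.induction_on with
    | _ b =>
    rw [← Qx_pow, ← Con.coe_mul, ← Con.coe_mul, Qx_eq]
    push_cast
    rcases a.2 with ha | ⟨m, ha⟩
    · rw [ha]; simp
    · rcases b.2 with hb | ⟨m', hb⟩
      · rw [hb]; simp
      · rw [ha, hb, ← mul_assoc, hS.h3, mul_assoc]

/-! ## The facts transferred to `WithOne S` -/

section transfer

variable {n : ℕ} (hS : Sys n S) (hn : 1 ≤ n) {x : S}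
include hS hn

theorem T1 {l r l' : WithOne S} (hl : l ∈ Np x) (hr : r ∈ Np x) (hl' : l' ∈ Np x) {k : ℕ}
    (hk : 1 ≤ k) : (x : WithOne S) * (l * r ^ k * l' * r ^ n) = x * (l * r ^ k * l') := by
  have := (cliff_Qx hS hn x).F1 hn (⟨l, hl⟩ : Np x) (⟨r, hr⟩ : Np x) (⟨l', hl'⟩ : Np x) k hk
  simpa only [← Qx_pow, ← Con.coe_mul, Qx_eq, Submonoid.coe_mul,
    SubmonoidClass.coe_pow] using this

theorem T2 {a l s : WithOne S} (ha : a ∈ Np x) (hl : l ∈ Np x) (hs : s ∈ Np x)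
    (h : (x : WithOne S) * (a ^ n * l * s) = x * a ^ n) :
    (x : WithOne S) * (a ^ n * l ^ n) = x * a ^ n := by
  have := (cliff_Qx hS hn x).F2 (⟨a, ha⟩ : Np x) (⟨l, hl⟩ : Np x) (⟨s, hs⟩ : Np x)
  simp only [← Qx_pow, ← Con.coe_mul, Qx_eq, Submonoid.coe_mul,
    SubmonoidClass.coe_pow] at this
  exact this h

theorem T3 {l s : WithOne S} (hl : l ∈ Np x) (hs : s ∈ Np x) :
    (x : WithOne S) * ((l * s) ^ n * l ^ n) = x * (l * s) ^ n := by
  have := (cliff_Qx hS hn x).F3 hn (⟨l, hl⟩ : Np x) (⟨s, hs⟩ : Np x)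
  simpa only [← Qx_pow, ← Con.coe_mul, Qx_eq, Submonoid.coe_mul,
    SubmonoidClass.coe_pow] using this

theorem T4 {r l m : WithOne S} (hr : r ∈ Np x) (hl : l ∈ Np x) (hm : m ∈ Np x) {k : ℕ}
    (hk : 1 ≤ k) : (x : WithOne S) * ((r * l) ^ n * l ^ k * m * r) = x * (l ^ k * m * r) := by
  have := (cliff_Qx hS hn x).F4 hn (⟨r, hr⟩ : Np x) (⟨l, hl⟩ : Np x) (⟨m, hm⟩ : Np x) k hk
  simpa only [← Qx_pow, ← Con.coe_mul, Qx_eq, Submonoid.coe_mul,
    SubmonoidClass.coe_pow] using this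

theorem T5 {a c : WithOne S} (ha : a ∈ Np x) (hc : c ∈ Np x) :
    (x : WithOne S) * (c * a ^ n) = x * (a ^ n * c) := by
  have := (cliff_Qx hS hn x).cen (⟨c, hc⟩ : Np x) (⟨a, ha⟩ : Np x)
  simpa only [← Qx_pow, ← Con.coe_mul, Qx_eq, Submonoid.coe_mul,
    SubmonoidClass.coe_pow] using this

theorem T6 {a : WithOne S} (ha : a ∈ Np x) {k : ℕ} (hk : 1 ≤ k) :
    (x : WithOne S) * (a ^ k * a ^ n) = x * a ^ k := by
  have := (cliff_Qx hS hn x).pow_mul_pow_n (⟨a, ha⟩ : Np x) k hk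
  simpa only [← Qx_pow, ← Con.coe_mul, Qx_eq, Submonoid.coe_mul,
    SubmonoidClass.coe_pow] using this

end transfer

end Pool.Agent.RSCovers
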