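import Pool.Agent.RSCovers.Exs2

set_option autoImplicit false

namespace Pool.Agent.RSCovers

/-! ## Cyclic groups -/

theorem lift_monoid {M : Type} [Monoid M] (f : ℕ → M) (w : Word) :
    FreeSemigroup.lift f w = ((toL w).map f).prod := by
  induction w using FreeSemigroup.recOnMul with
  | ih1 a => simp
  | ih2 a b ih1 ih2 => rw [map_mul, ih1, ih2, toL_mul, List.map_append, List.prod_append]

theorem prod_lpow {M : Type} [Monoid M] (f : ℕ → M) (l : List ℕ) (k : ℕ) :
    ((lpow l k).map f).prod = (l.map f).prod ^ k := by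
  induction k with
  | zero => simp
  | succ k ih => rw [lpow_succ, List.map_append, List.prod_append, ih, pow_succ']

theorem holds_of_count {M : Type} [CommMonoid M] {q : ℕ} (hM : ∀ g : M, g ^ q = 1) {u v : Word}
    (h : ∀ y, (toL u).count y ≡ (toL v).count y [MOD q]) : Holds M u v := by
  intro f
  rw [lift_monoid, lift_monoid, Finset.prod_list_map_count, Finset.prod_list_map_count]
  have e1 : ∏ m ∈ (toL u).toFinset, f m ^ (toL u).count m =
      ∏ m ∈ (toL u).toFinset ∪ (toL v).toFinset, f m ^ (toL u).count m := by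
    apply Finset.prod_subset Finset.subset_union_left
    intro x _ hx
    rw [List.mem_toFinset] at hx
    rw [List.count_eq_zero_of_not_mem hx, pow_zero]
  have e2 : ∏ m ∈ (toL v).toFinset, f m ^ (toL v).count m =
      ∏ m ∈ (toL u).toFinset ∪ (toL v).toFinset, f m ^ (toL v).count m := by
    apply Finset.prod_subset Finset.subset_union_right
    intro x _ hx
    rw [List.mem_toFinset] at hx
    rw [List.count_eq_zero_of_not_mem hx, pow_zero]
  rw [e1, e2]
  refine Finset.prod_congr rfl fun m _ => ?_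
  rw [pow_eq_pow_mod _ (hM (f m)), h m, ← pow_eq_pow_mod _ (hM (f m))]

theorem pow_card_zmod {q : ℕ} (g : Multiplicative (ZMod q)) : g ^ q = 1 := by
  apply Multiplicative.toAdd.injective
  rw [toAdd_pow, toAdd_one, nsmul_eq_mul, ZMod.natCast_self, zero_mul]

theorem pow'_monoid {M : Type} [Monoid M] (x : M) (k : ℕ) : pow' x k = x ^ (k + 1) := by
  induction k with
  | zero => simp [pow']
  | succ k ih => rw [pow', ih, ← pow_succ]

theorem cyc_sq {q N : ℕ} : SqIdentity N (Multiplicative (ZMod q)) ↔ q ∣ N := by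
  constructor
  · intro h
    have h1 := h (Multiplicative.ofAdd (1 : ZMod q))
    rw [pow'_monoid, show N + 1 + 1 = N + 2 by ring, pow_add, ← pow_two] at h1
    have h2 : Multiplicative.ofAdd (1 : ZMod q) ^ N = 1 := by
      have : (1 : Multiplicative (ZMod q)) * Multiplicative.ofAdd (1 : ZMod q) ^ 2 =
        Multiplicative.ofAdd (1 : ZMod q) ^ N * Multiplicative.ofAdd (1 : ZMod q) ^ 2 := by
        rw [one_mul]; exact h1
      exact (mul_right_cancel this).symm
    have h3 := congrArg Multiplicative.toAdd h2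
    rw [toAdd_pow, toAdd_one, nsmul_eq_mul, toAdd_ofAdd, mul_one] at h3
    exact (ZMod.natCast_eq_zero_iff N q).1 h3
  · rintro ⟨c, rfl⟩ x
    rw [pow'_monoid, show q * c + 1 + 1 = q * c + 2 by ring, pow_add, pow_mul, pow_card_zmod,
      one_pow, one_mul, pow_two]

theorem cyc_holds2 {M : Type} [CommGroup M] {N : ℕ} (hM : ∀ g : M, g ^ N = 1) :
    Holds M A2 (B2 N) := by
  intro f
  rw [lift_monoid, lift_monoid]
  simp [A2, B2, toL, prod_lpow, hM]

theorem cyc_holds3 {M : Type} [CommGroup M] {N : ℕ} (hM : ∀ g : M, g ^ N = 1) :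
    Holds M (A3 N) (B3 N) := by
  intro f
  rw [lift_monoid, lift_monoid]
  simp [A3, B3, toL, prod_lpow, hM]

theorem cyc_pow {q N : ℕ} (h : q ∣ N) (g : Multiplicative (ZMod q)) : g ^ N = 1 := by
  obtain ⟨c, rfl⟩ := h
  rw [pow_mul, pow_card_zmod, one_pow]

theorem ev_count {S : Type} [Semigroup S] (s : S) (y g : ℕ) (hg : 1 ≤ g) (l : List ℕ) :
    ev (fun a => if a = y then s else pow' s (g - 1)) l =
      (s : WithOne S) ^ (l.count y + g * (l.filter (· ≠ y)).length) := by
  induction l with
  | nil => simp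
  | cons a l ih =>
    rw [ev_cons, ih]
    by_cases h : a = y
    · subst h
      simp only [if_true, List.count_cons_self]
      rw [List.filter_cons_of_neg (by simp), ← pow_succ']
      congr 1
      ring
    · simp only [if_neg h]
      rw [List.count_cons_of_ne h, List.filter_cons_of_pos (by simp [h]), coe_pow', ← pow_add,
        List.length_cons]
      congr 1
      obtain ⟨k, rfl⟩ := Nat.exists_eq_add_of_le' hg
      simp only [Nat.add_sub_cancel]
      ring

theorem cyc_dichotomy {n : ℕ} (hn : 1 ≤ n) {V : SgVariety} (hV : RS n ≤ V)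
    (hN : ¬ V.mem Nil3) (hL : V ∉ Ln n) :
    ∃ p k : ℕ, p.Prime ∧ p ^ k ∣ n ∧ ¬ p ^ (k + 1) ∣ n ∧
      V.mem (Multiplicative (ZMod (p ^ (k + 1)))) := by
  classical
  have hex := nil3_dichotomy hV hN
  set g := Nat.find hex with hg
  obtain ⟨hg1, hgs⟩ := Nat.find_spec hex
  rw [← hg] at hg1 hgs
  have hmin : ∀ r, r < g → 1 ≤ r → ¬ Sat V (B1 0) (B1 r) := by
    intro r hr h1 h2
    exact Nat.find_min hex hr ⟨h1, h2⟩
  have hgx : ∀ (S : Type) [Semigroup S], V.mem S → ∀ x : S,
      (x : WithOne S) ^ (g + 2) = x ^ 2 := by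
    intro S _ hS x
    exact ((holdsPow_iff.1 (hgs S hS)) x).symm
  have hng : n ∣ g := dvd_of_sat hn hV hgs
  have hgn : g ≠ n := by
    intro h
    rw [h, B1_zero] at hgs
    exact hL (mem_Ln_iff.2 hgs)
  -- the key fact, first for `i ≤ j`
  have key0 : ∀ i j : ℕ, i ≤ j → Sat V (B1 i) (B1 j) → i ≡ j [MOD g] := by
    intro i j hij h
    have h0 : Sat V (B1 0) (B1 ((j - i) % g)) := by
      intro S _ hS
      rw [holdsPow_iff]
      intro x
      have e1 := (holdsPow_iff.1 (h S hS)) x
      have e2 := hgx S hS x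
      have hc : i ≤ g * i := Nat.le_mul_of_pos_left i hg1
      have e3 : (x : WithOne S) ^ (i + 2) * x ^ (g * i - i) =
          x ^ (j + 2) * x ^ (g * i - i) := by rw [e1]
      rw [← pow_add, ← pow_add, show i + 2 + (g * i - i) = 2 + g * i by omega,
        show j + 2 + (g * i - i) = (j - i + 2) + g * i by omega, pow_mod e2 2 (le_refl _),
        pow_mod e2 _ (by omega)] at e3
      have e4 : j - i + 2 = ((j - i) % g + 2) + g * ((j - i) / g) := by
        have := Nat.mod_add_div (j - i) g
        omega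
      rw [e4, pow_mod e2 _ (by omega)] at e3
      exact e3
    have h1 : (j - i) % g = 0 := by
      by_contra hne
      exact hmin _ (Nat.mod_lt _ hg1) (by omega) h0
    exact (Nat.modEq_iff_dvd' hij).2 (Nat.dvd_of_mod_eq_zero h1)
  have key : ∀ i j : ℕ, Sat V (B1 i) (B1 j) → i ≡ j [MOD g] := by
    intro i j h
    rcases le_total i j with hij | hij
    · exact key0 i j hij h
    · exact (key0 j i hij (fun S _ hS => (h S hS).symm)).symm
  -- the prime
  obtain ⟨h, hh⟩ := hng
  have hh1 : h ≠ 1 := by rintro rfl; exact hgn (by rw [hh, mul_one])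
  obtain ⟨p, hp, hph⟩ := Nat.exists_prime_and_dvd hh1
  have hn0 : n ≠ 0 := by omega
  refine ⟨p, n.factorization p, hp, Nat.ordProj_dvd n p,
    Nat.pow_succ_factorization_not_dvd hn0 hp, ?_⟩
  have hq : p ^ (n.factorization p + 1) ∣ g := by
    rw [hh, pow_succ]
    exact mul_dvd_mul (Nat.ordProj_dvd n p) hph
  rw [mem_iff]
  intro u v huv
  refine holds_of_count pow_card_zmod fun y => ?_
  have h1 : Sat V (B1 ((toL u).count y + g * ((toL u).filter (· ≠ y)).length))
      (B1 ((toL v).count y + g * ((toL v).filter (· ≠ y)).length)) := by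
    intro S _ hS
    rw [holdsPow_iff]
    intro s
    have := (holds_iff S _ _).1 (huv S hS) (fun a => if a = y then s else pow' s (g - 1))
    have h2 := ev_count s y g hg1 (toL u)
    have h3 := ev_count s y g hg1 (toL v)
    change ev _ (toL u) = ev _ (toL v) at this
    rw [h2, h3] at this
    generalize (toL u).count y + g * ((toL u).filter (· ≠ y)).length = A at this ⊢
    generalize (toL v).count y + g * ((toL v).filter (· ≠ y)).length = B at this ⊢
    rw [pow_add, pow_add, this]
  have h2 := key _ _ h1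
  have h3 : (toL u).count y ≡ (toL v).count y [MOD g] := by
    unfold Nat.ModEq at h2 ⊢
    rwa [Nat.add_mul_mod_self_left, Nat.add_mul_mod_self_left] at h2
  exact h3.of_dvd hq

/-- Changing the exponent from `n` to a multiple. -/
theorem Sys.pow_eq {n : ℕ} {S : Type} [Semigroup S] (hn : 1 ≤ n)
    (h2 : ∀ (x : S) (y : WithOne S), (x : WithOne S) * (y * x) ^ (n + 1) = x * (y * x))
    (x : S) (y : WithOne S) (k : ℕ) : (x : WithOne S) * (y * x) ^ (n * k + 1) = x * (y * x) ∧
      (x : WithOne S) * (y * x) ^ (n * (k + 1)) = x * (y * x) ^ n := by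
  have e1 : ∀ k, (x : WithOne S) * (y * x) ^ (n * k + 1) = x * (y * x) := by
    intro k
    induction k with
    | zero => simp
    | succ k ih =>
      rw [show n * (k + 1) + 1 = (n + 1) + n * k by ring, pow_add, ← mul_assoc, h2, mul_assoc,
        ← pow_succ', ih]
  refine ⟨e1 k, ?_⟩
  obtain ⟨m, rfl⟩ := Nat.exists_eq_add_of_le' hn
  rw [show (m + 1) * (k + 1) = ((m + 1) * k + 1) + m by ring, pow_add, ← mul_assoc, e1,
    mul_assoc, ← pow_succ']

theorem Sys.mul {n : ℕ} {S : Type} [Semigroup S] (hn : 1 ≤ n) (hS : Sys n S) (k : ℕ) :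
    Sys (n * (k + 1)) S where
  h2 x y := (Sys.pow_eq hn hS.h2 x y (k + 1)).1
  h3 x y z := by
    have e1 := (Sys.pow_eq hn hS.h2 x z k).2
    rw [e1, ← hS.h3 x y z]
    simp only [mul_assoc]
    rw [e1]

/-- From the identities with a multiple of the exponent and (1) to the identities. -/
theorem Sys.of_mul {n : ℕ} {S : Type} [Semigroup S] (hn : 1 ≤ n) {k : ℕ}
    (hS : Sys (n * (k + 1)) S) (h1 : SqIdentity n S) : Sys n S := by
  have h2 : ∀ (x : S) (y : WithOne S), (x : WithOne S) * (y * x) ^ (n + 1) = x * (y * x) := by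
    intro x y
    rw [← hS.h2 x y, show n * (k + 1) + 1 = (n + 1) + n * k by ring,
      pow_mod (sq_coe h1 _) _ (by omega)]
  refine ⟨h2, fun x y z => ?_⟩
  have e1 := (Sys.pow_eq hn h2 x z k).2
  have e2 := hS.h3 x y z
  rw [e1] at e2
  rw [← e2]
  simp only [mul_assoc]
  rw [e1]

end Pool.Agent.RSCovers
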