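import Mathlib

set_option autoImplicit false

namespace Pool.Agent.RSCovers

/-! ## Identities and varieties -/

/-- Semigroup words: nonempty words in the letters `0, 1, 2, …` (elements of the free
semigroup on countably many letters). -/
abbrev Word : Type := FreeSemigroup ℕ

/-- The semigroup `S` satisfies the identity `u ≈ v`: the two words take the same value under
every substitution of elements of `S` for the letters. -/
def Holds (S : Type) [Semigroup S] (u v : Word) : Prop :=
  ∀ f : ℕ → S, FreeSemigroup.lift f u = FreeSemigroup.lift f v

/-- A semigroup variety: a class of semigroups that is defined by a set of identities. -/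
structure SgVariety where
  /-- Which semigroups belong to the variety. -/
  mem : ∀ (S : Type) [Semigroup S], Prop
  /-- Membership is defined by a set of identities. -/
  defined : ∃ E : Set (Word × Word), ∀ (S : Type) [Semigroup S],
    mem S ↔ ∀ e ∈ E, Holds S e.1 e.2

/-- Varieties are ordered by inclusion. -/
instance : PartialOrder SgVariety where
  le V W := ∀ (S : Type) [Semigroup S], V.mem S → W.mem S
  le_refl V S _ h := h
  le_trans U V W h₁ h₂ S _ h := h₂ S (h₁ S h)
  le_antisymm V W h₁ h₂ := by
    obtain ⟨m, hm⟩ := V
    obtain ⟨m', hm'⟩ := W
    congr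
    funext S inst
    exact propext ⟨h₁ S, h₂ S⟩

/-- The variety generated by a class `K` of semigroups: all semigroups that satisfy every
identity satisfied by all members of `K` (the smallest class defined by identities that
contains `K`). -/
def generatedBy (K : ∀ (S : Type) [Semigroup S], Prop) : SgVariety where
  mem S _ := ∀ u v : Word, (∀ (T : Type) [Semigroup T], K T → Holds T u v) → Holds S u v
  defined := ⟨{e | ∀ (T : Type) [Semigroup T], K T → Holds T e.1 e.2}, fun S _ =>
    ⟨fun h e he => h e.1 e.2 he, fun h u v huv => h (u, v) huv⟩⟩

/-- The variety generated by one semigroup `T`. -/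
def generatedByOne (T : Type) [Semigroup T] : SgVariety where
  mem S _ := ∀ u v : Word, Holds T u v → Holds S u v
  defined := ⟨{e | Holds T e.1 e.2}, fun S _ =>
    ⟨fun h e he => h e.1 e.2 he, fun h u v huv => h (u, v) huv⟩⟩

/-- The join of two varieties: the variety generated by all their members. -/
def join (V W : SgVariety) : SgVariety :=
  generatedBy (fun S _ => V.mem S ∨ W.mem S)

/-! ## The Rees–Sushkevich variety -/

/-- `S` is 0-simple: it has a zero `z`, some product is not `z`, and the only (nonempty,
two-sided) ideals are `{z}` and `S`. -/
def IsZeroSimple (S : Type) [Semigroup S] : Prop :=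
  ∃ z : S, (∀ a : S, z * a = z ∧ a * z = z) ∧ (∃ a b : S, a * b ≠ z) ∧
    ∀ I : Set S, I.Nonempty → (∀ a ∈ I, ∀ s : S, s * a ∈ I ∧ a * s ∈ I) →
      I = {z} ∨ I = Set.univ

/-- `pow' x k` is the power `x ^ (k + 1)` of an element `x` of a semigroup. -/
def pow' {S : Type} [Semigroup S] (x : S) : ℕ → S
  | 0 => x
  | k + 1 => pow' x k * x

/-- `S` satisfies the identity `x ^ 2 = x ^ (n + 2)`. -/
def SqIdentity (n : ℕ) (S : Type) [Semigroup S] : Prop :=
  ∀ x : S, x * x = pow' x (n + 1)

/-- The Rees–Sushkevich variety `RS n`: generated by all 0-simple semigroups that satisfy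
`x ^ 2 = x ^ (n + 2)`. -/
def RS (n : ℕ) : SgVariety :=
  generatedBy (fun S _ => IsZeroSimple S ∧ SqIdentity n S)

/-- The set of all semigroup varieties satisfying `x ^ 2 = x ^ (n + 2)`. -/
def Ln (n : ℕ) : Set SgVariety :=
  {V | ∀ (S : Type) [Semigroup S], V.mem S → SqIdentity n S}

/-- `W` is a cover of `V` in the set `L` of varieties: `W` is in `L`, `V` is strictly contained
in `W`, and no variety in `L` lies strictly between them. -/
def IsCoverIn (L : Set SgVariety) (V W : SgVariety) : Prop :=
  W ∈ L ∧ V < W ∧ ¬ ∃ U ∈ L, V < U ∧ U < W

/-! ## Some finite semigroups -/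

/-- The semigroup `{x, y, xy, yx, xyx, 0}` of the nonempty factors of the word `xyx`, with a
zero; all products other than `x·y`, `y·x`, `xy·x`, `x·yx` are zero. -/
inductive FactorXYX
  | x | y | xy | yx | xyx | zero
  deriving DecidableEq

namespace FactorXYX

/-- The product of two factors of `xyx`: their concatenation if it is a factor of `xyx`, else
zero. -/
def mulFn : FactorXYX → FactorXYX → FactorXYX
  | x, y => xy
  | y, x => yx
  | xy, x => xyx
  | x, yx => xyx
  | _, _ => zero

instance : Semigroup FactorXYX where
  mul := mulFn
  mul_assoc := by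
    intro a b c
    cases a <;> cases b <;> cases c <;> rfl

end FactorXYX

/-- The null semigroup `{a, a², 0}` with `a³ = 0`. -/
inductive Nil3
  | a | aa | zero
  deriving DecidableEq

namespace Nil3

/-- `a · a = a²`, all other products are zero. -/
def mulFn : Nil3 → Nil3 → Nil3
  | a, a => aa
  | _, _ => zero

instance : Semigroup Nil3 where
  mul := mulFn
  mul_assoc := by
    intro a b c
    cases a <;> cases b <;> cases c <;> rfl

end Nil3

/-- How an element of `TL` other than `0` and `x` begins. -/
inductive Start
  | xy | xz | y | z
  deriving DecidableEq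

/-- Does an element of `TL` other than `0` and `x` begin with `x`? -/
def Start.isX : Start → Bool
  | xy => true
  | xz => true
  | y => false
  | z => false

/-- The semigroup `TL` with ten elements: `0`, `x` and `el i e` for `i` one of `xy`, `xz`, `y`,
`z` and `e` a truth value.  It is given by generators `x, y, z` in which a word is zero unless
the letter `x` and the letters `y, z` alternate in it; a nonzero word other than `x` is
determined by how it begins (`xy`, `xz`, `y` or `z`) and by whether it ends with `x` (`e`). -/
inductive TL
  | zero | x | el (i : Start) (e : Bool)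
  deriving DecidableEq

namespace TL

/-- The product of `TL`. -/
def mulFn : TL → TL → TL
  | zero, _ => zero
  | _, zero => zero
  | x, x => zero
  | x, el Start.y e => el Start.xy e
  | x, el Start.z e => el Start.xz e
  | x, el Start.xy _ => zero
  | x, el Start.xz _ => zero
  | el i e, x => if e then zero else el i true
  | el i e, el j e' => if e = j.isX then zero else el i e'

instance : Semigroup TL where
  mul := mulFn
  mul_assoc := by
    rintro (_ | _ | ⟨_ | _ | _ | _, _ | _⟩) (_ | _ | ⟨_ | _ | _ | _, _ | _⟩)
      (_ | _ | ⟨_ | _ | _ | _, _ | _⟩) <;> rfl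

end TL

/-- The dual `TR` of `TL`: the same ten elements with the reversed product. -/
abbrev TR : Type := TLᵐᵒᵖ

end Pool.Agent.RSCovers
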