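import Pool.Agent.RSCovers.Variety

set_option autoImplicit false

namespace Pool.Agent.RSCovers

open MulOpposite

/-! ## Reversal of words -/

/-- The list of letters of a word. -/
def toL (w : Word) : List ℕ := w.head :: w.tail

@[simp] theorem toL_mul (a b : Word) : toL (a * b) = toL a ++ toL b := by
  obtain ⟨x, t⟩ := a
  obtain ⟨y, s⟩ := b
  rfl

theorem toL_inj {a b : Word} (h : toL a = toL b) : a = b := by
  obtain ⟨x, t⟩ := a
  obtain ⟨y, s⟩ := b
  simp only [toL, List.cons.injEq] at h
  obtain ⟨rfl, rfl⟩ := h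
  rfl

@[simp] theorem toL_of (a : ℕ) : toL (FreeSemigroup.of a) = [a] := rfl

/-- The reversed word. -/
def rev (w : Word) : Word := unop (FreeSemigroup.lift (fun a => op (FreeSemigroup.of a)) w)

@[simp] theorem rev_of (a : ℕ) : rev (FreeSemigroup.of a) = FreeSemigroup.of a := by
  unfold rev
  rw [FreeSemigroup.lift_of, unop_op]

@[simp] theorem rev_mul (a b : Word) : rev (a * b) = rev b * rev a := by
  unfold rev
  rw [map_mul, unop_mul]

theorem toL_rev (w : Word) : toL (rev w) = (toL w).reverse := by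
  induction w using FreeSemigroup.recOnMul with
  | ih1 a => simp
  | ih2 a b ih1 ih2 => rw [rev_mul, toL_mul, toL_mul, List.reverse_append, ih2, rev_of]; rfl

theorem rev_rev (w : Word) : rev (rev w) = w := by
  apply toL_inj
  rw [toL_rev, toL_rev, List.reverse_reverse]

theorem lift_rev {S : Type} [Semigroup S] (f : ℕ → S) (w : Word) :
    FreeSemigroup.lift (fun a => op (f a)) w = op (FreeSemigroup.lift f (rev w)) := by
  induction w using FreeSemigroup.recOnMul with
  | ih1 a => rw [FreeSemigroup.lift_of, rev_of, FreeSemigroup.lift_of]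
  | ih2 a b ih1 ih2 => rw [rev_mul, map_mul, map_mul, op_mul, ih1, ih2]

theorem holds_op {S : Type} [Semigroup S] {u v : Word} :
    Holds Sᵐᵒᵖ u v ↔ Holds S (rev u) (rev v) := by
  constructor
  · intro h f
    have := h (fun a => op (f a))
    rw [lift_rev, lift_rev] at this
    exact op_injective this
  · intro h f
    have h1 := h (fun a => unop (f a))
    have h2 := lift_rev (fun a => unop (f a)) u
    have h3 := lift_rev (fun a => unop (f a)) v
    simp only [op_unop] at h2 h3
    rw [h2, h3, h1]

theorem lift_lift {S : Type} [Semigroup S] (f : ℕ → S) (σ : ℕ → Word) (w : Word) :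
    FreeSemigroup.lift f (FreeSemigroup.lift σ w) =
      FreeSemigroup.lift (fun a => FreeSemigroup.lift f (σ a)) w := by
  induction w using FreeSemigroup.recOnMul with
  | ih1 a => rw [FreeSemigroup.lift_of, FreeSemigroup.lift_of]
  | ih2 a b ih1 ih2 => rw [map_mul, map_mul, map_mul, ih1, ih2]

theorem rev_lift (σ : ℕ → Word) (w : Word) :
    rev (FreeSemigroup.lift σ w) = FreeSemigroup.lift (fun a => rev (σ a)) (rev w) := by
  induction w using FreeSemigroup.recOnMul with
  | ih1 a => rw [FreeSemigroup.lift_of, rev_of, FreeSemigroup.lift_of]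
  | ih2 a b ih1 ih2 => rw [map_mul, rev_mul, rev_mul, map_mul, ih1, ih2]

theorem Holds.subst {S : Type} [Semigroup S] {u v : Word} (h : Holds S u v) (σ : ℕ → Word) :
    Holds S (FreeSemigroup.lift σ u) (FreeSemigroup.lift σ v) := by
  intro f
  rw [lift_lift, lift_lift]
  exact h _

theorem Holds.mul_right {S : Type} [Semigroup S] {u v : Word} (h : Holds S u v) (s : Word) :
    Holds S (u * s) (v * s) := by
  intro f
  rw [map_mul, map_mul, h f]

theorem Holds.mul_left {S : Type} [Semigroup S] {u v : Word} (h : Holds S u v) (s : Word) :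
    Holds S (s * u) (s * v) := by
  intro f
  rw [map_mul, map_mul, h f]

/-! ## Reversing powers -/

theorem lpow_append (l : List ℕ) (a b : ℕ) : lpow l (a + b) = lpow l a ++ lpow l b := by
  induction a with
  | zero => simp
  | succ a ih => rw [Nat.succ_add, lpow_succ, lpow_succ, ih, List.append_assoc]

theorem lpow_succ' (l : List ℕ) (k : ℕ) : lpow l (k + 1) = lpow l k ++ l := by
  rw [lpow_append, lpow_succ]; simp

theorem reverse_lpow (l : List ℕ) (k : ℕ) : (lpow l k).reverse = lpow l.reverse k := by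
  induction k with
  | zero => simp
  | succ k ih => rw [lpow_succ, List.reverse_append, ih, lpow_succ']

theorem lpow_rot (a b : List ℕ) (k : ℕ) : lpow (a ++ b) k ++ a = a ++ lpow (b ++ a) k := by
  induction k with
  | zero => simp
  | succ k ih => rw [lpow_succ, lpow_succ, List.append_assoc, ih]; simp

theorem rev_A1 : rev A1 = A1 := toL_inj (by rw [toL_rev]; rfl)

theorem rev_B1 (n : ℕ) : rev (B1 n) = B1 n := by
  apply toL_inj
  rw [toL_rev]
  have : toL (B1 n) = lpow [0] (n + 2) := by rw [lpow_succ]; rfl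
  rw [this, reverse_lpow]
  rfl

theorem rev_A2 : rev A2 = A2 := toL_inj (by rw [toL_rev]; rfl)

theorem rev_B2 (n : ℕ) : rev (B2 n) = B2 n := by
  apply toL_inj
  rw [toL_rev]
  have h := lpow_rot [1] [0] n
  simp only [toL, B2, List.reverse_cons, List.reverse_append, reverse_lpow, List.reverse_nil,
    List.nil_append, List.cons_append, List.append_assoc] at h ⊢
  rw [show ([1, 0] : List ℕ) = [1] ++ [0] from rfl, ← List.append_assoc]
  change 0 :: (lpow [1, 0] n ++ [1] ++ [0]) = _
  rw [h]
  simp

theorem rev_A3 (n : ℕ) : rev (A3 n) = B3 n := by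
  apply toL_inj
  rw [toL_rev]
  have h := lpow_rot [0] [2] n
  simp only [toL, A3, B3, List.reverse_cons, reverse_lpow, List.reverse_nil,
    List.nil_append, List.cons_append, List.append_assoc] at h ⊢
  rw [show ([0, 1, 0] : List ℕ) = [0] ++ [1, 0] from rfl, ← List.append_assoc, h]
  simp

theorem rev_B3 (n : ℕ) : rev (B3 n) = A3 n := by
  rw [← rev_A3, rev_rev]

/-! ## Duals of semigroups -/

section

variable {S : Type} [Semigroup S] {n : ℕ}

theorem sq_op : SqIdentity n Sᵐᵒᵖ ↔ SqIdentity n S := by
  rw [← holds1_iff, holds_op, rev_A1, rev_B1, holds1_iff]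

theorem holds2_op : Holds Sᵐᵒᵖ A2 (B2 n) ↔ Holds S A2 (B2 n) := by
  rw [holds_op, rev_A2, rev_B2]

theorem holds3_op : Holds Sᵐᵒᵖ (A3 n) (B3 n) ↔ Holds S (A3 n) (B3 n) := by
  rw [holds_op, rev_A3, rev_B3]
  exact ⟨Holds.symm, Holds.symm⟩

theorem zeroSimple_op (h : IsZeroSimple S) : IsZeroSimple Sᵐᵒᵖ := by
  obtain ⟨z, hz, ⟨a, b, hab⟩, hid⟩ := h
  refine ⟨op z, fun a => ⟨?_, ?_⟩, ⟨op b, op a, ?_⟩, ?_⟩
  · apply unop_injective; rw [unop_mul, unop_op, (hz _).2]
  · apply unop_injective; rw [unop_mul, unop_op, (hz _).1]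
  · rw [← op_mul]; exact fun h => hab (op_injective h)
  · intro I hI hcl
    have := hid {a | op a ∈ I} (by
      obtain ⟨a, ha⟩ := hI
      exact ⟨unop a, by simpa using ha⟩) (by
        intro a ha s
        have := hcl _ ha (op s)
        exact ⟨by simpa using this.2, by simpa using this.1⟩)
    rcases this with h | h
    · left
      ext a
      have := Set.ext_iff.1 h (unop a)
      simp only [Set.mem_ofPred_eq, op_unop, Set.mem_singleton_iff] at this ⊢
      rw [this, ← op_inj, op_unop]
    · right
      ext a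
      have := Set.ext_iff.1 h (unop a)
      simpa using this

end

theorem sat_RS_rev {n : ℕ} {u v : Word} (h : Sat (RS n) u v) : Sat (RS n) (rev u) (rev v) := by
  rw [sat_RS] at h ⊢
  intro T _ hT
  rw [← holds_op]
  exact h _ ⟨zeroSimple_op hT.1, sq_op.2 hT.2⟩

theorem inv_rev_of_sat {n : ℕ} {V : SgVariety} (hV : RS n ≤ V) {u v : Word} (h : Sat V u v) :
    (rev u).head = (rev v).head ∧ Inv n (rev u).head (rev u).tail (rev v).tail :=
  inv_of_holds (sat_RS.1 (sat_RS_rev (h.mono hV)))

end Pool.Agent.RSCovers
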