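import Pool.Agent.RSCovers.Step

set_option autoImplicit false

namespace Pool.Agent.RSCovers

/-! ## The semigroup `FactorXYX` -/

namespace FactorXYX

theorem four (p q r s : FactorXYX) : p * (q * (r * s)) = zero := by
  cases p <;> cases q <;> cases r <;> cases s <;> rfl

theorem three {p q r : FactorXYX} (h : p * (q * r) ≠ zero) : p = x ∧ q = y ∧ r = x := by
  revert h
  cases p <;> cases q <;> cases r <;> simp [HMul.hMul, Mul.mul, mulFn]

theorem two {p q : FactorXYX} (h : p * q ≠ zero) : p ≠ q := by
  revert h
  cases p <;> cases q <;> simp [HMul.hMul, Mul.mul, mulFn]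

theorem long (f : ℕ → FactorXYX) (a : ℕ) (t : List ℕ) (h : 3 ≤ t.length) :
    FreeSemigroup.lift f ⟨a, t⟩ = zero := by
  rcases t with _ | ⟨b, _ | ⟨c, _ | ⟨d, t⟩⟩⟩
  · simp at h
  · simp at h
  · simp at h
  · rw [lift_cons, lift_cons, lift_cons]; exact four _ _ _ _

theorem sq (n : ℕ) : SqIdentity n FactorXYX := by
  intro p
  have h0 : ∀ p : FactorXYX, p * p = zero := by intro p; cases p <;> rfl
  have h1 : ∀ p : FactorXYX, zero * p = zero := by intro p; cases p <;> rfl
  have h2 : ∀ k, pow' p (k + 1) = zero := by
    intro k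
    induction k with
    | zero => exact h0 p
    | succ k ih => rw [pow', ih, h1]
  rw [h2, h0]

theorem length_lpow (l : List ℕ) (k : ℕ) : (lpow l k).length = k * l.length := by
  simp [lpow]

theorem holds3 (n : ℕ) (hn : 1 ≤ n) : Holds FactorXYX (A3 n) (B3 n) := by
  intro f
  rw [A3, B3, long, long]
  · simp only [List.length_append, length_lpow, List.length_cons, List.length_nil]; omega
  · simp only [List.length_append, length_lpow, List.length_cons, List.length_nil]; omega

theorem not_holds2 (n : ℕ) (hn : 1 ≤ n) : ¬ Holds FactorXYX A2 (B2 n) := by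
  intro h
  have h1 := h (fun k => if k = 0 then x else y)
  have h2 := long (fun k => if k = 0 then x else y) 0 (1 :: (lpow [0, 1] n ++ [0])) (by
    simp only [List.length_append, length_lpow, List.length_cons, List.length_nil]; omega)
  have h3 : FreeSemigroup.lift (fun k => if k = 0 then x else y) A2 = xyx := rfl
  rw [B2, h2, h3] at h1
  exact absurd h1 (by decide)

end FactorXYX

/-! ## Words with few adjacent pairs -/

theorem two_edges {a b : ℕ} (hab : a ≠ b) {t : List ℕ} (h : edges a t = edges a [b]) :
    t = [b] := by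
  rcases t with _ | ⟨c, t⟩
  · have : (a, b) ∈ edges a ([] : List ℕ) := by rw [h]; simp
    simp at this
  · have h1 : (a, c) ∈ edges a [b] := by rw [← h]; simp
    simp at h1
    subst h1
    rcases t with _ | ⟨d, t⟩
    · rfl
    · have h2 : (c, d) ∈ edges a [c] := by rw [← h]; simp
      simp at h2
      exact absurd h2.1.symm hab

theorem three_edges {a b c : ℕ} (hab : a ≠ b) (hbc : b ≠ c) (hac : a ≠ c) {t : List ℕ}
    (h : edges a t = edges a [b, c]) : t = [b, c] := by
  rcases t with _ | ⟨d, t⟩
  · have : (a, b) ∈ edges a ([] : List ℕ) := by rw [h]; simp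
    simp at this
  · have h1 : (a, d) ∈ edges a [b, c] := by rw [← h]; simp
    simp [hab] at h1
    subst h1
    rcases t with _ | ⟨e, t⟩
    · have : (d, c) ∈ edges a [d] := by rw [h]; simp
      simp [hab.symm] at this
    · have h2 : (d, e) ∈ edges a [d, c] := by rw [← h]; simp
      simp [hab.symm] at h2
      subst h2
      rcases t with _ | ⟨g, t⟩
      · rfl
      · have h3 : (e, g) ∈ edges a [d, e] := by rw [← h]; simp
        simp [hac.symm, hbc.symm] at h3

theorem alt_edges {a b : ℕ} (hab : a ≠ b) (N : ℕ) : ∀ (t : List ℕ), t.length ≤ N →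
    edges a t ⊆ edges a [b, a] → lst a t = a → ∃ k, t = lpow [b, a] k := by
  induction N with
  | zero =>
    intro t ht _ _
    exact ⟨0, by simpa using ht⟩
  | succ N ih =>
    intro t ht h hl
    rcases t with _ | ⟨d, t⟩
    · exact ⟨0, by simp⟩
    · have h1 : (a, d) ∈ edges a [b, a] := h (by simp)
      simp [hab] at h1
      subst h1
      rcases t with _ | ⟨e, t⟩
      · simp at hl; exact absurd hl.symm hab
      · have h2 : (d, e) ∈ edges a [d, a] := h (by simp)
        simp [hab.symm] at h2
        subst h2
        obtain ⟨k, hk⟩ := ih t (by simp at ht; omega)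
          (by
            intro z hz
            exact h (by simp [hz])) (by simpa using hl)
        exact ⟨k + 1, by rw [lpow_succ, ← hk]; rfl⟩

theorem one_edge {a : ℕ} : ∀ (t : List ℕ), edges a t ⊆ edges a [a] → t = lpow [a] t.length := by
  intro t
  induction t with
  | nil => intro _; simp
  | cons d t ih =>
    intro h
    have h1 : (a, d) ∈ edges a [a] := h (by simp)
    simp at h1
    subst h1
    rw [List.length_cons, lpow_succ, ← ih (fun z hz => h (by simp [hz]))]
    rfl

/-- The weights give congruences modulo `n`. -/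
theorem modn_of_wt {n : ℕ} (hn : 1 ≤ n) {k : ℕ}
    (h : ∀ (G : Type) [Group G], (∀ g : G, g ^ n = 1) → ∀ g : G, g = g ^ (k + 1)) : n ∣ k := by
  have hG : ∀ g : Multiplicative (ZMod n), g ^ n = 1 := by
    intro g
    apply Multiplicative.toAdd.injective
    rw [toAdd_pow, toAdd_one, nsmul_eq_mul, ZMod.natCast_self, zero_mul]
  have h1 := h (Multiplicative (ZMod n)) hG (Multiplicative.ofAdd 1)
  have h2 : (Multiplicative.ofAdd (1 : ZMod n)) ^ k = 1 := by
    rw [pow_succ] at h1
    have : (1 : Multiplicative (ZMod n)) * Multiplicative.ofAdd 1 =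
        Multiplicative.ofAdd 1 ^ k * Multiplicative.ofAdd 1 := by rw [one_mul]; exact h1
    exact (mul_right_cancel this).symm
  have h3 := congrArg Multiplicative.toAdd h2
  rw [toAdd_pow, toAdd_one, nsmul_eq_mul, toAdd_ofAdd, mul_one] at h3
  exact (ZMod.natCast_eq_zero_iff k n).1 h3

theorem wt_lpow {G : Type} [Monoid G] (P : ℕ → ℕ → G) {x : ℕ} {l : List ℕ} (h : lst x l = x)
    (k : ℕ) : wt P x (lpow l k) = wt P x l ^ k := by
  induction k with
  | zero => simp
  | succ k ih => rw [lpow_succ, wt_append, h, ih, pow_succ']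

theorem pow_mod {M : Type} [Monoid M] {n : ℕ} {s : M} (h : s ^ (n + 2) = s ^ 2) (c : ℕ)
    (hc : 2 ≤ c) (j : ℕ) : s ^ (c + n * j) = s ^ c := by
  induction j with
  | zero => simp
  | succ j ih =>
    rw [show c + n * (j + 1) = (c + n * j) + n by ring, pow_add_n h _ (by omega), ih]

theorem sq_dichotomy {n : ℕ} (hn : 1 ≤ n) {V : SgVariety} (hV : RS n ≤ V) (h1 : V ∈ Ln n)
    (hX : ¬ V.mem FactorXYX) : Sat V A2 (B2 n) := by
  obtain ⟨u, v, huv, hf⟩ := exists_fail hX
  unfold Holds at hf
  push Not at hf
  obtain ⟨f, hf⟩ := hf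
  -- a symmetric form
  have main : ∀ u v : Word, Sat V u v → FreeSemigroup.lift f u ≠ FreeSemigroup.lift f v →
      FreeSemigroup.lift f u ≠ FactorXYX.zero → Sat V A2 (B2 n) := by
    intro u v huv hf h0
    obtain ⟨hh, hI⟩ := inv_of_sat hV huv
    obtain ⟨a, t⟩ := u
    obtain ⟨a', t'⟩ := v
    simp only at hh hI
    subst hh
    have hlen : t.length < 3 := by
      by_contra h
      exact h0 (FactorXYX.long f a t (by omega))
    rcases t with _ | ⟨b, _ | ⟨c, _ | ⟨d, t⟩⟩⟩
    · exfalso
      rcases t' with _ | ⟨r, t'⟩
      · exact hf rfl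
      · have : (a, r) ∈ edges a ([] : List ℕ) := by rw [hI.edg]; simp
        simp at this
    · exfalso
      have hab : a ≠ b := by
        intro h
        rw [lift_cons] at h0
        exact FactorXYX.two h0 (by rw [h]; rfl)
      rw [two_edges hab hI.edg.symm] at hf
      exact hf rfl
    · rw [lift_cons, lift_cons] at h0
      obtain ⟨h2, h3, h4⟩ := FactorXYX.three h0
      have h4' : f c = FactorXYX.x := h4
      have hab : a ≠ b := by intro h; rw [h, h3] at h2; exact absurd h2 (by decide)
      have hbc : b ≠ c := by intro h; rw [h, h4'] at h3; exact absurd h3 (by decide)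
      by_cases hac : a = c
      · subst hac
        obtain ⟨k, rfl⟩ := alt_edges hab _ t' (le_refl _) (by rw [hI.edg])
          (by rw [← hI.last]; rfl)
        -- `k ≥ 2`
        have hk0 : k ≠ 0 := by
          rintro rfl
          have : (a, b) ∈ edges a (lpow [b, a] 0) := by rw [← hI.edg]; simp
          simp at this
        have hk1 : k ≠ 1 := by
          rintro rfl
          exact hf (by rw [lpow_succ]; rfl)
        obtain ⟨j, rfl⟩ : ∃ j, k = j + 1 := ⟨k - 1, by omega⟩
        have hj : n ∣ j := by
          apply modn_of_wt hn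
          intro G _ hG g
          have := hI.wts G hG (fun y z => if y = a then g else 1)
          rw [wt_lpow _ (by simp)] at this
          simpa [hab.symm] using this
        obtain ⟨i, rfl⟩ := hj
        intro S _ hS
        rw [holds2_iff]
        intro x y
        have h5 := (holds_iff S _ _).1 (huv S hS) (fun k => if k = a then x else y)
        simp only [ev_cons, ev_lpow, ev_nil, mul_one, if_true, if_neg hab.symm] at h5
        have h6 := sq_coe (h1 S hS) ((y : WithOne S) * x)
        have hi : i ≠ 0 := by rintro rfl; simp at hk1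
        have h7 : ((y : WithOne S) * x) ^ (n * i + 1) = ((y : WithOne S) * x) ^ (n + 1) := by
          obtain ⟨i, rfl⟩ := Nat.exists_eq_succ_of_ne_zero hi
          rw [show n * (i.succ) + 1 = (n + 1) + n * i by
            rw [Nat.succ_eq_add_one]; ring]
          exact pow_mod h6 _ (by omega) _
        rw [h5, h7]
        have : ∀ (a b : WithOne S) (k : ℕ), a * (b * a) ^ k = (a * b) ^ k * a := by
          intro a b k
          induction k with
          | zero => simp
          | succ k ih => rw [pow_succ', pow_succ', mul_assoc (a * b), ← ih]; simp only [mul_assoc]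
        exact this _ _ _
      · exfalso
        rw [three_edges hab hbc hac hI.edg.symm] at hf
        exact hf rfl
    · simp at hlen; omega
  by_cases h0 : FreeSemigroup.lift f u = FactorXYX.zero
  · exact main v u (fun S _ hS => (huv S hS).symm) (fun h => hf h.symm)
      (fun h => hf (h0.trans h.symm))
  · exact main u v huv hf h0

end Pool.Agent.RSCovers
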