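import Pool.Agent.RSCovers.Exs

set_option autoImplicit false

namespace Pool.Agent.RSCovers

open MulOpposite

/-- `xyx(zx) ^ n (yx) ^ n` -/
def A4 (n : ℕ) : Word := ⟨0, [1, 0] ++ lpow [2, 0] n ++ lpow [1, 0] n⟩

theorem holds4_iff {S : Type} [Semigroup S] {n : ℕ} : Holds S (A4 n) (A3 n) ↔
    ∀ x y z : S, (x : WithOne S) * (y * x) * (z * x) ^ n * (y * x) ^ n =
      x * (y * x) * (z * x) ^ n := by
  rw [holds_iff]
  have key : ∀ f : ℕ → S, ev f ((A4 n).head :: (A4 n).tail) =
      ev f ((A3 n).head :: (A3 n).tail) ↔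
      (f 0 : WithOne S) * (f 1 * f 0) * (f 2 * f 0) ^ n * (f 1 * f 0) ^ n =
        f 0 * (f 1 * f 0) * (f 2 * f 0) ^ n := by
    intro f
    simp only [A4, A3, ev_cons, ev_nil, ev_append, ev_lpow, mul_one, mul_assoc]
  constructor
  · intro h x y z
    have := (key (sub3 x y z)).1 (h _)
    simpa [sub3] using this
  · intro h f
    exact (key f).2 (h _ _ _)

theorem holds4_of_sys {S : Type} [Semigroup S] {n : ℕ} (hn : 1 ≤ n) (hS : Sys n S) :
    Holds S (A4 n) (A3 n) := by
  rw [holds4_iff]
  intro x y z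
  have hy : (y : WithOne S) * x ∈ Np x := Or.inr ⟨y, rfl⟩
  have hz : (z : WithOne S) * x ∈ Np x := Or.inr ⟨z, rfl⟩
  have h1 := T1 hS hn (x := x) (l := 1) (r := (y : WithOne S) * x) (l' := (z * x) ^ n)
    (Submonoid.one_mem _) hy (Submonoid.pow_mem _ hz n) (le_refl 1)
  simpa only [one_mul, pow_one, mul_assoc] using h1

/-! ## The semigroup `TL` -/

theorem idem_pow_coe {S : Type} [Semigroup S] {s : S} (h : s * s = s) {n : ℕ} (hn : 1 ≤ n) :
    (s : WithOne S) ^ n = s := by
  obtain ⟨k, rfl⟩ := Nat.exists_eq_add_of_le' hn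
  induction k with
  | zero => simp
  | succ k ih => rw [pow_succ, ih (by omega), ← WithOne.coe_mul, h]

namespace TL

theorem d1 (s : TL) : s * s = s ∨ s * s = zero := by
  revert s
  rintro (_ | _ | ⟨_ | _ | _ | _, _ | _⟩)
  · left; rfl
  · right; rfl
  · left; rfl
  · right; rfl
  · left; rfl
  · right; rfl
  · right; rfl
  · left; rfl
  · right; rfl
  · left; rfl

theorem d2 (s t : TL) : (s * t) * (s * t) = s * t ∨ s * t * s = zero := by
  revert s t
  rintro (_ | _ | ⟨_ | _ | _ | _, _ | _⟩) (_ | _ | ⟨_ | _ | _ | _, _ | _⟩) <;>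
    first
      | (left; rfl)
      | (right; rfl)

theorem d4 (s t : TL) : s * (t * s) = zero ∨ (t * s) * (t * s) = t * s := by
  revert s t
  rintro (_ | _ | ⟨_ | _ | _ | _, _ | _⟩) (_ | _ | ⟨_ | _ | _ | _, _ | _⟩) <;>
    first
      | (left; rfl)
      | (right; rfl)

theorem d3 (x y z : TL) : x * (y * x) * (z * x) * (y * x) = x * (y * x) * (z * x) := by
  revert x y z
  rintro (_ | _ | ⟨_ | _ | _ | _, _ | _⟩) (_ | _ | ⟨_ | _ | _ | _, _ | _⟩)
    (_ | _ | ⟨_ | _ | _ | _, _ | _⟩) <;> rfl

theorem zero_mul' (s : TL) : zero * s = zero := by cases s <;> rfl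

theorem mul_zero' (s : TL) : s * zero = zero := by
  rcases s with _ | _ | _ <;> rfl

theorem zeroM (m : WithOne TL) : ((zero : TL) : WithOne TL) * m = (zero : TL) := by
  induction m with
  | one => simp
  | coe a => rw [← WithOne.coe_mul, zero_mul']

theorem Mzero (m : WithOne TL) : m * ((zero : TL) : WithOne TL) = (zero : TL) := by
  induction m with
  | one => simp
  | coe a => rw [← WithOne.coe_mul, mul_zero']

theorem sq (n : ℕ) : SqIdentity n TL := by
  intro s
  rcases d1 s with h | h
  · have : ∀ k, pow' s k = s := by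
      intro k
      induction k with
      | zero => rfl
      | succ k ih => rw [pow', ih, h]
    rw [this, h]
  · have : ∀ k, pow' s (k + 1) = zero := by
      intro k
      induction k with
      | zero => exact h
      | succ k ih => rw [pow', ih, zero_mul']
    rw [this, h]

theorem holds2 (n : ℕ) : Holds TL A2 (B2 n) := by
  rw [holds2_iff]
  intro x y
  rw [← WithOne.coe_mul x y]
  rcases d2 x y with h | h
  · rw [idem_pow_coe h (Nat.succ_pos n), WithOne.coe_mul, mul_assoc]
  · rw [pow_succ, mul_assoc, ← WithOne.coe_mul (x * y), h, Mzero, ← mul_assoc,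
      ← WithOne.coe_mul, ← WithOne.coe_mul, h]

theorem not_holds3 (n : ℕ) (hn : 1 ≤ n) : ¬ Holds TL (A3 n) (B3 n) := by
  intro h
  rw [holds3_iff] at h
  have := h x (el Start.y false) (el Start.z false)
  rw [← WithOne.coe_mul (el Start.y false), ← WithOne.coe_mul (el Start.z false),
    idem_pow_coe (by rfl) hn] at this
  simp only [← WithOne.coe_mul, WithOne.coe_inj] at this
  exact absurd this (by decide)

theorem holds4 (n : ℕ) (hn : 1 ≤ n) : Holds TL (A4 n) (A3 n) := by
  rw [holds4_iff]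
  intro x y z
  obtain ⟨k, rfl⟩ := Nat.exists_eq_add_of_le' hn
  rcases d4 x y with hc | h
  · rw [← WithOne.coe_mul y x, ← WithOne.coe_mul x, hc, zeroM, zeroM]
  · rcases d4 x z with hc | h'
    · have e2 : (x : WithOne TL) * (z * x) ^ (k + 1) = (zero : TL) := by
        rw [pow_succ', ← mul_assoc, ← WithOne.coe_mul z x, ← WithOne.coe_mul x, hc, zeroM]
      have e3 : (x : WithOne TL) * (y * x) * (z * x) ^ (k + 1) = (zero : TL) := by
        rw [mul_assoc, mul_assoc, e2, Mzero, Mzero]
      rw [e3, zeroM]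
    · rw [← WithOne.coe_mul y x, ← WithOne.coe_mul z x, idem_pow_coe h hn,
        idem_pow_coe h' hn]
      simp only [← WithOne.coe_mul, WithOne.coe_inj]
      exact d3 x y z

theorem not_holds4_op (n : ℕ) (hn : 1 ≤ n) : ¬ Holds TLᵐᵒᵖ (A4 n) (A3 n) := by
  intro h
  rw [holds4_iff] at h
  have := h (op x) (op (el Start.y false)) (op (el Start.z false))
  rw [← WithOne.coe_mul (op (el Start.y false)), ← WithOne.coe_mul (op (el Start.z false)),
    idem_pow_coe (by rfl) hn, idem_pow_coe (by rfl) hn] at this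
  simp only [← WithOne.coe_mul, WithOne.coe_inj, ← op_mul] at this
  exact absurd (op_injective this) (by decide)

end TL

/-! ## The semigroup `Nil3` -/

namespace Nil3

theorem three (p q r : Nil3) : p * (q * r) = zero := by
  cases p <;> cases q <;> cases r <;> rfl

theorem two {p q : Nil3} (h : p * q ≠ zero) : p = a ∧ q = a := by
  revert h
  cases p <;> cases q <;> simp [HMul.hMul, Mul.mul, mulFn]

theorem long (f : ℕ → Nil3) (x : ℕ) (t : List ℕ) (h : 2 ≤ t.length) :
    FreeSemigroup.lift f ⟨x, t⟩ = zero := by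
  rcases t with _ | ⟨b, _ | ⟨c, t⟩⟩
  · simp at h
  · simp at h
  · rw [lift_cons, lift_cons]; exact three _ _ _

theorem holds_long {u v : Word} (hu : 2 ≤ u.tail.length) (hv : 2 ≤ v.tail.length) :
    Holds Nil3 u v := by
  intro f
  obtain ⟨x, t⟩ := u
  obtain ⟨y, s⟩ := v
  rw [long f x t hu, long f y s hv]

theorem length_lpow (l : List ℕ) (k : ℕ) : (lpow l k).length = k * l.length := by
  simp [lpow]

theorem holds2 (n : ℕ) : Holds Nil3 A2 (B2 n) :=
  holds_long (by simp [A2]) (by simp [B2])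

theorem holds3 (n : ℕ) : Holds Nil3 (A3 n) (B3 n) :=
  holds_long (by simp [A3]) (by simp [B3])

theorem not_sq (n : ℕ) (hn : 1 ≤ n) : ¬ SqIdentity n Nil3 := by
  intro h
  have := h a
  obtain ⟨k, rfl⟩ := Nat.exists_eq_add_of_le' hn
  have h1 : ∀ k, pow' a (k + 2) = zero := by
    intro k
    induction k with
    | zero => rfl
    | succ k ih => rw [show k + 1 + 2 = (k + 2) + 1 by ring, pow', ih]; rfl
  rw [show k + 1 + 1 = k + 2 by ring, h1] at this
  exact absurd this (by decide)

end Nil3

/-- The identities between powers. -/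
theorem holdsPow_iff {S : Type} [Semigroup S] {i j : ℕ} : Holds S (B1 i) (B1 j) ↔
    ∀ x : S, (x : WithOne S) ^ (i + 2) = x ^ (j + 2) := by
  rw [holds_iff]
  have key : ∀ (f : ℕ → S) (i : ℕ), ev f ((B1 i).head :: (B1 i).tail) =
      (f 0 : WithOne S) ^ (i + 2) := by
    intro f i
    simp only [B1, ev_cons, ev_nil, ev_lpow, mul_one]
    rw [← pow_succ']
  simp only [key]
  exact ⟨fun h x => h (fun _ => x), fun h f => h (f 0)⟩

theorem B1_zero : B1 0 = A1 := rfl

/-- If `Nil3` is not in `V` then `V` satisfies `x ^ 2 = x ^ (d+2)` with `d ≥ 1`. -/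
theorem nil3_dichotomy {n : ℕ} {V : SgVariety} (hV : RS n ≤ V)
    (hX : ¬ V.mem Nil3) : ∃ d, 1 ≤ d ∧ Sat V (B1 0) (B1 d) := by
  obtain ⟨u, v, huv, hf⟩ := exists_fail hX
  unfold Holds at hf
  push Not at hf
  obtain ⟨f, hf⟩ := hf
  have main : ∀ u v : Word, Sat V u v → FreeSemigroup.lift f u ≠ FreeSemigroup.lift f v →
      FreeSemigroup.lift f u ≠ Nil3.zero → ∃ d, 1 ≤ d ∧ Sat V (B1 0) (B1 d) := by
    intro u v huv hf h0
    obtain ⟨hh, hI⟩ := inv_of_sat hV huv
    obtain ⟨a, t⟩ := u
    obtain ⟨a', t'⟩ := v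
    simp only at hh hI
    subst hh
    have hlen : t.length < 2 := by
      by_contra h
      exact h0 (Nil3.long f a t (by omega))
    rcases t with _ | ⟨b, _ | ⟨c, t⟩⟩
    · exfalso
      rcases t' with _ | ⟨r, t'⟩
      · exact hf rfl
      · have : (a, r) ∈ edges a ([] : List ℕ) := by rw [hI.edg]; simp
        simp at this
    · by_cases hab : a = b
      · subst hab
        have h1 := one_edge t' (by rw [hI.edg])
        have hk0 : t'.length ≠ 0 := by
          intro h
          rw [h] at h1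
          rw [h1] at hI
          have : (a, a) ∈ edges a (lpow [a] 0) := by rw [← hI.edg]; simp
          simp at this
        have hk1 : t'.length ≠ 1 := by
          intro h
          rw [h] at h1
          rw [h1] at hf
          exact hf (by rw [lpow_succ]; rfl)
        obtain ⟨d, hd⟩ : ∃ d, t'.length = d + 1 := ⟨t'.length - 1, by omega⟩
        refine ⟨d, by omega, fun S _ hS => ?_⟩
        rw [holdsPow_iff]
        intro x
        rw [h1, hd] at huv
        have := (holds_iff S _ _).1 (huv S hS) (fun _ => x)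
        simp only [ev_cons, ev_lpow, ev_nil, mul_one] at this
        rw [show 0 + 2 = 2 by norm_num, pow_two, this, ← pow_succ']
      · exfalso
        rw [two_edges hab hI.edg.symm] at hf
        exact hf rfl
    · simp at hlen
  by_cases h0 : FreeSemigroup.lift f u = Nil3.zero
  · exact main v u (fun S _ hS => (huv S hS).symm) (fun h => hf h.symm)
      (fun h => hf (h0.trans h.symm))
  · exact main u v huv hf h0

/-- The exponents are multiples of `n`. -/
theorem dvd_of_sat {n : ℕ} (hn : 1 ≤ n) {V : SgVariety} (hV : RS n ≤ V) {d : ℕ}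
    (h : Sat V (B1 0) (B1 d)) : n ∣ d := by
  obtain ⟨-, hI⟩ := inv_of_sat hV h
  apply modn_of_wt hn
  intro G _ hG g
  have := hI.wts G hG (fun _ _ => g)
  simp only [B1] at this
  rw [wt_lpow _ (by simp), wt_lpow _ (by simp)] at this
  simpa using this

end Pool.Agent.RSCovers
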