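import Pool.Agent.RSCovers.Calc

set_option autoImplicit false

namespace Pool.Agent.RSCovers

theorem rot_pow {M : Type} [Monoid M] (a b : M) (k : ℕ) :
    (a * b) ^ (k + 1) = a * (b * a) ^ k * b := by
  induction k with
  | zero => simp
  | succ k ih => rw [pow_succ, ih, pow_succ (b * a)]; simp only [mul_assoc]

variable {S : Type} [Semigroup S] (f : ℕ → S)

theorem loop_mem {x : ℕ} {l : List ℕ} (h : lst x l = x) : ev f l ∈ Np (f x) := by
  rcases List.eq_nil_or_concat l with rfl | ⟨l', b, rfl⟩
  · left; rfl
  · right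
    simp at h
    subst h
    exact ⟨ev f l', by simp⟩

theorem end_mem (x : ℕ) (w : List ℕ) :
    ∃ P : WithOne S, (f x : WithOne S) * ev f w = P * f (lst x w) := by
  induction w generalizing x with
  | nil => exact ⟨1, by simp⟩
  | cons a w ih =>
    obtain ⟨P, hP⟩ := ih a
    exact ⟨f x * P, by rw [ev_cons, hP, lst_cons, mul_assoc]⟩

variable {n : ℕ} (hS : Sys n S) (hn : 1 ≤ n)
include hS hn

theorem C1 {x : ℕ} {a : List ℕ} (ha : lst x a = x) (w : List ℕ) (hw : edges x w ⊆ edges x a) :
    ∃ s, edges (lst x w) s ⊆ edges x a ∧ lst (lst x w) s = x ∧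
      (f x : WithOne S) * ev f a ^ n * ev f w * ev f s = f x * ev f a ^ n := by
  induction w using List.reverseRecOn with
  | nil => exact ⟨[], by simp, by simp, by simp⟩
  | append_singleton w0 q ih =>
    rw [edges_append] at hw
    have hw0 : edges x w0 ⊆ edges x a := Set.subset_union_left.trans hw
    have hedge : (lst x w0, q) ∈ edges x a := hw (Or.inr (by simp))
    obtain ⟨s0, hs0, hl0, he0⟩ := ih hw0
    obtain ⟨α, β, rfl, hα⟩ := edges_split hedge
    have hβ : lst q β = x := by simpa using ha
    rw [edges_append, hα, edges_cons] at hs0 hw hw0 ⊢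
    have hρ : lst (lst x w0) (q :: (β ++ α)) = lst x w0 := by simp [hβ, hα]
    have hρe : edges (lst x w0) (q :: (β ++ α)) ⊆
        edges x α ∪ insert (lst x w0, q) (edges q β) := by
      rw [edges_cons, edges_append, hβ]
      intro e he
      simp only [Set.mem_insert_iff, Set.mem_union] at he ⊢
      tauto
    refine ⟨β ++ α ++ lpow (q :: (β ++ α)) (n - 1) ++ s0, ?_, ?_, ?_⟩
    · simp only [lst_append, lst_cons, lst_nil, edges_append, hβ, hα]
      refine Set.union_subset (Set.union_subset (Set.union_subset ?_ ?_) ?_) ?_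
      · intro e he
        simp only [Set.mem_insert_iff, Set.mem_union]
        tauto
      · exact Set.subset_union_left
      · exact ((edges_lpow hρ (n - 1)).2).trans hρe
      · rw [(edges_lpow hρ (n - 1)).1]
        exact hs0
    · simp only [lst_append, lst_cons, lst_nil, hβ, hα]
      rw [(edges_lpow hρ (n - 1)).1, hl0]
    · -- the main computation
      obtain ⟨P, hP⟩ := end_mem f x (lpow (α ++ q :: β) n ++ w0)
      have hlst : lst x (lpow (α ++ q :: β) n ++ w0) = lst x w0 := by
        rw [lst_append, (edges_lpow ha n).1]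
      rw [hlst, ev_append, ev_lpow, ← mul_assoc] at hP
      have hl : ev f (s0 ++ α) ∈ Np (f (lst x w0)) :=
        loop_mem f (by rw [lst_append, hl0, hα])
      have hr : ev f (q :: (β ++ α)) ∈ Np (f (lst x w0)) := loop_mem f hρ
      have hl' : ev f (q :: β ++ w0) ∈ Np (f (lst x w0)) :=
        loop_mem f (by simp [hβ])
      have hAm : ev f (α ++ q :: β) ∈ Np (f x) := loop_mem f ha
      have hk : 1 ≤ 2 * n - 1 := by omega
      have hF := T1 hS hn hl hr hl' hk
      have hT6 := T6 hS hn hAm (k := n) hn
      have hT6' := T6 hS hn hAm (k := 2 * n) (by omega)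
      have h3n : (f x : WithOne S) * ev f (α ++ q :: β) ^ n * ev f (α ++ q :: β) ^ (2 * n) =
          f x * ev f (α ++ q :: β) ^ n := by
        have : ev f (α ++ q :: β) ^ (2 * n) =
            ev f (α ++ q :: β) ^ n * ev f (α ++ q :: β) ^ n := by rw [two_mul, pow_add]
        rw [this, ← mul_assoc, mul_assoc (f x : WithOne S), hT6, mul_assoc, hT6]
      have hA2 : ev f (α ++ q :: β) ^ (2 * n) =
          ev f α * ev f (q :: (β ++ α)) ^ (2 * n - 1) * ev f (q :: β) := by
        have : 2 * n = (2 * n - 1) + 1 := by omega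
        rw [this, ev_append, rot_pow]
        simp [mul_assoc]
      have e1 : (f x : WithOne S) * ev f (α ++ q :: β) ^ n * ev f w0 =
          f x * ev f (α ++ q :: β) ^ n * ev f w0 *
            (ev f (s0 ++ α) * ev f (q :: (β ++ α)) ^ (2 * n - 1) * ev f (q :: β ++ w0)) := by
        conv_lhs => rw [← h3n, ← he0, hA2]
        rw [ev_append f s0 α, ev_append f (q :: β) w0]
        simp only [mul_assoc]
      have e2 : (f x : WithOne S) * ev f (α ++ q :: β) ^ n * ev f w0 *
          ev f (q :: (β ++ α)) ^ n = f x * ev f (α ++ q :: β) ^ n * ev f w0 := by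
        conv_lhs => rw [e1, hP]
        conv_rhs => rw [e1, hP]
        rw [mul_assoc P, mul_assoc P, mul_assoc (f (lst x w0) : WithOne S), hF]
      have e3 : ev f (q :: (β ++ α)) ^ n =
          (f q : WithOne S) * (ev f β * ev f α * ev f (q :: (β ++ α)) ^ (n - 1)) := by
        have : n = (n - 1) + 1 := by omega
        conv_lhs => rw [this, pow_succ']
        simp [mul_assoc]
      rw [ev_append f w0, ev_append, ev_append, ev_append, ev_lpow]
      calc _ = (f x : WithOne S) * ev f (α ++ q :: β) ^ n * ev f w0 *
          ((f q : WithOne S) * (ev f β * ev f α * ev f (q :: (β ++ α)) ^ (n - 1))) *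
            ev f s0 := by simp [mul_assoc]
        _ = _ := by rw [← e3, e2, he0, ev_append]

/-- Lemma C. -/
theorem lemC {x : ℕ} {a : List ℕ} (ha : lst x a = x) {l : List ℕ} (hl : lst x l = x)
    (hle : edges x l ⊆ edges x a) :
    (f x : WithOne S) * ev f a ^ n * ev f l ^ n = f x * ev f a ^ n := by
  obtain ⟨s, -, hs, he⟩ := C1 f hS hn ha l hle
  rw [hl] at hs
  have := T2 hS hn (loop_mem f ha) (loop_mem f hl) (loop_mem f hs)
    (by rw [← he]; simp only [mul_assoc])
  rw [mul_assoc, this]

/-- A loop at the end of a walk can be absorbed. -/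
theorem lemC2 {x : ℕ} {a : List ℕ} (ha : lst x a = x) {w : List ℕ}
    (hw : edges x w ⊆ edges x a) {l : List ℕ} (hl : lst (lst x w) l = lst x w)
    (hle : edges (lst x w) l ⊆ edges x a) :
    (f x : WithOne S) * ev f a ^ n * ev f w * ev f l ^ n = f x * ev f a ^ n * ev f w := by
  obtain ⟨s, hse, hs, he⟩ := C1 f hS hn ha w hw
  have hloop : lst x (w ++ l ++ s) = x := by simp [hl, hs]
  have h1 := lemC f hS hn ha hloop (by
    simp only [edges_append, lst_append, hl]
    exact Set.union_subset (Set.union_subset hw hle) hse)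
  have hls : lst (lst x w) (s ++ w) = lst x w := by simp [hs]
  have h3 := T3 hS hn (loop_mem f hl) (loop_mem f hls)
  -- rewrite the power
  have e1 : ev f (w ++ l ++ s) ^ n * ev f w = ev f w * (ev f l * ev f (s ++ w)) ^ n := by
    rw [ev_append, ev_append, ev_append]
    have : ∀ (a b : WithOne S) (k : ℕ), (a * b) ^ k * a = a * (b * a) ^ k := by
      intro a b k
      induction k with
      | zero => simp
      | succ k ih => rw [pow_succ', mul_assoc, ih, pow_succ']; simp only [mul_assoc]
    have h := this (ev f w) (ev f l * ev f s) n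
    simp only [mul_assoc] at h ⊢
    exact h
  obtain ⟨P, hP⟩ := end_mem f x (lpow a n ++ w)
  have hlst : lst x (lpow a n ++ w) = lst x w := by
    rw [lst_append, (edges_lpow ha n).1]
  rw [hlst, ev_append, ev_lpow, ← mul_assoc] at hP
  have e2 : (f x : WithOne S) * ev f a ^ n * ev f w =
      f x * ev f a ^ n * ev f w * (ev f l * ev f (s ++ w)) ^ n := by
    rw [mul_assoc _ (ev f w) (_ ^ n), ← e1, ← mul_assoc, h1]
  calc _ = (f x : WithOne S) * ev f a ^ n * ev f w * (ev f l * ev f (s ++ w)) ^ n *
        ev f l ^ n := by rw [← e2]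
    _ = P * (f (lst x w) * ((ev f l * ev f (s ++ w)) ^ n * ev f l ^ n)) := by
        rw [hP]; simp only [mul_assoc]
    _ = f x * ev f a ^ n * ev f w := by
        rw [h3]
        conv_rhs => rw [e2, hP]
        rw [mul_assoc]

/-- The word `x :: t` is irreducible: in every factorization into two nonempty words, the two
factors have a common letter. -/
def Irred (x : ℕ) (t : List ℕ) : Prop :=
  ∀ t1 t2 : List ℕ, t = t1 ++ t2 → t2 ≠ [] → ∃ q ∈ x :: t1, q ∈ t2

theorem cover_aux {x : ℕ} {t : List ℕ} (ht : Irred x t) (t1 t2 : List ℕ) (h12 : t = t1 ++ t2) :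
    ∃ a, lst x a = x ∧ edges x a ⊆ edges x t ∧ edges x t1 ⊆ edges x a ∧
      (f x : WithOne S) * ev f a ^ n * ev f t = f x * ev f t := by
  induction t1 using List.reverseRecOn generalizing t2 with
  | nil => exact ⟨[], rfl, by simp, by simp, by simp⟩
  | append_singleton s y ih =>
    have h12' : t = s ++ (y :: t2) := by rw [h12]; simp
    obtain ⟨a, ha, hat, hsa, he⟩ := ih (y :: t2) h12'
    obtain ⟨q, hq1, hq2⟩ := ht s (y :: t2) h12' (by simp)
    -- q on the walk s
    obtain ⟨γ1, γ2, hs, hγ⟩ := mem_split hq1
    -- q in y :: t2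
    obtain ⟨δ1, δ2, hδ⟩ := List.append_of_mem hq2
    -- q on the loop a
    obtain ⟨α, β, hab, hα⟩ := mem_split (mem_of_edges hsa hq1)
    have hβ : lst q β = x := by
      have := ha
      rw [hab, lst_append, hα] at this
      exact this
    have hγ2 : lst q γ2 = lst x s := by rw [hs, lst_append, hγ]
    -- the loop r at q
    have hr : lst q (γ2 ++ (δ1 ++ [q])) = q := by simp
    have hL : lst q (β ++ α) = q := by simp [hβ, hα]
    have hM : lst q (β ++ γ1) = q := by simp [hβ, hγ]
    have ht' : t = γ1 ++ (γ2 ++ (δ1 ++ [q])) ++ δ2 := by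
      rw [h12', hδ, hs]; simp
    have hk : 1 ≤ 2 * n - 1 := by omega
    refine ⟨α ++ (γ2 ++ (δ1 ++ [q])) ++ β, ?_, ?_, ?_, ?_⟩
    · simp [hβ]
    · rw [edges_append, edges_append, lst_append, hα, hr]
      have h1 : edges q (γ2 ++ (δ1 ++ [q])) ⊆ edges x t := by
        conv_rhs => rw [ht', edges_append, edges_append, hγ]
        intro e he
        exact Or.inl (Or.inr he)
      have h2 : edges x α ⊆ edges x t := by
        refine Set.Subset.trans ?_ hat
        rw [hab, edges_append]
        exact Set.subset_union_left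
      have h3 : edges q β ⊆ edges x t := by
        refine Set.Subset.trans ?_ hat
        rw [hab, edges_append, hα]
        exact Set.subset_union_right
      exact Set.union_subset (Set.union_subset h2 h1) h3
    · -- the new edge
      rw [edges_append x s [y]]
      refine Set.union_subset ?_ ?_
      · refine hsa.trans ?_
        rw [hab, edges_append, edges_append, edges_append, lst_append, hα, hr]
        intro e he
        simp only [Set.mem_union] at he ⊢
        tauto
      · intro e he
        have he' : e = (lst x s, y) := by simpa using he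
        rw [edges_append, edges_append, hα, edges_append q γ2, hγ2]
        refine Or.inl (Or.inr (Or.inr ?_))
        rcases δ1 with _ | ⟨c, δ1⟩
        · simp at hδ
          simp [he', hδ.1]
        · simp at hδ
          simp [he', hδ.1]
    · -- the computation
      set A1 := ev f α with hA1
      set B := ev f β with hB
      set R := ev f (γ2 ++ (δ1 ++ [q])) with hR
      set G := ev f γ1 with hG
      set D := ev f δ2 with hD
      have hA : ev f a = A1 * B := by rw [hab, ev_append]
      have hT : ev f t = G * R * D := by rw [ht', ev_append, ev_append]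
      have hAm : A1 * B ∈ Np (f x) := by rw [← hA]; exact loop_mem f ha
      have hRm : R ∈ Np (f q) := loop_mem f hr
      have hLm : B * A1 ∈ Np (f q) := by
        have := loop_mem f hL
        rwa [ev_append] at this
      have hMm : B * G ∈ Np (f q) := by
        have := loop_mem f hM
        rwa [ev_append] at this
      -- X T = X A^{2n} T
      have e2n : (f x : WithOne S) * (A1 * B) ^ (2 * n) = f x * (A1 * B) ^ n := by
        rw [two_mul, pow_add]
        exact T6 hS hn hAm hn
      have eT : (f x : WithOne S) * (A1 * B) ^ (2 * n) * ev f t = f x * ev f t := by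
        rw [e2n, ← hA]; exact he
      -- X A' ^ n ends with X
      have hA'm : A1 * R * B ∈ Np (f x) := by
        have : lst x (α ++ (γ2 ++ (δ1 ++ [q])) ++ β) = x := by simp [hβ]
        have h := loop_mem f this
        rwa [ev_append, ev_append] at h
      obtain ⟨P, hP⟩ := end_mul (Submonoid.pow_mem _ hA'm n)
      have e1 : (f x : WithOne S) * (A1 * R * B) ^ n * ev f t =
          f x * (A1 * R * B) ^ n * ((A1 * B) ^ (2 * n) * ev f t) := by
        rw [hP, mul_assoc P, mul_assoc P, ← eT]
        simp only [mul_assoc]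
      -- X α = P' Q
      obtain ⟨P', hP'⟩ := end_mem f x α
      rw [hα, ← hA1] at hP'
      have e3 : (A1 * R * B) ^ n = A1 * (R * (B * A1)) ^ (n - 1) * (R * B) := by
        have : n = (n - 1) + 1 := by omega
        conv_lhs => rw [this, mul_assoc, rot_pow]
        simp only [mul_assoc]
      have e4 : (A1 * B) ^ (2 * n) = A1 * (B * A1) ^ (2 * n - 1) * B := by
        have : 2 * n = (2 * n - 1) + 1 := by omega
        conv_lhs => rw [this, rot_pow]
      have e5 : (R * (B * A1)) ^ n = (R * (B * A1)) ^ (n - 1) * (R * (B * A1)) := by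
        have : n = (n - 1) + 1 := by omega
        conv_lhs => rw [this, pow_succ]
      have hF := T4 hS hn hRm hLm hMm hk
      calc (f x : WithOne S) * ev f (α ++ (γ2 ++ (δ1 ++ [q])) ++ β) ^ n * ev f t
          = f x * (A1 * R * B) ^ n * ev f t := by rw [ev_append, ev_append]
        _ = f x * (A1 * R * B) ^ n * ((A1 * B) ^ (2 * n) * ev f t) := e1
        _ = (f x * A1) * ((R * (B * A1)) ^ n * (B * A1) ^ (2 * n - 1) * (B * G) * R) * D := by
            rw [e3, e4, e5, hT]; simp only [mul_assoc]
        _ = P' * (f q * ((R * (B * A1)) ^ n * (B * A1) ^ (2 * n - 1) * (B * G) * R)) * D := by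
            rw [hP']; simp only [mul_assoc]
        _ = P' * (f q * ((B * A1) ^ (2 * n - 1) * (B * G) * R)) * D := by rw [hF]
        _ = (f x * A1) * ((B * A1) ^ (2 * n - 1) * (B * G) * R) * D := by
            rw [hP']; simp only [mul_assoc]
        _ = (f x : WithOne S) * (A1 * B) ^ (2 * n) * ev f t := by
            rw [e4, hT]; simp only [mul_assoc]
        _ = f x * ev f t := eT

/-- The covering loop. -/
theorem cover {x : ℕ} {t : List ℕ} (ht : Irred x t) :
    ∃ a, lst x a = x ∧ edges x a = edges x t ∧
      (f x : WithOne S) * ev f a ^ n * ev f t = f x * ev f t := by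
  obtain ⟨a, h1, h2, h3, h4⟩ := cover_aux f hS hn ht t [] (by simp)
  exact ⟨a, h1, Set.Subset.antisymm h2 h3, h4⟩

end Pool.Agent.RSCovers
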