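import Pool.Agent.RSCovers.Cyc

set_option autoImplicit false

namespace Pool.Agent.RSCovers

/-! ## The two dichotomies for `TL` and `TR` -/

theorem TL_dich {n : ℕ} {V : SgVariety} (hV : RS n ≤ V) (hX : ¬ V.mem TL) :
    ∃ m m', Sat V ⟨0, code (true :: m)⟩ ⟨0, code (false :: m')⟩ := by
  obtain ⟨u, v, huv, hf⟩ := exists_fail hX
  obtain ⟨hh, hI⟩ := inv_of_sat hV huv
  obtain ⟨σ, s, m, m', h⟩ := TL_word hh (by rw [hI.last, hh]) (by rw [hI.edg, hh]) hf
  refine ⟨m, m', fun S _ hS => ?_⟩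
  have h1 := ((huv S hS).subst σ).mul_right s
  rcases h with ⟨e1, e2⟩ | ⟨e1, e2⟩
  · rw [show (⟨0, code (true :: m)⟩ : Word) = FreeSemigroup.lift σ u * s from
        toL_inj (by rw [e1]; rfl),
      show (⟨0, code (false :: m')⟩ : Word) = FreeSemigroup.lift σ v * s from
        toL_inj (by rw [e2]; rfl)]
    exact h1
  · rw [show (⟨0, code (true :: m)⟩ : Word) = FreeSemigroup.lift σ v * s from
        toL_inj (by rw [e1]; rfl),
      show (⟨0, code (false :: m')⟩ : Word) = FreeSemigroup.lift σ u * s from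
        toL_inj (by rw [e2]; rfl)]
    exact h1.symm

theorem TR_dich {n : ℕ} {V : SgVariety} (hV : RS n ≤ V) (hX : ¬ V.mem TR) :
    ∃ l l', Sat V ⟨0, code (l ++ [true])⟩ ⟨0, code (l' ++ [false])⟩ := by
  obtain ⟨u, v, huv, hf⟩ := exists_fail hX
  rw [holds_op] at hf
  obtain ⟨hh, hI⟩ := inv_rev_of_sat hV huv
  obtain ⟨σ, s, m, m', h⟩ := TL_word hh (by rw [hI.last, hh]) (by rw [hI.edg, hh]) hf
  refine ⟨m.reverse, m'.reverse, fun S _ hS => ?_⟩
  have h1 := ((huv S hS).subst (fun a => rev (σ a))).mul_left (rev s)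
  have e : ∀ w : Word, rev s * FreeSemigroup.lift (fun a => rev (σ a)) w =
      rev (FreeSemigroup.lift σ (rev w) * s) := by
    intro w
    rw [rev_mul, rev_lift, rev_rev]
  rw [e, e] at h1
  have c : ∀ (m : List Bool) (b : Bool), rev ⟨0, code (b :: m)⟩ =
      ⟨0, code (m.reverse ++ [b])⟩ := by
    intro m b
    rw [rev_code, List.reverse_cons]
  rcases h with ⟨e1, e2⟩ | ⟨e1, e2⟩
  · rw [← c, ← c, show (⟨0, code (true :: m)⟩ : Word) = FreeSemigroup.lift σ (rev u) * s from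
        toL_inj (by rw [e1]; rfl),
      show (⟨0, code (false :: m')⟩ : Word) = FreeSemigroup.lift σ (rev v) * s from
        toL_inj (by rw [e2]; rfl)]
    exact h1
  · rw [← c, ← c, show (⟨0, code (true :: m)⟩ : Word) = FreeSemigroup.lift σ (rev v) * s from
        toL_inj (by rw [e1]; rfl),
      show (⟨0, code (false :: m')⟩ : Word) = FreeSemigroup.lift σ (rev u) * s from
        toL_inj (by rw [e2]; rfl)]
    exact h1.symm

/-- Every variety in `Ln n` strictly above `RS n` contains one of the three semigroups. -/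
theorem dich {n : ℕ} (hn : 1 ≤ n) {V : SgVariety} (hV : RS n < V) (hL : V ∈ Ln n) :
    V.mem FactorXYX ∨ V.mem TL ∨ V.mem TR := by
  by_contra hcon
  push Not at hcon
  obtain ⟨h1, h2, h3⟩ := hcon
  have s2 := sq_dichotomy hn hV.le hL h1
  obtain ⟨m, m', hm⟩ := TL_dich hV.le h2
  obtain ⟨l, l', hl⟩ := TR_dich hV.le h3
  have s3 : Sat V (A3 n) (B3 n) := fun S _ hS =>
    step3 hn (hL S hS) (s2 S hS) (hm S hS) (hl S hS)
  exact absurd (le_RS hn hL s2 s3) (not_le_of_gt hV)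

/-- Every variety strictly above `RS n` contains one of the listed semigroups. -/
theorem dich2 {n : ℕ} (hn : 1 ≤ n) {V : SgVariety} (hV : RS n < V) :
    V.mem FactorXYX ∨ V.mem TL ∨ V.mem TR ∨ V.mem Nil3 ∨
      ∃ p : ℕ, p.Prime ∧ V.mem (Multiplicative (ZMod (p ^ (n.factorization p + 1)))) := by
  by_cases hL : V ∈ Ln n
  · rcases dich hn hV hL with h | h | h
    · exact Or.inl h
    · exact Or.inr (Or.inl h)
    · exact Or.inr (Or.inr (Or.inl h))
  · by_cases hN : V.mem Nil3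
    · exact Or.inr (Or.inr (Or.inr (Or.inl hN)))
    · obtain ⟨p, k, hp, h1, h2, h3⟩ := cyc_dichotomy hn hV.le hN hL
      refine Or.inr (Or.inr (Or.inr (Or.inr ⟨p, hp, ?_⟩)))
      have hk : n.factorization p = k := by
        have hn0 : n ≠ 0 := by omega
        have a1 := (hp.pow_dvd_iff_le_factorization hn0).1 h1
        have a2 : ¬ k + 1 ≤ n.factorization p := fun h =>
          h2 ((hp.pow_dvd_iff_le_factorization hn0).2 h)
        omega
      rw [hk]
      exact h3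

/-! ## The varieties of the list -/

/-- The join of `RS n` and the variety generated by `T`. -/
def CC (n : ℕ) (T : Type) [Semigroup T] : SgVariety := join (RS n) (generatedByOne T)

theorem RS_le_CC (n : ℕ) (T : Type) [Semigroup T] : RS n ≤ CC n T := le_join_left _ _

theorem mem_CC (n : ℕ) (T : Type) [Semigroup T] : (CC n T).mem T := mem_join_one _ _

theorem CC_le {n : ℕ} {T : Type} [Semigroup T] {V : SgVariety} (h1 : RS n ≤ V) (h2 : V.mem T) :
    CC n T ≤ V := join_le h1 (one_le_iff.2 h2)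

theorem sat_CC {n : ℕ} {T : Type} [Semigroup T] {u v : Word} :
    Sat (CC n T) u v ↔ Sat (RS n) u v ∧ Holds T u v := by
  unfold CC
  rw [sat_join, sat_one]

theorem CC_ne {n : ℕ} {T T' : Type} [Semigroup T] [Semigroup T'] (h : ¬ (CC n T').mem T) :
    CC n T' ≠ CC n T := fun e => h ((le_of_eq e.symm) T (mem_CC n T))

/-- `T` is not in `CC n T'` if some identity separates them. -/
theorem not_mem_CC {n : ℕ} {T T' : Type} [Semigroup T] [Semigroup T'] {u v : Word}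
    (h1 : Sat (RS n) u v) (h2 : Holds T' u v) (h3 : ¬ Holds T u v) : ¬ (CC n T').mem T :=
  fun h => h3 ((sat_CC.2 ⟨h1, h2⟩) T h)

theorem RS_lt_CC {n : ℕ} {T : Type} [Semigroup T] {u v : Word}
    (h1 : Sat (RS n) u v) (h3 : ¬ Holds T u v) : RS n < CC n T :=
  lt_of_le_not_ge (RS_le_CC n T) (fun h => h3 (h1 T (h T (mem_CC n T))))

variable {n : ℕ} (hn : 1 ≤ n)
include hn

theorem RS_sat4 : Sat (RS n) (A4 n) (A3 n) := fun _ _ hS =>
  holds4_of_sys hn ((mem_RS_iff hn).1 hS)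

theorem RS_satPow : Sat (RS n) (B1 1) (B1 (n + 1)) := by
  intro S _ hS
  rw [holdsPow_iff]
  intro x
  have h := sq_coe ((RS_sat hn).1 S hS) (x : WithOne S)
  rw [show n + 1 + 2 = 3 + n by ring]
  exact (pow_add_n h 3 (by omega)).symm

theorem RS_satMul (k : ℕ) : Sat (RS n) A1 (B1 (n * (k + 1))) ∧
    Sat (RS n) A2 (B2 (n * (k + 1))) ∧ Sat (RS n) (A3 (n * (k + 1))) (B3 (n * (k + 1))) := by
  have hN : 1 ≤ n * (k + 1) := Nat.mul_pos hn (Nat.succ_pos k)
  have key : ∀ (S : Type) [Semigroup S], (RS n).mem S → SqIdentity (n * (k + 1)) S ∧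
      Holds S A2 (B2 (n * (k + 1))) ∧ Holds S (A3 (n * (k + 1))) (B3 (n * (k + 1))) :=
    fun S _ hS => (sys_iff hN).1 (((mem_RS_iff hn).1 hS).mul hn k)
  exact ⟨fun S _ hS => holds1_iff.2 (key S hS).1, fun S _ hS => (key S hS).2.1,
    fun S _ hS => (key S hS).2.2⟩

/-! ### Membership facts -/

theorem CX_mem_Ln : CC n FactorXYX ∈ Ln n :=
  mem_Ln_iff.2 (sat_CC.2 ⟨mem_Ln_iff.1 (RS_sat hn).1, holds1_iff.2 (FactorXYX.sq n)⟩)

theorem CL_mem_Ln : CC n TL ∈ Ln n :=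
  mem_Ln_iff.2 (sat_CC.2 ⟨mem_Ln_iff.1 (RS_sat hn).1, holds1_iff.2 (TL.sq n)⟩)

theorem CR_mem_Ln : CC n TR ∈ Ln n :=
  mem_Ln_iff.2 (sat_CC.2 ⟨mem_Ln_iff.1 (RS_sat hn).1, holds1_iff.2 (sq_op.2 (TL.sq n))⟩)

theorem not_holds3_TR : ¬ Holds TR (A3 n) (B3 n) := fun h =>
  TL.not_holds3 n hn (holds3_op.1 h)

theorem RS_lt_CX : RS n < CC n FactorXYX := RS_lt_CC (RS_sat hn).2.1 (FactorXYX.not_holds2 n hn)
theorem RS_lt_CL : RS n < CC n TL := RS_lt_CC (RS_sat hn).2.2 (TL.not_holds3 n hn)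
theorem RS_lt_CR : RS n < CC n TR := RS_lt_CC (RS_sat hn).2.2 (not_holds3_TR hn)

theorem TL_notMem_CX : ¬ (CC n FactorXYX).mem TL :=
  not_mem_CC (RS_sat hn).2.2 (FactorXYX.holds3 n hn) (TL.not_holds3 n hn)
theorem TR_notMem_CX : ¬ (CC n FactorXYX).mem TR :=
  not_mem_CC (RS_sat hn).2.2 (FactorXYX.holds3 n hn) (not_holds3_TR hn)
theorem X_notMem_CL : ¬ (CC n TL).mem FactorXYX :=
  not_mem_CC (RS_sat hn).2.1 (TL.holds2 n) (FactorXYX.not_holds2 n hn)
theorem TR_notMem_CL : ¬ (CC n TL).mem TR :=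
  not_mem_CC (RS_sat4 hn) (TL.holds4 n hn) (TL.not_holds4_op n hn)
theorem X_notMem_CR : ¬ (CC n TR).mem FactorXYX :=
  not_mem_CC (RS_sat hn).2.1 (holds2_op.2 (TL.holds2 n)) (FactorXYX.not_holds2 n hn)
theorem TL_notMem_CR : ¬ (CC n TR).mem TL :=
  not_mem_CC (sat_RS_rev (RS_sat4 hn))
    (by rw [holds_op, rev_rev, rev_rev]; exact TL.holds4 n hn)
    (fun h => TL.not_holds4_op n hn (holds_op.2 h))

/-- A cover that contains a variety `C` above `RS n` equals it. -/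
theorem eq_of_cover {L : Set SgVariety} {V C : SgVariety} (hV : IsCoverIn L (RS n) V)
    (hC : C ∈ L) (h1 : RS n < C) (h2 : C ≤ V) : V = C := by
  by_contra hne
  exact hV.2.2 ⟨C, hC, h1, lt_of_le_of_ne h2 (fun h => hne h.symm)⟩

theorem covers_Ln (V : SgVariety) : IsCoverIn (Ln n) (RS n) V ↔
    V = CC n FactorXYX ∨ V = CC n TL ∨ V = CC n TR := by
  constructor
  · intro hV
    rcases dich hn hV.2.1 hV.1 with h | h | h
    · exact Or.inl (eq_of_cover hn hV (CX_mem_Ln hn) (RS_lt_CX hn) (CC_le hV.2.1.le h))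
    · exact Or.inr (Or.inl (eq_of_cover hn hV (CL_mem_Ln hn) (RS_lt_CL hn)
        (CC_le hV.2.1.le h)))
    · exact Or.inr (Or.inr (eq_of_cover hn hV (CR_mem_Ln hn) (RS_lt_CR hn)
        (CC_le hV.2.1.le h)))
  · rintro (rfl | rfl | rfl)
    · refine ⟨CX_mem_Ln hn, RS_lt_CX hn, ?_⟩
      rintro ⟨U, hU, h1, h2⟩
      rcases dich hn h1 hU with h | h | h
      · exact absurd (CC_le h1.le h) (not_le_of_gt h2)
      · exact TL_notMem_CX hn (h2.le _ h)
      · exact TR_notMem_CX hn (h2.le _ h)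
    · refine ⟨CL_mem_Ln hn, RS_lt_CL hn, ?_⟩
      rintro ⟨U, hU, h1, h2⟩
      rcases dich hn h1 hU with h | h | h
      · exact X_notMem_CL hn (h2.le _ h)
      · exact absurd (CC_le h1.le h) (not_le_of_gt h2)
      · exact TR_notMem_CL hn (h2.le _ h)
    · refine ⟨CR_mem_Ln hn, RS_lt_CR hn, ?_⟩
      rintro ⟨U, hU, h1, h2⟩
      rcases dich hn h1 hU with h | h | h
      · exact X_notMem_CR hn (h2.le _ h)
      · exact TL_notMem_CR hn (h2.le _ h)
      · exact absurd (CC_le h1.le h) (not_le_of_gt h2)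

/-! ### The covers outside `Ln n` -/

theorem Nil3_notMem_of_Ln {V : SgVariety} (h : V ∈ Ln n) : ¬ V.mem Nil3 := fun h' =>
  Nil3.not_sq n hn (h _ h')

theorem cyc_not_sq (p : ℕ) (hp : p.Prime) :
    ¬ SqIdentity n (Multiplicative (ZMod (p ^ (n.factorization p + 1)))) := by
  rw [cyc_sq]
  exact Nat.pow_succ_factorization_not_dvd (by omega) hp

theorem cyc_notMem_of_Ln {V : SgVariety} (h : V ∈ Ln n) (p : ℕ) (hp : p.Prime) :
    ¬ V.mem (Multiplicative (ZMod (p ^ (n.factorization p + 1)))) := fun h' =>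
  cyc_not_sq hn p hp (h _ h')

theorem RS_lt_CN : RS n < CC n Nil3 :=
  RS_lt_CC (mem_Ln_iff.1 (RS_sat hn).1) (fun h => Nil3.not_sq n hn (holds1_iff.1 h))

theorem RS_lt_CZ (p : ℕ) (hp : p.Prime) :
    RS n < CC n (Multiplicative (ZMod (p ^ (n.factorization p + 1)))) :=
  RS_lt_CC (mem_Ln_iff.1 (RS_sat hn).1) (fun h => cyc_not_sq hn p hp (holds1_iff.1 h))

theorem X_notMem_CN : ¬ (CC n Nil3).mem FactorXYX :=
  not_mem_CC (RS_sat hn).2.1 (Nil3.holds2 n) (FactorXYX.not_holds2 n hn)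
theorem TL_notMem_CN : ¬ (CC n Nil3).mem TL :=
  not_mem_CC (RS_sat hn).2.2 (Nil3.holds3 n) (TL.not_holds3 n hn)
theorem TR_notMem_CN : ¬ (CC n Nil3).mem TR :=
  not_mem_CC (RS_sat hn).2.2 (Nil3.holds3 n) (not_holds3_TR hn)

omit hn in
theorem cyc_pow3 {q : ℕ} (h : Holds (Multiplicative (ZMod q)) (B1 1) (B1 (n + 1))) :
    SqIdentity n (Multiplicative (ZMod q)) := by
  rw [holdsPow_iff] at h
  intro x
  have h1 := h x
  have e : ∀ k, (x : WithOne (Multiplicative (ZMod q))) ^ (k + 1) =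
      ((x ^ (k + 1) : Multiplicative (ZMod q)) : WithOne (Multiplicative (ZMod q))) := by
    intro k
    rw [← coe_pow', pow'_monoid]
  rw [show 1 + 2 = 2 + 1 by rfl, show n + 1 + 2 = (n + 2) + 1 by ring, e, e, WithOne.coe_inj,
    pow_succ, pow_succ x (n + 2)] at h1
  have h2 := mul_right_cancel h1
  rw [pow'_monoid, ← pow_two, h2]

theorem cyc_notMem_CN (p : ℕ) (hp : p.Prime) :
    ¬ (CC n Nil3).mem (Multiplicative (ZMod (p ^ (n.factorization p + 1)))) := by
  refine not_mem_CC (RS_satPow hn) (Nil3.holds_long (by simp [B1, lpow]) (by simp [B1, lpow])) ?_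
  exact fun h => cyc_not_sq hn p hp (cyc_pow3 h)

section cyc

variable (p : ℕ) (hp : p.Prime)
include hp

theorem exists_pred : ∃ k, p = k + 1 := ⟨p - 1, by have := hp.pos; omega⟩

theorem cyc_dvd : p ^ (n.factorization p + 1) ∣ n * p := by
  rw [pow_succ]
  exact mul_dvd_mul (Nat.ordProj_dvd n p) (dvd_refl p)

theorem X_notMem_CZ :
    ¬ (CC n (Multiplicative (ZMod (p ^ (n.factorization p + 1))))).mem FactorXYX := by
  obtain ⟨k, hk⟩ := exists_pred hn p hp
  have h0 := cyc_dvd hn p hp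
  have hN : 1 ≤ n * (k + 1) := Nat.mul_pos hn (Nat.succ_pos k)
  refine not_mem_CC (RS_satMul hn k).2.1 (cyc_holds2 (cyc_pow ?_)) (FactorXYX.not_holds2 _ hN)
  rw [← hk]; exact h0

theorem TL_notMem_CZ :
    ¬ (CC n (Multiplicative (ZMod (p ^ (n.factorization p + 1))))).mem TL := by
  obtain ⟨k, hk⟩ := exists_pred hn p hp
  have h0 := cyc_dvd hn p hp
  have hN : 1 ≤ n * (k + 1) := Nat.mul_pos hn (Nat.succ_pos k)
  refine not_mem_CC (RS_satMul hn k).2.2 (cyc_holds3 (cyc_pow ?_)) (TL.not_holds3 _ hN)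
  rw [← hk]; exact h0

theorem TR_notMem_CZ :
    ¬ (CC n (Multiplicative (ZMod (p ^ (n.factorization p + 1))))).mem TR := by
  obtain ⟨k, hk⟩ := exists_pred hn p hp
  have h0 := cyc_dvd hn p hp
  have hN : 1 ≤ n * (k + 1) := Nat.mul_pos hn (Nat.succ_pos k)
  refine not_mem_CC (RS_satMul hn k).2.2 (cyc_holds3 (cyc_pow ?_)) (not_holds3_TR hN)
  rw [← hk]; exact h0

theorem Nil3_notMem_CZ :
    ¬ (CC n (Multiplicative (ZMod (p ^ (n.factorization p + 1))))).mem Nil3 := by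
  obtain ⟨k, hk⟩ := exists_pred hn p hp
  have h0 := cyc_dvd hn p hp
  have hN : 1 ≤ n * (k + 1) := Nat.mul_pos hn (Nat.succ_pos k)
  refine not_mem_CC (RS_satMul hn k).1 (holds1_iff.2 (cyc_sq.2 ?_))
    (fun h => Nil3.not_sq _ hN (holds1_iff.1 h))
  rw [← hk]; exact h0

theorem cyc_notMem_CZ (q : ℕ) (hq : q.Prime) (hne : q ≠ p) :
    ¬ (CC n (Multiplicative (ZMod (p ^ (n.factorization p + 1))))).mem
      (Multiplicative (ZMod (q ^ (n.factorization q + 1)))) := by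
  obtain ⟨k, hk⟩ := exists_pred hn p hp
  have h0 := cyc_dvd hn p hp
  refine not_mem_CC (RS_satMul hn k).1 (holds1_iff.2 (cyc_sq.2 ?_)) ?_
  · rw [← hk]; exact h0
  · intro h
    rw [holds1_iff, cyc_sq, ← hk] at h
    have hcop : Nat.Coprime (q ^ (n.factorization q + 1)) p :=
      Nat.Coprime.pow_left _ ((Nat.coprime_primes hq hp).2 hne)
    exact Nat.pow_succ_factorization_not_dvd (by omega) hq
      (hcop.dvd_of_dvd_mul_right h)

end cyc

theorem covers_all (V : SgVariety) : IsCoverIn Set.univ (RS n) V ↔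
    V = CC n FactorXYX ∨ V = CC n TL ∨ V = CC n TR ∨ V = CC n Nil3 ∨
      ∃ p : ℕ, p.Prime ∧
        V = CC n (Multiplicative (ZMod (p ^ (n.factorization p + 1)))) := by
  have toL : ∀ C : SgVariety, IsCoverIn (Ln n) (RS n) C → IsCoverIn Set.univ (RS n) C := by
    intro C hC
    refine ⟨trivial, hC.2.1, ?_⟩
    rintro ⟨U, -, h1, h2⟩
    exact hC.2.2 ⟨U, fun S _ hS => hC.1 S (h2.le _ hS), h1, h2⟩
  constructor
  · intro hV
    rcases dich2 hn hV.2.1 with h | h | h | h | ⟨p, hp, h⟩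
    · exact Or.inl (eq_of_cover hn hV trivial (RS_lt_CX hn) (CC_le hV.2.1.le h))
    · exact Or.inr (Or.inl (eq_of_cover hn hV trivial (RS_lt_CL hn) (CC_le hV.2.1.le h)))
    · exact Or.inr (Or.inr (Or.inl (eq_of_cover hn hV trivial (RS_lt_CR hn)
        (CC_le hV.2.1.le h))))
    · exact Or.inr (Or.inr (Or.inr (Or.inl (eq_of_cover hn hV trivial (RS_lt_CN hn)
        (CC_le hV.2.1.le h)))))
    · exact Or.inr (Or.inr (Or.inr (Or.inr ⟨p, hp, eq_of_cover hn hV trivial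
        (RS_lt_CZ hn p hp) (CC_le hV.2.1.le h)⟩)))
  · rintro (h | h | h | rfl | ⟨p, hp, rfl⟩)
    · exact toL _ ((covers_Ln hn V).2 (Or.inl h))
    · exact toL _ ((covers_Ln hn V).2 (Or.inr (Or.inl h)))
    · exact toL _ ((covers_Ln hn V).2 (Or.inr (Or.inr h)))
    · refine ⟨trivial, RS_lt_CN hn, ?_⟩
      rintro ⟨U, -, h1, h2⟩
      rcases dich2 hn h1 with h | h | h | h | ⟨q, hq, h⟩
      · exact X_notMem_CN hn (h2.le _ h)
      · exact TL_notMem_CN hn (h2.le _ h)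
      · exact TR_notMem_CN hn (h2.le _ h)
      · exact absurd (CC_le h1.le h) (not_le_of_gt h2)
      · exact cyc_notMem_CN hn q hq (h2.le _ h)
    · refine ⟨trivial, RS_lt_CZ hn p hp, ?_⟩
      rintro ⟨U, -, h1, h2⟩
      rcases dich2 hn h1 with h | h | h | h | ⟨q, hq, h⟩
      · exact X_notMem_CZ hn p hp (h2.le _ h)
      · exact TL_notMem_CZ hn p hp (h2.le _ h)
      · exact TR_notMem_CZ hn p hp (h2.le _ h)
      · exact Nil3_notMem_CZ hn p hp (h2.le _ h)
      · by_cases hqp : q = p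
        · subst hqp
          exact absurd (CC_le h1.le h) (not_le_of_gt h2)
        · exact cyc_notMem_CZ hn p hp q hq hqp (h2.le _ h)

end Pool.Agent.RSCovers
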