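import Pool.Agent.RSCovers.Basis

set_option autoImplicit false

namespace Pool.Agent.RSCovers

/-! ## Rees matrix semigroups -/

/-- The Rees matrix semigroup with zero over `G` with index sets `Option ℕ` and sandwich
matrix `p`. -/
inductive RM (G : Type) (p : Option ℕ → Option ℕ → Option G) : Type
  | zero
  | el (i : Option ℕ) (g : G) (l : Option ℕ)

namespace RM

variable {G : Type} [Group G] {p : Option ℕ → Option ℕ → Option G}

/-- The product. -/
def mulFn : RM G p → RM G p → RM G p
  | zero, _ => zero
  | el _ _ _, zero => zero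
  | el i g l, el j h m =>
    match p l j with
    | some a => el i (g * a * h) m
    | none => zero

theorem mulFn_zero (a : RM G p) : mulFn a zero = zero := by
  cases a <;> rfl

instance : Semigroup (RM G p) where
  mul := mulFn
  mul_assoc := by
    rintro (_ | ⟨i, g, l⟩) (_ | ⟨j, h, m⟩) (_ | ⟨k, q, r⟩)
    · rfl
    · rfl
    · rfl
    · rfl
    · rfl
    · rfl
    · show mulFn (mulFn (el i g l) (el j h m)) zero = zero
      rw [mulFn_zero]
    · show mulFn (mulFn (el i g l) (el j h m)) (el k q r) =
        mulFn (el i g l) (mulFn (el j h m) (el k q r))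
      rcases h1 : p l j with _ | a <;> rcases h2 : p m k with _ | b <;>
        simp [mulFn, h1, h2, mul_assoc]

theorem zero_mul (a : RM G p) : zero * a = zero := rfl

theorem mul_zero (a : RM G p) : a * zero = zero := mulFn_zero a

theorem el_mul_el {i : Option ℕ} {g : G} {l j : Option ℕ} {h : G} {m : Option ℕ} {a : G}
    (hp : p l j = some a) :
    (el i g l : RM G p) * el j h m = el i (g * a * h) m := by
  show mulFn (el i g l) (el j h m) = _
  simp [mulFn, hp]

theorem el_mul_el' {i : Option ℕ} {g : G} {l j : Option ℕ} {h : G} {m : Option ℕ}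
    (hp : p l j = none) :
    (el i g l : RM G p) * el j h m = zero := by
  show mulFn (el i g l) (el j h m) = _
  simp [mulFn, hp]

theorem zeroSimple (h1 : ∀ l, ∃ j a, p l j = some a) (h2 : ∀ j, ∃ l a, p l j = some a) :
    IsZeroSimple (RM G p) := by
  refine ⟨zero, fun a => ⟨zero_mul a, mul_zero a⟩, ?_, ?_⟩
  · obtain ⟨j, a, hja⟩ := h1 none
    refine ⟨el j 1 none, el j 1 none, ?_⟩
    rw [el_mul_el hja]
    simp
  · intro I hI hcl
    by_cases hz : ∃ s ∈ I, s ≠ zero
    · right
      obtain ⟨s, hs, hne⟩ := hz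
      rcases s with _ | ⟨i, g, l⟩
      · exact absurd rfl hne
      · rw [Set.eq_univ_iff_forall]
        have key : ∀ (i' : Option ℕ) (g' : G) (l' : Option ℕ), el i' g' l' ∈ I := by
          intro i' g' l'
          obtain ⟨j, a, hja⟩ := h1 l
          obtain ⟨m, b, hmb⟩ := h2 i
          have e1 := (hcl _ hs (el i' 1 m)).1
          rw [el_mul_el hmb] at e1
          have e2 := (hcl _ e1 (el j (a⁻¹ * g⁻¹ * b⁻¹ * g') l')).2
          rw [el_mul_el hja] at e2
          convert e2 using 2
          group
        rintro (_ | ⟨i', g', l'⟩)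
        · have := (hcl _ (key i g l) zero).1
          rwa [zero_mul] at this
        · exact key _ _ _
    · left
      push Not at hz
      exact Set.eq_singleton_iff_nonempty_unique_mem.2 ⟨hI, hz⟩

theorem pow'_zero' (k : ℕ) : pow' (zero : RM G p) k = zero := by
  induction k with
  | zero => rfl
  | succ k ih => rw [pow', ih, zero_mul]

theorem sqIdentity {n : ℕ} (hG : ∀ g : G, g ^ n = 1) : SqIdentity n (RM G p) := by
  rintro (_ | ⟨i, g, l⟩)
  · rw [pow'_zero']; rfl
  · rcases hp : p l i with _ | a
    · have hk : ∀ k, pow' (el i g l : RM G p) (k + 1) = zero := by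
        intro k
        induction k with
        | zero => rw [pow', pow', el_mul_el' hp]
        | succ k ih => rw [pow', ih, zero_mul]
      rw [hk]
      exact el_mul_el' hp
    · have hk : ∀ k, pow' (el i g l : RM G p) k = el i ((g * a) ^ k * g) l := by
        intro k
        induction k with
        | zero => rw [pow', pow_zero, one_mul]
        | succ k ih => rw [pow', ih, el_mul_el hp, pow_succ]; simp only [mul_assoc]
      rw [hk, pow_succ, hG, one_mul]
      exact el_mul_el hp

end RM

theorem lift_cons {S : Type} [Semigroup S] (f : ℕ → S) (x y : ℕ) (t : List ℕ) :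
    FreeSemigroup.lift f ⟨x, y :: t⟩ = f x * FreeSemigroup.lift f ⟨y, t⟩ := by
  have : (⟨x, y :: t⟩ : Word) = FreeSemigroup.of x * ⟨y, t⟩ := rfl
  rw [this, map_mul, FreeSemigroup.lift_of]

section eval

variable {G : Type} [Group G] (E : Set (ℕ × ℕ)) (P : ℕ → ℕ → G)

open Classical in
/-- The sandwich matrix with entries `P` on the edges `E`, and a row and a column of ones. -/
noncomputable def mat : Option ℕ → Option ℕ → Option G
  | none, _ => some 1
  | some _, none => some 1
  | some y, some z => if (y, z) ∈ E then some (P y z) else none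

theorem mat_h1 (l : Option ℕ) : ∃ j a, mat E P l j = some a := by
  cases l <;> exact ⟨none, 1, rfl⟩

theorem mat_h2 (j : Option ℕ) : ∃ l a, mat E P l j = some a := ⟨none, 1, rfl⟩

/-- The assignment. -/
def asg (y : ℕ) : RM G (mat E P) := RM.el (some y) 1 (some y)

theorem eval_pos (x : ℕ) (t : List ℕ) (h : edges x t ⊆ E) :
    FreeSemigroup.lift (asg E P) ⟨x, t⟩ =
      RM.el (some x) (wt P x t) (some (lst x t)) := by
  induction t generalizing x with
  | nil => rfl
  | cons y t ih =>
    rw [edges_cons] at h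
    have h1 : (x, y) ∈ E := h (Set.mem_insert _ _)
    have h2 := (Set.subset_insert _ _).trans h
    have hm : mat E P (some x) (some y) = some (P x y) := by simp [mat, h1]
    rw [lift_cons, ih y h2, asg, RM.el_mul_el hm]
    simp

theorem eval_neg (x : ℕ) (t : List ℕ) (h : ¬ edges x t ⊆ E) :
    FreeSemigroup.lift (asg E P) ⟨x, t⟩ = RM.zero := by
  induction t generalizing x with
  | nil => simp at h
  | cons y t ih =>
    rw [lift_cons]
    by_cases h2 : edges y t ⊆ E
    · have h1 : (x, y) ∉ E := fun h1 => h (by rw [edges_cons]; exact Set.insert_subset h1 h2)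
      have hm : mat E P (some x) (some y) = none := by simp [mat, h1]
      rw [eval_pos E P y t h2, asg, RM.el_mul_el' hm]
    · rw [ih y h2, RM.mul_zero]

theorem holds_RM_aux (u v : Word) (h : Holds (RM G (mat E P)) u v)
    (hu : edges u.head u.tail ⊆ E) :
    edges v.head v.tail ⊆ E ∧ u.head = v.head ∧ lst u.head u.tail = lst v.head v.tail ∧
      wt P u.head u.tail = wt P v.head v.tail := by
  have h1 := h (asg E P)
  have h2 := eval_pos E P u.head u.tail hu
  by_cases hv : edges v.head v.tail ⊆ E
  · have h3 := eval_pos E P v.head v.tail hv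
    have h4 := (h2.symm.trans h1).trans h3
    rw [RM.el.injEq, Option.some.injEq, Option.some.injEq] at h4
    exact ⟨hv, h4.1, h4.2.2, h4.2.1⟩
  · have h3 := eval_neg E P v.head v.tail hv
    have h4 := (h2.symm.trans h1).trans h3
    exact absurd h4 (by simp)

end eval

theorem inv_of_holds {n : ℕ} {u v : Word}
    (h : ∀ (T : Type) [Semigroup T], IsZeroSimple T ∧ SqIdentity n T → Holds T u v) :
    u.head = v.head ∧ Inv n u.head u.tail v.tail := by
  have hh : ∀ (G : Type) [Group G], (∀ g : G, g ^ n = 1) → ∀ (E : Set (ℕ × ℕ)) (P : ℕ → ℕ → G),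
      Holds (RM G (mat E P)) u v := fun G _ hG E P =>
    h _ ⟨RM.zeroSimple (mat_h1 E P) (mat_h2 E P), RM.sqIdentity hG⟩
  have h1 := holds_RM_aux _ _ _ _ (hh Unit (fun _ => rfl) (edges u.head u.tail) (fun _ _ => 1))
    (le_refl _)
  have h2 := holds_RM_aux _ _ v u
    (fun f => (hh Unit (fun _ => rfl) (edges v.head v.tail) (fun _ _ => 1) f).symm) (le_refl _)
  refine ⟨h1.2.1, ?_, ?_, ?_⟩
  · rw [h1.2.2.1, ← h1.2.1]
  · have h3 := Set.Subset.antisymm h2.1 h1.1
    rw [← h1.2.1] at h3
    exact h3
  · intro G _ hG P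
    have h3 := holds_RM_aux _ _ _ _ (hh G hG (edges u.head u.tail) P) (le_refl _)
    rw [h3.2.2.2, ← h1.2.1]

/-! ## The identities in 0-simple semigroups -/

section zeroSimple

variable {S : Type} [Semigroup S] {n : ℕ}

theorem coe_pow' (x : S) (k : ℕ) : ((pow' x k : S) : WithOne S) = (x : WithOne S) ^ (k + 1) := by
  induction k with
  | zero => simp [pow']
  | succ k ih => rw [pow', WithOne.coe_mul, ih, ← pow_succ]

theorem sq_coe (h : SqIdentity n S) (s : WithOne S) : s ^ (n + 2) = s ^ 2 := by
  induction s with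
  | one => simp
  | coe a =>
    have := congrArg (fun a : S => (a : WithOne S)) (h a)
    simp only [WithOne.coe_mul, coe_pow'] at this
    rw [pow_two, this]

theorem pow_add_n {M : Type} [Monoid M] {n : ℕ} {s : M} (h : s ^ (n + 2) = s ^ 2) (k : ℕ)
    (hk : 2 ≤ k) : s ^ (k + n) = s ^ k := by
  obtain ⟨k, rfl⟩ := Nat.exists_eq_add_of_le' hk
  rw [show k + 2 + n = k + (n + 2) by ring, pow_add, h, ← pow_add]

/-- The trick (T). -/
theorem trick (h : SqIdentity n S) {x s t : WithOne S} (hx : x = s * x * t) :
    x = s ^ n * x ∧ x = x * t ^ n := by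
  have h2 : x = s ^ 2 * x * t ^ 2 := by
    conv_lhs => rw [hx, hx]
    rw [pow_two, pow_two]; simp only [mul_assoc]
  constructor
  · conv_lhs => rw [h2, ← sq_coe h s, add_comm, pow_add, pow_mul_comm]
    rw [mul_assoc, mul_assoc, ← mul_assoc (s ^ 2), ← h2]
  · conv_lhs => rw [h2, ← sq_coe h t, add_comm, pow_add, ← mul_assoc, ← h2]

theorem key_zeroSimple (hn : 1 ≤ n) (h : SqIdentity n S) {o : S}
    (hid : ∀ I : Set S, I.Nonempty → (∀ a ∈ I, ∀ s : S, s * a ∈ I ∧ a * s ∈ I) →
      I = {o} ∨ I = Set.univ) (x : S) (y : WithOne S)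
    (hne : (x : WithOne S) * (y * x) ≠ o) : (x : WithOne S) * (y * x) ^ n = x := by
  obtain ⟨a, ha⟩ : ∃ a : S, (x : WithOne S) * (y * x) = a := by
    induction y with
    | one => exact ⟨x * x, by simp⟩
    | coe b => exact ⟨x * (b * x), by simp⟩
  have hao : a ≠ o := fun h => hne (by rw [ha, h])
  -- the ideal generated by `a`
  have hx : ∃ p q : WithOne S, (x : WithOne S) = p * a * q := by
    have := hid {b : S | ∃ p q : WithOne S, (b : WithOne S) = p * a * q}
      ⟨a, 1, 1, by simp⟩ (by
        rintro b ⟨p, q, hb⟩ s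
        exact ⟨⟨s * p, q, by rw [WithOne.coe_mul, hb]; simp only [mul_assoc]⟩,
          ⟨p, q * s, by rw [WithOne.coe_mul, hb]; simp only [mul_assoc]⟩⟩)
    rcases this with h1 | h1
    · have : a ∈ {b : S | ∃ p q : WithOne S, (b : WithOne S) = p * a * q} := ⟨1, 1, by simp⟩
      rw [h1] at this
      exact absurd this hao
    · have : x ∈ {b : S | ∃ p q : WithOne S, (b : WithOne S) = p * a * q} := by
        rw [h1]; trivial
      exact this
  obtain ⟨p, q, hpq⟩ := hx
  rw [← ha] at hpq
  have h1 := (trick h (x := (x : WithOne S)) (s := p * x * y) (t := q)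
    (by rw [hpq.symm.symm] ; conv_lhs => rw [hpq]
        simp only [mul_assoc])).1
  have h2 : (x : WithOne S) = ((p * x * y) ^ (n - 1) * p) * x * (y * x) := by
    conv_lhs => rw [h1]
    have : n = (n - 1) + 1 := by omega
    conv_lhs => rw [this, pow_succ]
    simp only [mul_assoc]
  exact ((trick h h2).2).symm

theorem sys_of_zeroSimple (hn : 1 ≤ n) (h0 : IsZeroSimple S) (h : SqIdentity n S) :
    Sys n S := by
  obtain ⟨o, ho, -, hid⟩ := h0
  have oM : ∀ m : WithOne S, (o : WithOne S) * m = o := by
    intro m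
    induction m with
    | one => simp
    | coe a => rw [← WithOne.coe_mul, (ho a).1]
  have Mo : ∀ m : WithOne S, m * (o : WithOne S) = o := by
    intro m
    induction m with
    | one => simp
    | coe a => rw [← WithOne.coe_mul, (ho a).2]
  constructor
  · intro x y
    by_cases hne : (x : WithOne S) * (y * x) = o
    · rw [pow_succ', ← mul_assoc, hne, oM]
    · rw [pow_succ, ← mul_assoc, key_zeroSimple hn h hid x y hne]
  · intro x y z
    by_cases hne : (x : WithOne S) * (z * x) = o
    · have : (x : WithOne S) * (z * x) ^ n = o := by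
        obtain ⟨m, rfl⟩ := Nat.exists_eq_add_of_le' hn
        rw [pow_succ', ← mul_assoc, hne, oM]
      rw [this, oM, mul_assoc, mul_assoc, this, Mo, Mo]
    · have := key_zeroSimple hn h hid x z hne
      rw [this, mul_assoc, mul_assoc, this]

end zeroSimple

end Pool.Agent.RSCovers
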