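import Pool.Agent.RSCovers.TLWord

set_option autoImplicit false

namespace Pool.Agent.RSCovers

/-- The value of a word in two elements. -/
def evB {M : Type} [Monoid M] (b c : M) : List Bool → M
  | [] => 1
  | true :: m => b * evB b c m
  | false :: m => c * evB b c m

theorem evB_append {M : Type} [Monoid M] (b c : M) (l l' : List Bool) :
    evB b c (l ++ l') = evB b c l * evB b c l' := by
  induction l with
  | nil => simp [evB]
  | cons a l ih => cases a <;> simp [evB, ih, mul_assoc]

theorem evB_map {M N : Type} [Monoid M] [Monoid N] (φ : M →* N) (b c : M) (l : List Bool) :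
    φ (evB b c l) = evB (φ b) (φ c) l := by
  induction l with
  | nil => simp [evB]
  | cons a l ih => cases a <;> simp [evB, ih]

theorem ev_code {S : Type} [Semigroup S] (f : ℕ → S) (l : List Bool) :
    ev f (code l) = evB ((f 1 : WithOne S) * f 0) ((f 2 : WithOne S) * f 0) l := by
  induction l with
  | nil => rfl
  | cons a l ih => cases a <;> simp [evB, code, ih, mul_assoc]

theorem reverse_code (l : List Bool) : (code l).reverse ++ [0] = 0 :: code l.reverse := by
  induction l with
  | nil => rfl
  | cons a l ih =>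
    cases a
    · rw [code, List.reverse_cons, List.reverse_cons, List.reverse_cons, code_append, ih]
      simp [code]
    · rw [code, List.reverse_cons, List.reverse_cons, List.reverse_cons, code_append, ih]
      simp [code]

theorem rev_code (l : List Bool) : rev ⟨0, code l⟩ = ⟨0, code l.reverse⟩ := by
  apply toL_inj
  rw [toL_rev]
  show (0 :: code l).reverse = _
  rw [List.reverse_cons, reverse_code]
  rfl

theorem evB_left {M : Type} [Monoid M] {b c : M} (h1 : b * b = b) (h2 : b * c = b)
    (l : List Bool) : b * evB b c l = b := by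
  induction l with
  | nil => simp [evB]
  | cons a l ih => cases a <;> simp [evB, ← mul_assoc, h1, h2, ih]

theorem evB_left' {M : Type} [Monoid M] {b c : M} (h1 : c * b = c) (h2 : c * c = c)
    (l : List Bool) : c * evB b c l = c := by
  induction l with
  | nil => simp [evB]
  | cons a l ih => cases a <;> simp [evB, ← mul_assoc, h1, h2, ih]

theorem evB_right {M : Type} [Monoid M] {b c : M} (h1 : b * b = b) (h2 : c * b = b)
    (l : List Bool) : evB b c l * b = b := by
  induction l with
  | nil => simp [evB]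
  | cons a l ih => cases a <;> simp [evB, mul_assoc, h1, h2, ih]

theorem evB_right' {M : Type} [Monoid M] {b c : M} (h1 : b * c = c) (h2 : c * c = c)
    (l : List Bool) : evB b c l * c = c := by
  induction l with
  | nil => simp [evB]
  | cons a l ih => cases a <;> simp [evB, mul_assoc, h1, h2, ih]

/-- The abstract form of the third step. -/
theorem central_of {Q : Type} [Monoid Q] {n : ℕ} (hn : 1 ≤ n) (pw : ∀ a : Q, a ^ (n + 1) = a)
    (I : Set Q) (hI : ∀ a ∈ I, ∀ b : Q, a * b ∈ I ∧ b * a ∈ I) {m m' l l' : List Bool}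
    (hL : ∀ b ∈ I, ∀ c ∈ I, b * evB b c m = c * evB b c m')
    (hR : ∀ b ∈ I, ∀ c ∈ I, evB b c l * b = evB b c l' * c) :
    ∀ a ∈ I, ∀ c : Q, a * c ^ n = c ^ n * a := by
  obtain ⟨k, rfl⟩ := Nat.exists_eq_add_of_le' hn
  have idem : ∀ a : Q, a ^ (k + 1) * a ^ (k + 1) = a ^ (k + 1) := by
    intro a
    rw [pow_succ a, mul_assoc, ← mul_assoc a, ← pow_succ', ← pow_succ, pw]
  have mulp : ∀ a : Q, a * a ^ (k + 1) = a := fun a => by rw [← pow_succ', pw]
  have pmul : ∀ a : Q, a ^ (k + 1) * a = a := fun a => by rw [← pow_succ, pw]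
  have powI : ∀ a ∈ I, a ^ (k + 1) ∈ I := by
    intro a ha
    rw [pow_succ']
    exact (hI a ha _).1
  intro a ha c
  have h1 : c ^ (k + 1) * a = c ^ (k + 1) * a * c ^ (k + 1) := by
    have hee := idem c
    generalize c ^ (k + 1) = e at hee
    have hu : e * a ∈ I := (hI a ha e).2
    have hf : (e * a) ^ (k + 1) ∈ I := powI _ hu
    have hff := idem (e * a)
    have huf := mulp (e * a)
    have hef : e * (e * a) ^ (k + 1) = (e * a) ^ (k + 1) := by
      rw [pow_succ' (e * a), ← mul_assoc, ← mul_assoc, hee]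
    generalize (e * a) ^ (k + 1) = f at hf hff hef huf
    have hh : f * e ∈ I := (hI f hf e).1
    have hfh : f * (f * e) = f * e := by rw [← mul_assoc, hff]
    have hhf : (f * e) * f = f := by rw [mul_assoc, hef, hff]
    have hhh : (f * e) * (f * e) = f * e := by rw [mul_assoc, ← mul_assoc e, hef, hfh]
    have := hR f hf (f * e) hh
    rw [evB_right hff hhf, evB_right' hfh hhh] at this
    -- f = f * e
    calc e * a = (e * a) * f := huf.symm
      _ = (e * a) * (f * e) := by rw [← this]
      _ = e * a * e := by rw [← mul_assoc, huf]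
  have h2 : a * c ^ (k + 1) = c ^ (k + 1) * a * c ^ (k + 1) := by
    have hee := idem c
    generalize c ^ (k + 1) = e at hee
    have hu : a * e ∈ I := (hI a ha e).1
    have hf : (a * e) ^ (k + 1) ∈ I := powI _ hu
    have hff := idem (a * e)
    have huf := pmul (a * e)
    have hef : (a * e) ^ (k + 1) * e = (a * e) ^ (k + 1) := by
      rw [pow_succ (a * e), mul_assoc, mul_assoc, hee]
    generalize (a * e) ^ (k + 1) = f at hf hff hef huf
    have hh : e * f ∈ I := (hI f hf e).2
    have hfh : f * (e * f) = f := by rw [← mul_assoc, hef, hff]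
    have hhf : (e * f) * f = e * f := by rw [mul_assoc, hff]
    have hhh : (e * f) * (e * f) = e * f := by rw [mul_assoc, hfh]
    have := hL f hf (e * f) hh
    rw [evB_left hff hfh, evB_left' hhf hhh] at this
    calc a * e = f * (a * e) := huf.symm
      _ = (e * f) * (a * e) := by rw [← this]
      _ = e * a * e := by rw [mul_assoc, huf, mul_assoc]
  rw [h1, h2]

variable {S : Type} [Semigroup S] {n : ℕ}

theorem h2_of (h1 : SqIdentity n S) (h2 : Holds S A2 (B2 n)) (x : S) (y : WithOne S) :
    (x : WithOne S) * (y * x) ^ (n + 1) = x * (y * x) := by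
  rw [holds2_iff] at h2
  have rot : ∀ (a b : WithOne S) (k : ℕ), a * (b * a) ^ k = (a * b) ^ k * a := by
    intro a b k
    induction k with
    | zero => simp
    | succ k ih => rw [pow_succ', pow_succ', mul_assoc (a * b), ← ih]; simp only [mul_assoc]
  induction y with
  | one =>
    have := sq_coe h1 (x : WithOne S)
    rw [pow_two, show n + 2 = (n + 1) + 1 by ring, pow_succ'] at this
    simpa using this
  | coe y => rw [rot, ← h2 x y]

theorem coe_mul_any (s : S) (m : WithOne S) : ∃ s' : S, (s : WithOne S) * m = s' := by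
  induction m with
  | one => exact ⟨s, by simp⟩
  | coe a => exact ⟨s * a, by simp⟩

theorem any_mul_coe (s : S) (m : WithOne S) : ∃ s' : S, m * (s : WithOne S) = s' := by
  induction m with
  | one => exact ⟨s, by simp⟩
  | coe a => exact ⟨a * s, by simp⟩

/-- The ideal of `Qx x` of the classes of the elements `s * x`. -/
def Ix (x : S) : Set (Qx x) :=
  {q | ∃ (s : S) (h : (s : WithOne S) * x ∈ Np x), q = ((⟨_, h⟩ : Np x) : Qx x)}

theorem Ix_ideal (x : S) : ∀ a ∈ Ix x, ∀ b : Qx x, a * b ∈ Ix x ∧ b * a ∈ Ix x := by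
  rintro a ⟨s, hs, rfl⟩ b
  induction b using Con.induction_on with
  | _ b =>
  constructor
  · rcases b.2 with hb | ⟨m, hb⟩
    · refine ⟨s, hs, ?_⟩
      rw [← Con.coe_mul]
      congr 1
      apply Subtype.ext
      simp [hb]
    · obtain ⟨s', hs'⟩ := coe_mul_any s ((x : WithOne S) * m)
      refine ⟨s', Or.inr ⟨s', rfl⟩, ?_⟩
      rw [← Con.coe_mul]
      congr 1
      apply Subtype.ext
      simp only [Submonoid.coe_mul]
      rw [hb, ← hs']
      simp only [mul_assoc]
  · obtain ⟨s', hs'⟩ := any_mul_coe s (b : WithOne S)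
    refine ⟨s', Or.inr ⟨s', rfl⟩, ?_⟩
    rw [← Con.coe_mul]
    congr 1
    apply Subtype.ext
    simp only [Submonoid.coe_mul]
    rw [← hs']
    simp only [mul_assoc]

theorem evB_Qx {x : S} {b c : Np x} {l l' : List Bool} :
    (evB (b : Qx x) (c : Qx x) l = evB (b : Qx x) (c : Qx x) l') ↔
      (x : WithOne S) * evB (b : WithOne S) (c : WithOne S) l = x * evB (b : WithOne S) c l' := by
  have h1 := evB_map (cong x).mk' b c l
  have h2 := evB_map (cong x).mk' b c l'
  have h3 := evB_map (Np x).subtype b c l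
  have h4 := evB_map (Np x).subtype b c l'
  simp only [Con.coe_mk', Submonoid.coe_subtype] at h1 h2 h3 h4
  rw [← h1, ← h2, Qx_eq, h3, h4]

/-- (1), (2), an identity violated by `TL` and one violated by `TR` give (3). -/
theorem step3 (hn : 1 ≤ n) (h1 : SqIdentity n S) (h2 : Holds S A2 (B2 n))
    {m m' l l' : List Bool}
    (hL : Holds S ⟨0, code (true :: m)⟩ ⟨0, code (false :: m')⟩)
    (hR : Holds S ⟨0, code (l ++ [true])⟩ ⟨0, code (l' ++ [false])⟩) :
    Holds S (A3 n) (B3 n) := by
  rw [holds3_iff]
  intro x y z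
  have conv : ∀ l l' : List Bool, Holds S ⟨0, code l⟩ ⟨0, code l'⟩ →
      ∀ b ∈ Ix x, ∀ c ∈ Ix x, evB b c l = evB b c l' := by
    rintro l l' h b ⟨s, hs, rfl⟩ c ⟨s', hs', rfl⟩
    rw [evB_Qx]
    rw [holds_iff] at h
    have := h (sub3 x s s')
    simp only [ev_cons, ev_code] at this
    simpa [sub3] using this
  have pw : ∀ a : Qx x, a ^ (n + 1) = a := by
    intro a
    induction a using Con.induction_on with
    | _ a =>
    rw [← Qx_pow, Qx_eq, SubmonoidClass.coe_pow]
    rcases a.2 with ha | ⟨m, ha⟩
    · rw [ha]; simp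
    · rw [ha, h2_of h1 h2]
  have hL' : ∀ b ∈ Ix x, ∀ c ∈ Ix x, b * evB b c m = c * evB b c m' := fun b hb c hc =>
    conv _ _ hL b hb c hc
  have hR' : ∀ b ∈ Ix x, ∀ c ∈ Ix x, evB b c l * b = evB b c l' * c := by
    intro b hb c hc
    have := conv _ _ hR b hb c hc
    rw [evB_append, evB_append] at this
    simpa [evB] using this
  have hy : (y : WithOne S) * x ∈ Np x := Or.inr ⟨y, rfl⟩
  have hz : (z : WithOne S) * x ∈ Np x := Or.inr ⟨z, rfl⟩
  have := central_of hn pw (Ix x) (Ix_ideal x) hL' hR' _ ⟨y, hy, rfl⟩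
    (((⟨_, hz⟩ : Np x)) : Qx x)
  rw [← Qx_pow, ← Con.coe_mul, ← Con.coe_mul, Qx_eq] at this
  simp only [Submonoid.coe_mul, SubmonoidClass.coe_pow] at this
  simpa only [mul_assoc] using this

end Pool.Agent.RSCovers
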