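import Pool.Agent.RSCovers.Dual

set_option autoImplicit false

namespace Pool.Agent.RSCovers

/-! ## Words over `{0, 1, 2}` in which `0` alternates with `1, 2` -/

/-- The word with blocks `10` (for `true`) and `20` (for `false`). -/
def code : List Bool → List ℕ
  | [] => []
  | true :: m => 1 :: 0 :: code m
  | false :: m => 2 :: 0 :: code m

theorem code_append (m m' : List Bool) : code (m ++ m') = code m ++ code m' := by
  induction m with
  | nil => rfl
  | cons a m ih => cases a <;> simp [code, ih]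

/-- `[0]` if `c`. -/
def pre0 (c : Bool) : List ℕ := if c then [0] else []

/-- `[0]` if not `d`. -/
def suf0 (d : Bool) : List ℕ := if d then [] else [0]

namespace TL

/-- Does the element begin with `x`? -/
def c1 : TL → Bool
  | zero => true
  | x => true
  | el i _ => i.isX

/-- Does the element end with `x`? -/
def c2 : TL → Bool
  | zero => true
  | x => true
  | el _ e => e

theorem mul_ne_zero_iff (s t : TL) : s * t ≠ zero ↔ s ≠ zero ∧ t ≠ zero ∧ c2 s ≠ c1 t := by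
  revert s t
  rintro (_ | _ | ⟨_ | _ | _ | _, _ | _⟩) (_ | _ | ⟨_ | _ | _ | _, _ | _⟩) <;>
    simp [HMul.hMul, Mul.mul, mulFn, c1, c2, Start.isX]

theorem c1_mul {s t : TL} (h : s * t ≠ zero) : c1 (s * t) = c1 s := by
  revert h; revert s t
  rintro (_ | _ | ⟨_ | _ | _ | _, _ | _⟩) (_ | _ | ⟨_ | _ | _ | _, _ | _⟩) <;>
    simp [HMul.hMul, Mul.mul, mulFn, c1, Start.isX]

theorem c2_mul {s t : TL} (h : s * t ≠ zero) : c2 (s * t) = c2 t := by
  revert h; revert s t
  rintro (_ | _ | ⟨_ | _ | _ | _, _ | _⟩) (_ | _ | ⟨_ | _ | _ | _, _ | _⟩) <;>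
    simp [HMul.hMul, Mul.mul, mulFn, c2, Start.isX]

theorem el_mul {i : Start} {e : Bool} {t : TL} (h : el i e * t ≠ zero) :
    el i e * t = el i (c2 t) := by
  revert h; revert i e t
  rintro (_ | _ | _ | _) (_ | _) (_ | _ | ⟨_ | _ | _ | _, _ | _⟩) <;>
    simp [HMul.hMul, Mul.mul, mulFn, c2, Start.isX]

/-- A word representing an element. -/
def rep : TL → Word
  | zero => ⟨0, []⟩
  | x => ⟨0, []⟩
  | el Start.xy false => ⟨0, [1]⟩
  | el Start.xy true => ⟨0, [1, 0]⟩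
  | el Start.xz false => ⟨0, [2]⟩
  | el Start.xz true => ⟨0, [2, 0]⟩
  | el Start.y false => ⟨1, []⟩
  | el Start.y true => ⟨1, [0]⟩
  | el Start.z false => ⟨2, []⟩
  | el Start.z true => ⟨2, [0]⟩

theorem rep_type {s : TL} (h : s ≠ zero) :
    ∃ m, toL (rep s) ++ suf0 (c2 s) = pre0 (c1 s) ++ code m := by
  revert h; revert s
  rintro (_ | _ | ⟨_ | _ | _ | _, _ | _⟩) h
  · exact absurd rfl h
  · exact ⟨[], rfl⟩
  · exact ⟨[true], rfl⟩
  · exact ⟨[true], rfl⟩
  · exact ⟨[false], rfl⟩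
  · exact ⟨[false], rfl⟩
  · exact ⟨[true], rfl⟩
  · exact ⟨[true], rfl⟩
  · exact ⟨[false], rfl⟩
  · exact ⟨[false], rfl⟩

theorem P1 (f : ℕ → TL) (a : ℕ) (t : List ℕ) (h0 : f a ≠ zero)
    (h : ∀ b c, (b, c) ∈ edges a t → f b * f c ≠ zero) :
    FreeSemigroup.lift f ⟨a, t⟩ ≠ zero ∧ c1 (FreeSemigroup.lift f ⟨a, t⟩) = c1 (f a) ∧
      c2 (FreeSemigroup.lift f ⟨a, t⟩) = c2 (f (lst a t)) := by
  induction t generalizing a with
  | nil => exact ⟨h0, rfl, rfl⟩
  | cons b t ih =>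
    have hab := h a b (by simp)
    have hab' := (mul_ne_zero_iff _ _).1 hab
    obtain ⟨h1, h2, h3⟩ := ih b hab'.2.1 (fun c d hcd => h c d (by simp [hcd]))
    rw [lift_cons]
    have hne : f a * FreeSemigroup.lift f ⟨b, t⟩ ≠ zero :=
      (mul_ne_zero_iff _ _).2 ⟨h0, h1, by rw [h2]; exact hab'.2.2⟩
    exact ⟨hne, c1_mul hne, by rw [c2_mul hne, h3, lst_cons]⟩

theorem P2 (f : ℕ → TL) (a : ℕ) (t : List ℕ) (h : FreeSemigroup.lift f ⟨a, t⟩ ≠ zero) :
    f a ≠ zero ∧ ∀ b c, (b, c) ∈ edges a t → f b * f c ≠ zero := by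
  induction t generalizing a with
  | nil => exact ⟨h, by simp⟩
  | cons b t ih =>
    rw [lift_cons] at h
    obtain ⟨h1, h2, h3⟩ := (mul_ne_zero_iff _ _).1 h
    obtain ⟨h4, h5⟩ := ih b h2
    have h6 := (P1 f b t h4 h5).2.1
    refine ⟨h1, fun c d hcd => ?_⟩
    rw [edges_cons, Set.mem_insert_iff, Prod.mk.injEq] at hcd
    rcases hcd with ⟨rfl, rfl⟩ | hcd
    · exact (mul_ne_zero_iff _ _).2 ⟨h1, h4, by rw [← h6]; exact h3⟩
    · exact h5 c d hcd

theorem lift_type (f : ℕ → TL) (a : ℕ) (t : List ℕ) (h0 : f a ≠ zero)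
    (h : ∀ b c, (b, c) ∈ edges a t → f b * f c ≠ zero) :
    ∃ m, toL (FreeSemigroup.lift (fun b => rep (f b)) ⟨a, t⟩) ++ suf0 (c2 (f (lst a t))) =
      pre0 (c1 (f a)) ++ code m := by
  induction t generalizing a with
  | nil => exact rep_type h0
  | cons b t ih =>
    have hab := (mul_ne_zero_iff _ _).1 (h a b (by simp))
    obtain ⟨m, hm⟩ := ih b hab.2.1 (fun c d hcd => h c d (by simp [hcd]))
    obtain ⟨m0, hm0⟩ := rep_type h0
    refine ⟨m0 ++ m, ?_⟩
    rw [lift_cons, toL_mul, lst_cons, List.append_assoc, hm, code_append, ← List.append_assoc,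
      ← List.append_assoc, ← hm0]
    have h3 := hab.2.2
    revert h3
    generalize c2 (f a) = d
    generalize c1 (f b) = d'
    intro h3
    cases d <;> cases d' <;> simp_all [suf0, pre0]

theorem lift_el (f : ℕ → TL) (a : ℕ) (t : List ℕ) (h0 : f a ≠ zero)
    (h : ∀ b c, (b, c) ∈ edges a t → f b * f c ≠ zero) {i : Start} {e : Bool}
    (hf : f a = el i e) :
    FreeSemigroup.lift f ⟨a, t⟩ = el i (c2 (f (lst a t))) := by
  obtain ⟨h1, -, h2⟩ := P1 f a t h0 h
  rcases t with _ | ⟨b, t⟩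
  · show f a = _
    rw [lst_nil, hf]; rfl
  · rw [lift_cons, hf] at h1 h2 ⊢
    have h3 := el_mul h1
    rw [h3] at h2 ⊢
    rw [← h2]; rfl

/-- The first letters after a suffix that completes the last block. -/
theorem finish (f : ℕ → TL) (a : ℕ) (t : List ℕ) (h0 : f a ≠ zero)
    (h : ∀ b c, (b, c) ∈ edges a t → f b * f c ≠ zero) (hc : c1 (f a) = false) (s : Word)
    (hs : s = if c2 (f (lst a t)) then ⟨1, [0]⟩ else ⟨0, []⟩) :
    ∃ m, toL (FreeSemigroup.lift (fun b => rep (f b)) ⟨a, t⟩) ++ toL s = code m := by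
  obtain ⟨m, hm⟩ := lift_type f a t h0 h
  rw [hc] at hm
  cases hd : c2 (f (lst a t))
  · rw [hd] at hm hs
    subst hs
    exact ⟨m, hm⟩
  · rw [hd] at hm hs
    subst hs
    refine ⟨m ++ [true], ?_⟩
    have hm2 : toL (FreeSemigroup.lift (fun b => rep (f b)) ⟨a, t⟩) = code m := by
      simpa [suf0, pre0] using hm
    rw [code_append, hm2]
    rfl

theorem head_lift (f : ℕ → TL) (a : ℕ) (t : List ℕ) :
    ∃ l, toL (FreeSemigroup.lift (fun b => rep (f b)) ⟨a, t⟩) = (rep (f a)).head :: l := by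
  rcases t with _ | ⟨b, t⟩
  · exact ⟨_, rfl⟩
  · rw [lift_cons]; exact ⟨_, rfl⟩

end TL

open TL in
/-- The word lemma for `TL`. -/
theorem TL_word {u v : Word} (hh : u.head = v.head)
    (hl : lst u.head u.tail = lst v.head v.tail)
    (he : edges u.head u.tail = edges v.head v.tail) (hf : ¬ Holds TL u v) :
    ∃ (σ : ℕ → Word) (s : Word) (m m' : List Bool),
      (toL (FreeSemigroup.lift σ u * s) = 0 :: 1 :: 0 :: code m ∧
        toL (FreeSemigroup.lift σ v * s) = 0 :: 2 :: 0 :: code m') ∨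
      (toL (FreeSemigroup.lift σ v * s) = 0 :: 1 :: 0 :: code m ∧
        toL (FreeSemigroup.lift σ u * s) = 0 :: 2 :: 0 :: code m') := by
  unfold Holds at hf
  push Not at hf
  obtain ⟨f, hf⟩ := hf
  obtain ⟨p, t⟩ := u
  obtain ⟨p', t'⟩ := v
  simp only at hh hl he
  subst hh
  by_cases hz : f p ≠ zero ∧ ∀ b c, (b, c) ∈ edges p t → f b * f c ≠ zero
  swap
  · exfalso
    have h1 : FreeSemigroup.lift f ⟨p, t⟩ = zero := by
      by_contra h; exact hz (P2 f p t h)
    have h2 : FreeSemigroup.lift f ⟨p, t'⟩ = zero := by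
      by_contra h
      have := P2 f p t' h
      rw [← he] at this
      exact hz this
    exact hf (h1.trans h2.symm)
  obtain ⟨h0, h1⟩ := hz
  have h1' : ∀ b c, (b, c) ∈ edges p t' → f b * f c ≠ zero := by rw [← he]; exact h1
  rcases hp : f p with _ | _ | ⟨i, e⟩
  · exact absurd hp h0
  swap
  · exfalso
    apply hf
    rw [lift_el f p t h0 h1 hp, lift_el f p t' h0 h1' hp, hl]
  -- now `f p = x`
  rcases t with _ | ⟨q, t⟩
  · exfalso
    rcases t' with _ | ⟨r, t'⟩
    · exact hf rfl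
    · have : (p, r) ∈ edges p ([] : List ℕ) := by rw [he]; simp
      simp at this
  rcases t' with _ | ⟨r, t'⟩
  · exfalso
    have : (p, q) ∈ edges p ([] : List ℕ) := by rw [← he]; simp
    simp at this
  have hq := h1 p q (by simp)
  have hr := h1' p r (by simp)
  have hq' := (mul_ne_zero_iff _ _).1 hq
  have hr' := (mul_ne_zero_iff _ _).1 hr
  have k1 : ∀ b c, (b, c) ∈ edges q t → f b * f c ≠ zero := fun b c h => h1 b c (by simp [h])
  have k1' : ∀ b c, (b, c) ∈ edges r t' → f b * f c ≠ zero := fun b c h => h1' b c (by simp [h])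
  have hcq : c1 (f q) = false := by
    have := hq'.2.2
    rw [hp] at this
    simpa [c2] using this
  have hcr : c1 (f r) = false := by
    have := hr'.2.2
    rw [hp] at this
    simpa [c2] using this
  simp only [lst_cons] at hl
  obtain ⟨m, hm⟩ := finish f q t hq'.2.1 k1 hcq _ rfl
  obtain ⟨m', hm'⟩ := finish f r t' hr'.2.1 k1' hcr _ rfl
  rw [← hl] at hm'
  obtain ⟨l, hl1⟩ := head_lift f q t
  obtain ⟨l', hl1'⟩ := head_lift f r t'
  have eu : ∀ s : Word, toL (FreeSemigroup.lift (fun b => rep (f b)) ⟨p, q :: t⟩ * s) =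
      0 :: (toL (FreeSemigroup.lift (fun b => rep (f b)) ⟨q, t⟩) ++ toL s) := by
    intro s
    rw [lift_cons, toL_mul, toL_mul, hp]
    rfl
  have ev' : ∀ s : Word, toL (FreeSemigroup.lift (fun b => rep (f b)) ⟨p, r :: t'⟩ * s) =
      0 :: (toL (FreeSemigroup.lift (fun b => rep (f b)) ⟨r, t'⟩) ++ toL s) := by
    intro s
    rw [lift_cons, toL_mul, toL_mul, hp]
    rfl
  -- the starts of `f q` and `f r`
  have start : ∀ s : TL, s ≠ zero → c1 s = false →
      (∃ e, s = el Start.y e) ∨ (∃ e, s = el Start.z e) := by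
    rintro (_ | _ | ⟨_ | _ | _ | _, e⟩) h1 h2
    · exact absurd rfl h1
    · exact absurd h2 (by simp [c1])
    · exact absurd h2 (by simp [c1, Start.isX])
    · exact absurd h2 (by simp [c1, Start.isX])
    · exact Or.inl ⟨e, rfl⟩
    · exact Or.inr ⟨e, rfl⟩
  have hd1 : ∀ e, (rep (el Start.y e)).head = 1 := by intro e; cases e <;> rfl
  have hd2 : ∀ e, (rep (el Start.z e)).head = 2 := by intro e; cases e <;> rfl
  have cd1 : ∀ (m : List Bool) (l : List ℕ), 1 :: l = code m → ∃ m1, m = true :: m1 := by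
    rintro (_ | ⟨_ | _, m⟩) l h
    · simp [code] at h
    · simp [code] at h
    · exact ⟨m, rfl⟩
  have cd2 : ∀ (m : List Bool) (l : List ℕ), 2 :: l = code m → ∃ m1, m = false :: m1 := by
    rintro (_ | ⟨_ | _, m⟩) l h
    · simp [code] at h
    · exact ⟨m, rfl⟩
    · simp [code] at h
  refine ⟨fun b => rep (f b), if c2 (f (lst q t)) then ⟨1, [0]⟩ else ⟨0, []⟩, ?_⟩
  rcases start (f q) hq'.2.1 hcq with ⟨e, hqe⟩ | ⟨e, hqe⟩ <;>
    rcases start (f r) hr'.2.1 hcr with ⟨e', hre⟩ | ⟨e', hre⟩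
  · exfalso
    apply hf
    rw [lift_cons, lift_cons, lift_el f q t hq'.2.1 k1 hqe, lift_el f r t' hr'.2.1 k1' hre, hl]
  · rw [hqe, hd1] at hl1
    rw [hre, hd2] at hl1'
    rw [hl1, List.cons_append] at hm
    rw [hl1', List.cons_append] at hm'
    obtain ⟨m1, rfl⟩ := cd1 _ _ hm
    obtain ⟨m1', rfl⟩ := cd2 _ _ hm'
    refine ⟨m1, m1', Or.inl ⟨?_, ?_⟩⟩
    · rw [eu, hl1, List.cons_append, hm]; rfl
    · rw [ev', hl1', List.cons_append, hm']; rfl
  · rw [hqe, hd2] at hl1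
    rw [hre, hd1] at hl1'
    rw [hl1, List.cons_append] at hm
    rw [hl1', List.cons_append] at hm'
    obtain ⟨m1, rfl⟩ := cd2 _ _ hm
    obtain ⟨m1', rfl⟩ := cd1 _ _ hm'
    refine ⟨m1', m1, Or.inr ⟨?_, ?_⟩⟩
    · rw [ev', hl1', List.cons_append, hm']; rfl
    · rw [eu, hl1, List.cons_append, hm]; rfl
  · exfalso
    apply hf
    rw [lift_cons, lift_cons, lift_el f q t hq'.2.1 k1 hqe, lift_el f r t' hr'.2.1 k1' hre, hl]

end Pool.Agent.RSCovers
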