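import Pool.Agent.RSCovers.Rees

set_option autoImplicit false

namespace Pool.Agent.RSCovers

/-! ## Varieties and identities -/

/-- The variety `V` satisfies the identity `u ≈ v`. -/
def Sat (V : SgVariety) (u v : Word) : Prop :=
  ∀ (S : Type) [Semigroup S], V.mem S → Holds S u v

theorem Holds.symm {S : Type} [Semigroup S] {u v : Word} (h : Holds S u v) : Holds S v u :=
  fun f => (h f).symm

theorem Holds.trans {S : Type} [Semigroup S] {u v w : Word} (h : Holds S u v)
    (h' : Holds S v w) : Holds S u w := fun f => (h f).trans (h' f)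

theorem mem_iff (V : SgVariety) (S : Type) [Semigroup S] :
    V.mem S ↔ ∀ u v, Sat V u v → Holds S u v := by
  refine ⟨fun h u v huv => huv S h, fun h => ?_⟩
  obtain ⟨E, hE⟩ := V.defined
  rw [hE]
  intro e he
  exact h e.1 e.2 (fun T _ hT => (hE T).1 hT e he)

theorem le_def (V W : SgVariety) :
    V ≤ W ↔ ∀ (S : Type) [Semigroup S], V.mem S → W.mem S := Iff.rfl

theorem Sat.mono {V W : SgVariety} (h : V ≤ W) {u v : Word} (hs : Sat W u v) : Sat V u v :=
  fun S _ hS => hs S (h S hS)

theorem le_of_sat {V W : SgVariety} (h : ∀ u v, Sat W u v → Sat V u v) : V ≤ W := by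
  intro S _ hS
  rw [mem_iff]
  exact fun u v huv => h u v huv S hS

theorem sat_generatedBy {K : ∀ (S : Type) [Semigroup S], Prop} {u v : Word} :
    Sat (generatedBy K) u v ↔ ∀ (T : Type) [Semigroup T], K T → Holds T u v := by
  constructor
  · intro h T _ hT
    exact h T (fun u v huv => huv T hT)
  · intro h S _ hS
    exact hS u v h

theorem sat_one {T : Type} [Semigroup T] {u v : Word} :
    Sat (generatedByOne T) u v ↔ Holds T u v :=
  ⟨fun h => h T (fun _ _ huv => huv), fun h _ _ hS => hS u v h⟩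

theorem sat_join {V W : SgVariety} {u v : Word} :
    Sat (join V W) u v ↔ Sat V u v ∧ Sat W u v := by
  unfold join
  rw [sat_generatedBy]
  exact ⟨fun h => ⟨fun S _ hS => h S (Or.inl hS), fun S _ hS => h S (Or.inr hS)⟩,
    fun h T _ hT => hT.elim (fun h' => h.1 T h') (fun h' => h.2 T h')⟩

theorem le_join_left (V W : SgVariety) : V ≤ join V W :=
  le_of_sat fun _ _ h => (sat_join.1 h).1

theorem le_join_right (V W : SgVariety) : W ≤ join V W :=
  le_of_sat fun _ _ h => (sat_join.1 h).2

theorem join_le {U V W : SgVariety} (h1 : V ≤ U) (h2 : W ≤ U) : join V W ≤ U :=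
  le_of_sat fun _ _ h => sat_join.2 ⟨h.mono h1, h.mono h2⟩

theorem one_le_iff {V : SgVariety} {T : Type} [Semigroup T] :
    generatedByOne T ≤ V ↔ V.mem T := by
  constructor
  · intro h
    exact h T (fun _ _ huv => huv)
  · intro h
    exact le_of_sat fun u v huv => sat_one.2 (huv T h)

theorem mem_join_one (V : SgVariety) (T : Type) [Semigroup T] :
    (join V (generatedByOne T)).mem T := one_le_iff.1 (le_join_right _ _)

/-- If `T` is not in `V`, some identity of `V` fails in `T`. -/
theorem exists_fail {V : SgVariety} {T : Type} [Semigroup T] (h : ¬ V.mem T) :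
    ∃ u v, Sat V u v ∧ ¬ Holds T u v := by
  rw [mem_iff] at h
  push Not at h
  obtain ⟨u, v, h1, h2⟩ := h
  exact ⟨u, v, h1, h2⟩

theorem sat_RS {n : ℕ} {u v : Word} :
    Sat (RS n) u v ↔ ∀ (T : Type) [Semigroup T], IsZeroSimple T ∧ SqIdentity n T → Holds T u v :=
  sat_generatedBy

/-- Identities of varieties above `RS n`. -/
theorem inv_of_sat {n : ℕ} {V : SgVariety} (hV : RS n ≤ V) {u v : Word} (h : Sat V u v) :
    u.head = v.head ∧ Inv n u.head u.tail v.tail :=
  inv_of_holds (sat_RS.1 (h.mono hV))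

/-! ## The identities (1), (2), (3) as words -/

/-- `x²` -/
def A1 : Word := ⟨0, [0]⟩
/-- `x ^ (n+2)` -/
def B1 (n : ℕ) : Word := ⟨0, lpow [0] (n + 1)⟩
/-- `xyx` -/
def A2 : Word := ⟨0, [1, 0]⟩
/-- `(xy) ^ (n+1) x` -/
def B2 (n : ℕ) : Word := ⟨0, 1 :: (lpow [0, 1] n ++ [0])⟩
/-- `xyx(zx) ^ n` -/
def A3 (n : ℕ) : Word := ⟨0, [1, 0] ++ lpow [2, 0] n⟩
/-- `x(zx) ^ n yx` -/
def B3 (n : ℕ) : Word := ⟨0, lpow [2, 0] n ++ [1, 0]⟩

/-- The substitution `x, y, z` for the letters `0`, `1`, and all others. -/
def sub3 {S : Type} (x y z : S) (k : ℕ) : S := if k = 0 then x else if k = 1 then y else z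

section

variable {S : Type} [Semigroup S] {n : ℕ}

theorem holds1_iff : Holds S A1 (B1 n) ↔ SqIdentity n S := by
  rw [holds_iff]
  constructor
  · intro h x
    have := h (fun _ => x)
    simp only [A1, B1, ev_cons, ev_nil, ev_lpow, mul_one] at this
    rw [← pow_succ', ← coe_pow', ← WithOne.coe_mul, WithOne.coe_inj] at this
    exact this
  · intro h f
    have := congrArg (fun a : S => (a : WithOne S)) (h (f 0))
    simp only [WithOne.coe_mul, coe_pow'] at this
    simp only [A1, B1, ev_cons, ev_nil, ev_lpow, mul_one]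
    rw [this, ← pow_succ']

theorem holds2_iff : Holds S A2 (B2 n) ↔
    ∀ x y : S, (x : WithOne S) * (y * x) = (x * y) ^ (n + 1) * x := by
  rw [holds_iff]
  have key : ∀ f : ℕ → S, ev f (A2.head :: A2.tail) = ev f ((B2 n).head :: (B2 n).tail) ↔
      (f 0 : WithOne S) * (f 1 * f 0) = (f 0 * f 1) ^ (n + 1) * f 0 := by
    intro f
    simp only [A2, B2, ev_cons, ev_nil, ev_append, ev_lpow, mul_one, pow_succ', mul_assoc]
  constructor
  · intro h x y
    have := (key (sub3 x y x)).1 (h _)
    simpa [sub3] using this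
  · intro h f
    exact (key f).2 (h _ _)

theorem holds3_iff : Holds S (A3 n) (B3 n) ↔
    ∀ x y z : S, (x : WithOne S) * (y * x) * (z * x) ^ n = x * (z * x) ^ n * (y * x) := by
  rw [holds_iff]
  have key : ∀ f : ℕ → S, ev f ((A3 n).head :: (A3 n).tail) =
      ev f ((B3 n).head :: (B3 n).tail) ↔
      (f 0 : WithOne S) * (f 1 * f 0) * (f 2 * f 0) ^ n =
        f 0 * (f 2 * f 0) ^ n * (f 1 * f 0) := by
    intro f
    simp only [A3, B3, ev_cons, ev_nil, ev_append, ev_lpow, mul_one, mul_assoc]
  constructor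
  · intro h x y z
    have := (key (sub3 x y z)).1 (h _)
    simpa [sub3] using this
  · intro h f
    exact (key f).2 (h _ _ _)

theorem Sys.sq (h : Sys n S) : SqIdentity n S := by
  intro x
  rw [← WithOne.coe_inj, coe_pow', WithOne.coe_mul, pow_succ']
  have := h.h2 x 1
  simpa using this.symm

theorem sys_iff (hn : 1 ≤ n) : Sys n S ↔
    SqIdentity n S ∧ Holds S A2 (B2 n) ∧ Holds S (A3 n) (B3 n) := by
  constructor
  · intro h
    refine ⟨h.sq, holds2_iff.2 fun x y => ?_, holds3_iff.2 fun x y z => h.h3 x y z⟩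
    rw [← h.h2 x y]
    have : ∀ (a b : WithOne S) (k : ℕ), a * (b * a) ^ k = (a * b) ^ k * a := by
      intro a b k
      induction k with
      | zero => simp
      | succ k ih => rw [pow_succ', pow_succ', mul_assoc (a * b), ← ih]; simp only [mul_assoc]
    exact this _ _ _
  · rintro ⟨h1, h2, h3⟩
    rw [holds2_iff] at h2
    rw [holds3_iff] at h3
    have h1' : ∀ x : S, (x : WithOne S) * x ^ (n + 1) = x * x := by
      intro x
      have := sq_coe h1 (x : WithOne S)
      rw [pow_two, show n + 2 = (n + 1) + 1 by ring, pow_succ'] at this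
      exact this
    have rot : ∀ (a b : WithOne S) (k : ℕ), a * (b * a) ^ k = (a * b) ^ k * a := by
      intro a b k
      induction k with
      | zero => simp
      | succ k ih => rw [pow_succ', pow_succ', mul_assoc (a * b), ← ih]; simp only [mul_assoc]
    constructor
    · intro x y
      induction y with
      | one => simpa using h1' x
      | coe y => rw [rot, ← h2 x y]
    · intro x y z
      have xx : ∀ k, 2 ≤ k → (x : WithOne S) ^ (k + n) = x ^ k :=
        fun k hk => pow_add_n (sq_coe h1 (x : WithOne S)) k hk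
      induction z with
      | one =>
        -- z = 1
        induction y with
        | one =>
          simp only [one_mul]
          rw [mul_assoc, mul_assoc, pow_mul_comm']
        | coe y =>
          have h := h3 x y x
          have e : ((x : WithOne S) * x) ^ n = x ^ (2 * n) := by rw [← pow_two, pow_mul]
          have e1 : (x : WithOne S) * x ^ (2 * n) = x * x ^ n := by
            rw [← pow_succ', ← pow_succ', show 2 * n + 1 = (n + 1) + n by ring]
            exact xx _ (by omega)
          rw [e] at h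
          calc (x : WithOne S) * (y * x) * (1 * x) ^ n = x * y * (x * x ^ n) := by
                simp only [one_mul, mul_assoc]
            _ = x * (y * x) * x ^ (2 * n) := by rw [← e1]; simp only [mul_assoc]
            _ = x * x ^ (2 * n) * (y * x) := h
            _ = x * (1 * x) ^ n * (y * x) := by rw [e1, one_mul]
      | coe z =>
        induction y with
        | one =>
          -- y = 1: use (3) with y := x ^ n
          obtain ⟨m, rfl⟩ := Nat.exists_eq_add_of_le' hn
          have h := h3 x (pow' x m) z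
          rw [coe_pow'] at h
          have e1 : (x : WithOne S) * (x ^ (m + 1) * x) = x * x := by
            rw [← pow_succ, ← pow_succ', ← pow_two, show m + 1 + 1 + 1 = (m + 1) + 2 by ring]
            exact sq_coe h1 _
          rw [e1] at h
          have e2 : (x : WithOne S) * (z * x) ^ (m + 1) * (x ^ (m + 1) * x) =
              x * (z * x) ^ (m + 1) * x := by
            rw [pow_succ (z * x : WithOne S)]
            calc _ = (x : WithOne S) * (z * x) ^ m * z * (x * (x ^ (m + 1) * x)) := by
                  simp only [mul_assoc]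
              _ = _ := by rw [e1]; simp only [mul_assoc]
          rw [e2] at h
          simpa using h
        | coe y => exact h3 x y z

/-- `RS n` is defined by the identities (1), (2), (3). -/
theorem mem_RS_iff (hn : 1 ≤ n) : (RS n).mem S ↔ Sys n S := by
  constructor
  · intro h
    rw [sys_iff hn]
    have key : ∀ (T : Type) [Semigroup T], IsZeroSimple T ∧ SqIdentity n T →
        SqIdentity n T ∧ Holds T A2 (B2 n) ∧ Holds T (A3 n) (B3 n) :=
      fun T _ hT => (sys_iff hn).1 (sys_of_zeroSimple hn hT.1 hT.2)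
    exact ⟨holds1_iff.1 (h _ _ fun T _ hT => holds1_iff.2 (key T hT).1),
      h _ _ fun T _ hT => (key T hT).2.1, h _ _ fun T _ hT => (key T hT).2.2⟩
  · intro h u v huv
    obtain ⟨h1, h2⟩ := inv_of_holds huv
    exact holds_of_inv h hn u v h1 h2

end

theorem le_RS {n : ℕ} (hn : 1 ≤ n) {V : SgVariety} (h1 : V ∈ Ln n) (h2 : Sat V A2 (B2 n))
    (h3 : Sat V (A3 n) (B3 n)) : V ≤ RS n := fun S _ hS =>
  (mem_RS_iff hn).2 ((sys_iff hn).2 ⟨h1 S hS, h2 S hS, h3 S hS⟩)

theorem RS_sat {n : ℕ} (hn : 1 ≤ n) :
    RS n ∈ Ln n ∧ Sat (RS n) A2 (B2 n) ∧ Sat (RS n) (A3 n) (B3 n) :=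
  ⟨fun _ _ hS => ((sys_iff hn).1 ((mem_RS_iff hn).1 hS)).1,
    fun _ _ hS => ((sys_iff hn).1 ((mem_RS_iff hn).1 hS)).2.1,
    fun _ _ hS => ((sys_iff hn).1 ((mem_RS_iff hn).1 hS)).2.2⟩

theorem mem_Ln_iff {n : ℕ} {V : SgVariety} : V ∈ Ln n ↔ Sat V A1 (B1 n) :=
  ⟨fun h S _ hS => holds1_iff.2 (h S hS), fun h S _ hS => holds1_iff.1 (h S hS)⟩

end Pool.Agent.RSCovers
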