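import Pool.Agent.RSCovers.Defs

set_option autoImplicit false

namespace Pool.Agent.RSCovers

/-! ## Evaluation of lists of letters in `WithOne S` -/

/-- The value of a list of letters in the monoid `WithOne S`. -/
def ev {S : Type} [Semigroup S] (f : ℕ → S) (l : List ℕ) : WithOne S :=
  (l.map (fun a => (f a : WithOne S))).prod

section ev

variable {S : Type} [Semigroup S] (f : ℕ → S)

@[simp] theorem ev_nil : ev f [] = 1 := rfl

@[simp] theorem ev_cons (a : ℕ) (l : List ℕ) : ev f (a :: l) = (f a : WithOne S) * ev f l := by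
  simp [ev]

@[simp] theorem ev_append (l l' : List ℕ) : ev f (l ++ l') = ev f l * ev f l' := by
  simp [ev]

/-- The `k`-th power of a list. -/
def lpow (l : List ℕ) (k : ℕ) : List ℕ := (List.replicate k l).flatten

@[simp] theorem lpow_zero (l : List ℕ) : lpow l 0 = [] := by simp [lpow]

theorem lpow_succ (l : List ℕ) (k : ℕ) : lpow l (k + 1) = l ++ lpow l k := by
  simp [lpow, List.replicate_succ]

@[simp] theorem ev_lpow (l : List ℕ) (k : ℕ) : ev f (lpow l k) = ev f l ^ k := by
  induction k with
  | zero => simp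
  | succ k ih => rw [lpow_succ, ev_append, ih, pow_succ']

theorem coe_lift (u : Word) :
    ((FreeSemigroup.lift f u : S) : WithOne S) = ev f (u.head :: u.tail) := by
  obtain ⟨x, t⟩ := u
  show ((t.foldl (fun a b ↦ a * f b) (f x) : S) : WithOne S) = ev f (x :: t)
  rw [ev_cons]
  generalize f x = c
  induction t generalizing c with
  | nil => simp
  | cons a t ih =>
    rw [List.foldl_cons, ih, ev_cons, WithOne.coe_mul, mul_assoc]

theorem holds_iff (S : Type) [Semigroup S] (u v : Word) :
    Holds S u v ↔ ∀ f : ℕ → S, ev f (u.head :: u.tail) = ev f (v.head :: v.tail) := by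
  unfold Holds
  refine forall_congr' fun f => ?_
  rw [← coe_lift, ← coe_lift, WithOne.coe_inj]

/-- The value of a nonempty list lies in `S`. -/
theorem ev_cons_coe (x : ℕ) (t : List ℕ) : ∃ s : S, ev f (x :: t) = s :=
  ⟨FreeSemigroup.lift f ⟨x, t⟩, (coe_lift f ⟨x, t⟩).symm⟩

end ev

/-! ## Walks -/

/-- The set of pairs of adjacent letters in the word `x :: t`. -/
def edges : ℕ → List ℕ → Set (ℕ × ℕ)
  | _, [] => ∅
  | x, y :: t => insert (x, y) (edges y t)

/-- The last letter of the word `x :: t`. -/
def lst : ℕ → List ℕ → ℕ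
  | x, [] => x
  | _, y :: t => lst y t

@[simp] theorem edges_nil (x : ℕ) : edges x [] = ∅ := rfl

@[simp] theorem edges_cons (x y : ℕ) (t : List ℕ) :
    edges x (y :: t) = insert (x, y) (edges y t) := rfl

@[simp] theorem lst_nil (x : ℕ) : lst x [] = x := rfl

@[simp] theorem lst_cons (x y : ℕ) (t : List ℕ) : lst x (y :: t) = lst y t := rfl

@[simp] theorem lst_append (x : ℕ) (s t : List ℕ) : lst x (s ++ t) = lst (lst x s) t := by
  induction s generalizing x with
  | nil => rfl
  | cons a s ih => simp [ih]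

@[simp] theorem edges_append (x : ℕ) (s t : List ℕ) :
    edges x (s ++ t) = edges x s ∪ edges (lst x s) t := by
  induction s generalizing x with
  | nil => simp
  | cons a s ih => simp [ih, Set.insert_union]

theorem lst_mem (x : ℕ) (t : List ℕ) : lst x t ∈ x :: t := by
  induction t generalizing x with
  | nil => simp
  | cons a t ih => simpa using Or.inr (by simpa using ih a)

theorem edges_split {x : ℕ} {t : List ℕ} {a b : ℕ} (h : (a, b) ∈ edges x t) :
    ∃ α β, t = α ++ b :: β ∧ lst x α = a := by
  induction t generalizing x with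
  | nil => simp at h
  | cons c t ih =>
    rw [edges_cons, Set.mem_insert_iff] at h
    rcases h with h | h
    · obtain ⟨rfl, rfl⟩ := Prod.mk.injEq _ _ _ _ ▸ h
      exact ⟨[], t, rfl, rfl⟩
    · obtain ⟨α, β, rfl, h2⟩ := ih h
      exact ⟨c :: α, β, rfl, h2⟩

theorem mem_split {x : ℕ} {t : List ℕ} {q : ℕ} (h : q ∈ x :: t) :
    ∃ α β, t = α ++ β ∧ lst x α = q := by
  rcases List.mem_cons.1 h with rfl | h
  · exact ⟨[], t, rfl, rfl⟩
  · obtain ⟨α, β, rfl⟩ := List.append_of_mem h
    exact ⟨α ++ [q], β, by simp, by simp⟩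

theorem lst_mem_append {x : ℕ} {α β : List ℕ} : lst x α ∈ x :: (α ++ β) := by
  have := lst_mem x α
  rcases List.mem_cons.1 this with h | h
  · rw [h]; exact List.mem_cons_self
  · exact List.mem_cons_of_mem _ (List.mem_append_left _ h)

theorem edges_mem {x : ℕ} {t : List ℕ} {a b : ℕ} (h : (a, b) ∈ edges x t) :
    a ∈ x :: t ∧ b ∈ t := by
  obtain ⟨α, β, rfl, h2⟩ := edges_split h
  refine ⟨?_, by simp⟩
  rw [← h2]
  exact lst_mem_append

/-- If all edges of `x :: s` are edges of `x :: t` then all letters of `x :: s` occur in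
`x :: t`. -/
theorem mem_of_edges {x : ℕ} {s t : List ℕ} (h : edges x s ⊆ edges x t) {q : ℕ}
    (hq : q ∈ x :: s) : q ∈ x :: t := by
  obtain ⟨α, β, rfl, hα⟩ := mem_split hq
  rcases List.eq_nil_or_concat α with rfl | ⟨α', b, rfl⟩
  · simp at hα; simp [hα]
  · have : (lst x α', q) ∈ edges x t := by
      apply h
      simp at hα
      subst hα
      simp
    exact List.mem_cons_of_mem _ (edges_mem this).2

theorem edges_lpow {x : ℕ} {l : List ℕ} (h : lst x l = x) (k : ℕ) :
    lst x (lpow l k) = x ∧ edges x (lpow l k) ⊆ edges x l := by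
  induction k with
  | zero => simp
  | succ k ih =>
    rw [lpow_succ]
    refine ⟨by simp [h, ih.1], ?_⟩
    simp only [edges_append, h]
    exact Set.union_subset (le_refl _) ih.2

end Pool.Agent.RSCovers
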